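import Pool.Agent.Helper12.Obs.Final

set_option autoImplicit false
set_option maxRecDepth 100000

namespace Pool.Agent.Helper12.Obs

/-- a graph on `Fin n` from an edge list -/
def ofList {n : ℕ} (E : List (Fin n × Fin n)) : SimpleGraph (Fin n) where
  Adj u v := u ≠ v ∧ ((u, v) ∈ E ∨ (v, u) ∈ E)
  symm := ⟨fun _ _ h => ⟨h.1.symm, h.2.symm⟩⟩
  loopless := ⟨fun _ h => h.1 rfl⟩

instance {n : ℕ} (E : List (Fin n × Fin n)) : DecidableRel (ofList E).Adj := fun u v =>
  inferInstanceAs (Decidable (u ≠ v ∧ ((u, v) ∈ E ∨ (v, u) ∈ E)))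

/-- the unit without hubs -/
def unitG {U : Type} (G : SimpleGraph U) : SimpleGraph (Empty ⊕ U) where
  Adj x y := match x, y with
    | Sum.inr u, Sum.inr v => G.Adj u v
    | _, _ => False
  symm := ⟨by
    rintro (e | u) (e' | v) h
    · exact e.elim
    · exact e.elim
    · exact e'.elim
    · exact G.symm.symm _ _ h⟩
  loopless := ⟨by
    rintro (e | u) h
    · exact e.elim
    · exact G.loopless.irrefl _ h⟩

/-- Boolean check of a grid drawing -/
def gridOK {n : ℕ} (E : List (Fin n × Fin n)) (c : Fin n → ℤ × ℤ) (L : ℤ) : Bool :=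
  (List.finRange n).all (fun u => decide (0 ≤ (c u).1) && decide ((c u).1 ≤ L) &&
    (List.finRange n).all (fun v => decide (u = v) || (decide (c u ≠ c v) &&
      (List.finRange n).all (fun w => decide (v = w) || decide (u = w) ||
        decide (oz (c u) (c v) (c w) ≠ 0))))) &&
  E.all (fun e => E.all (fun f => decide (e.1 = f.1) || decide (e.1 = f.2) || decide (e.2 = f.1) ||
    decide (e.2 = f.2) ||
    decide (0 < oz (c e.1) (c e.2) (c f.1) * oz (c e.1) (c e.2) (c f.2)) ||
    decide (0 < oz (c f.1) (c f.2) (c e.1) * oz (c f.1) (c f.2) (c e.2))))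

theorem oz_swap (a b c : ℤ × ℤ) : oz b a c = - oz a b c := by unfold oz; ring

theorem grid_of_ok {n : ℕ} {E : List (Fin n × Fin n)} {c : Fin n → ℤ × ℤ} {L : ℤ}
    (h : gridOK E c L = true) : GridDrawing (ofList E) c L := by
  unfold gridOK at h
  rw [Bool.and_eq_true, List.all_eq_true, List.all_eq_true] at h
  obtain ⟨h1, h2⟩ := h
  have g1 : ∀ u, 0 ≤ (c u).1 ∧ (c u).1 ≤ L := by
    intro u
    have := h1 u (List.mem_finRange u)
    simp only [Bool.and_eq_true, decide_eq_true_eq] at this
    exact this.1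
  have g2 : ∀ u v, u ≠ v → c u ≠ c v ∧ ∀ w, v ≠ w → u ≠ w → oz (c u) (c v) (c w) ≠ 0 := by
    intro u v huv
    have := h1 u (List.mem_finRange u)
    simp only [Bool.and_eq_true] at this
    have h3 := this.2
    rw [List.all_eq_true] at h3
    have h4 := h3 v (List.mem_finRange v)
    rw [Bool.or_eq_true, decide_eq_true_eq] at h4
    have h5 := h4.resolve_left huv
    rw [Bool.and_eq_true, decide_eq_true_eq, List.all_eq_true] at h5
    refine ⟨h5.1, ?_⟩
    intro w hvw huw
    have h6 := h5.2 w (List.mem_finRange w)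
    simp only [Bool.or_eq_true, decide_eq_true_eq] at h6
    rcases h6 with (h6 | h6) | h6
    · exact absurd h6 hvw
    · exact absurd h6 huw
    · exact h6
  have key : ∀ e ∈ E, ∀ f ∈ E, e.1 ≠ f.1 → e.1 ≠ f.2 → e.2 ≠ f.1 → e.2 ≠ f.2 →
      0 < oz (c e.1) (c e.2) (c f.1) * oz (c e.1) (c e.2) (c f.2) ∨
      0 < oz (c f.1) (c f.2) (c e.1) * oz (c f.1) (c f.2) (c e.2) := by
    intro e he f hf n1 n2 n3 n4
    have h3 := h2 e he
    rw [List.all_eq_true] at h3
    have h4 := h3 f hf
    simp only [Bool.or_eq_true, decide_eq_true_eq] at h4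
    rcases h4 with ((((h4 | h4) | h4) | h4) | h4) | h4
    · exact absurd h4 n1
    · exact absurd h4 n2
    · exact absurd h4 n3
    · exact absurd h4 n4
    · exact Or.inl h4
    · exact Or.inr h4
  refine { gen := ?_, inj := fun u v h => (g2 u v h).1, sep := ?_, box := g1 }
  · intro u v w huv hvw huw
    exact (g2 u v huv).2 w hvw huw
  · rintro u v w x ⟨_, he⟩ ⟨_, hf⟩ n1 n2 n3 n4
    rcases he with he | he <;> rcases hf with hf | hf
    · exact key _ he _ hf n1 n2 n3 n4
    · rcases key _ he _ hf n2 n1 n4 n3 with h | h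
      · left; rw [mul_comm]; exact h
      · right
        simp only at h
        rw [oz_swap (c w) (c x), oz_swap (c w) (c x)] at h
        linarith
    · rcases key _ he _ hf n3 n4 n1 n2 with h | h
      · left
        simp only at h
        rw [oz_swap (c u) (c v), oz_swap (c u) (c v)] at h
        linarith
      · right; rw [mul_comm]; exact h
    · rcases key _ he _ hf n4 n3 n2 n1 with h | h
      · left
        simp only at h
        rw [oz_swap (c u) (c v), oz_swap (c u) (c v)] at h
        linarith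
      · right
        simp only at h
        rw [oz_swap (c w) (c x), oz_swap (c w) (c x)] at h
        linarith

/-- the edges of the block `B11` -/
def E11 : List (Fin 11 × Fin 11) :=
  [(0,1),(0,2),(0,3),(0,4),(1,4),(1,5),(1,2),(2,5),(2,6),(2,7),(2,3),(3,7),(3,8),(3,9),(3,4),
   (4,9),(4,10),(4,5),(5,10),(5,8),(5,6),(6,8),(6,7),(7,8),(8,10),(8,9),(9,10)]

def c11 : Fin 11 → ℤ × ℤ :=
  ![(7, 2), (0, 0), (3, 4), (7, 4), (16, 0), (0, 16), (4, 6), (5, 5), (6, 7), (11, 3), (9, 5)]

theorem grid11 : GridDrawing (ofList E11) c11 16 := grid_of_ok (by decide +kernel)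

theorem planar11 (N : ℕ) : PlanarF (two (amal (unitG (ofList E11)) (Fin N))) :=
  planar_copies (G := ofList E11) (fun _ _ h => h) grid11 N

end Pool.Agent.Helper12.Obs
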