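import Pool.Agent.Helper12.Obs.W

set_option autoImplicit false

namespace Pool.Agent.Helper12.Obs

open Complex

/-- twice the signed area of the triangle `abc` -/
noncomputable def dt (a b c : ℂ) : ℝ :=
  (b.re - a.re) * (c.im - a.im) - (b.im - a.im) * (c.re - a.re)

theorem dt_rot (a b c : ℂ) : dt b c a = dt a b c := by unfold dt; ring
theorem dt_swap (a b c : ℂ) : dt b a c = - dt a b c := by unfold dt; ring
theorem dt_swap' (a b c : ℂ) : dt a c b = - dt a b c := by unfold dt; ring
theorem dt_gp (a b c d e : ℂ) :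
    dt a b c * dt a d e - dt a b d * dt a c e + dt a b e * dt a c d = 0 := by unfold dt; ring
theorem dt_four (a b c d : ℂ) : dt a b c = dt d b c + dt a d c + dt a b d := by unfold dt; ring

/-- `dt` as an imaginary part -/
theorem im_div_dt (z a b : ℂ) : ((b - z) / (a - z)).im = dt z a b / normSq (a - z) := by
  rw [Complex.div_im]
  unfold dt
  simp only [sub_im, sub_re]
  ring

/-- reference angle -/
noncomputable def al (c z a : ℂ) : ℝ := Complex.arg ((a - z) / c)

theorem th_eq_sub {c z a b : ℂ} (hc : c ≠ 0) (ha : a ≠ z) (hb : b ≠ z)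
    (h1 : -Real.pi < al c z b - al c z a) (h2 : al c z b - al c z a ≤ Real.pi) :
    th z a b = al c z b - al c z a := by
  have ha' : a - z ≠ 0 := sub_ne_zero.mpr ha
  have hb' : b - z ≠ 0 := sub_ne_zero.mpr hb
  have e : (b - z) / (a - z) = ((b - z) / c) / ((a - z) / c) := by field_simp
  unfold th al at *
  rw [e]
  have h3 := Complex.arg_div_coe_angle (div_ne_zero hb' hc) (div_ne_zero ha' hc)
  have h4 : ((Complex.arg ((b - z) / c / ((a - z) / c)) : ℝ) : Real.Angle).toReal
      = Complex.arg ((b - z) / c / ((a - z) / c)) := by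
    rw [Real.Angle.toReal_coe_eq_self_iff_mem_Ioc]
    exact Complex.arg_mem_Ioc _
  rw [← h4, h3, ← Real.Angle.coe_sub, Real.Angle.toReal_coe_eq_self_iff]
  exact ⟨h1, h2⟩

theorem th_swap {z a b : ℂ} (h : z ∉ segment ℝ a b) : th z b a = - th z a b := by
  unfold th
  have h1 := div_mem_slitPlane h
  have h2 : (a - z) / (b - z) = ((b - z) / (a - z))⁻¹ := by rw [inv_div]
  rw [h2, Complex.arg_inv, if_neg (Complex.mem_slitPlane_iff_arg.mp h1).1]

/-- if all points of the path lie in an open half-plane seen from `z`, the angles telescope -/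
theorem ths_half {c z : ℂ} (hc : c ≠ 0) : ∀ (a : ℂ) (l : List ℂ),
    (∀ m ∈ a :: l, 0 < ((m - z) / c).re) →
    ths z (a :: l) = al c z ((a :: l).getLast (by simp)) - al c z a
  | a, [], _ => by simp [ths]
  | a, b :: l, h => by
    have key : ∀ m ∈ a :: b :: l, m ≠ z ∧ |al c z m| < Real.pi / 2 := by
      intro m hm
      have h1 := h m hm
      refine ⟨?_, ?_⟩
      · rintro rfl
        simp at h1
      · unfold al
        rw [Complex.abs_arg_lt_pi_div_two_iff]
        exact Or.inl h1
    have hab := abs_lt.mp (key a (by simp)).2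
    have hbb := abs_lt.mp (key b (by simp)).2
    rw [ths_cons_cons, th_eq_sub hc (key a (by simp)).1 (key b (by simp)).1 (by linarith)
      (by linarith), ths_half hc b l (fun m hm => h m (List.mem_cons_of_mem _ hm))]
    simp only [List.getLast_cons_cons]
    ring

theorem ths_append (z y : ℂ) (r : List ℂ) : ∀ (a : ℂ) (l : List ℂ),
    ths z (a :: (l ++ (y :: r))) = ths z (a :: (l ++ [y])) + ths z (y :: r)
  | a, [] => by simp [ths]
  | a, b :: l => by
    simp only [List.cons_append, ths_cons_cons]
    rw [ths_append z y r b l]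
    ring

theorem cap_aux {c z y : ℂ} (hc : c ≠ 0) (hy : y ≠ z) (hy0 : al c z y = 0) :
    ∀ (m : ℂ) (l : List ℂ), (∀ k ∈ m :: l, k ≠ z ∧ 0 < al c z k ∧ al c z k < Real.pi) →
      ths z (m :: (l ++ [y])) = - al c z m
  | m, [], h => by
    obtain ⟨h1, h2, h3⟩ := h m (by simp)
    simp only [List.nil_append, ths, add_zero]
    rw [th_eq_sub hc h1 hy (by rw [hy0]; linarith) (by rw [hy0]; linarith), hy0]
    ring
  | m, b :: l, h => by
    obtain ⟨h1, h2, h3⟩ := h m (by simp)
    obtain ⟨g1, g2, g3⟩ := h b (by simp)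
    simp only [List.cons_append, ths_cons_cons]
    rw [th_eq_sub hc h1 g1 (by linarith) (by linarith),
      cap_aux hc hy hy0 b l (fun k hk => h k (List.mem_cons_of_mem _ hk))]
    ring

/-- A cap on the left of the line `xy` contributes `-π` at a point of the open segment. -/
theorem cap {x y z : ℂ} (hxy : x ≠ y) {t : ℝ} (ht0 : 0 < t) (ht1 : t < 1)
    (hz : z = x + (t : ℂ) * (y - x)) {l : List ℂ} (hl : l ≠ []) (hcap : ∀ m ∈ l, 0 < dt x y m) :
    ths z (x :: (l ++ [y])) = - Real.pi := by
  set c := y - x with hcdef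
  have hc : c ≠ 0 := sub_ne_zero.mpr (Ne.symm hxy)
  have hyz : y - z = ((1 - t : ℝ) : ℂ) * c := by rw [hz]; push_cast; ring
  have hxz : x - z = ((-t : ℝ) : ℂ) * c := by rw [hz]; push_cast; ring
  have hy : y ≠ z := by
    intro e
    have : y - z = 0 := sub_eq_zero.mpr e
    rw [hyz] at this
    rcases mul_eq_zero.mp this with h | h
    · have : (1 - t : ℝ) = 0 := by exact_mod_cast h
      linarith
    · exact hc h
  have hx : x ≠ z := by
    intro e
    have : x - z = 0 := sub_eq_zero.mpr e
    rw [hxz] at this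
    rcases mul_eq_zero.mp this with h | h
    · have : (-t : ℝ) = 0 := by exact_mod_cast h
      linarith
    · exact hc h
  have hy0 : al c z y = 0 := by
    unfold al
    rw [hyz, mul_div_assoc, div_self hc, mul_one]
    exact Complex.arg_ofReal_of_nonneg (by linarith)
  have hx0 : al c z x = Real.pi := by
    unfold al
    rw [hxz, mul_div_assoc, div_self hc, mul_one]
    exact Complex.arg_ofReal_of_neg (by linarith)
  have hns : 0 < normSq c := Complex.normSq_pos.mpr hc
  have hin : ∀ k ∈ l, k ≠ z ∧ 0 < al c z k ∧ al c z k < Real.pi := by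
    intro k hk
    have h1 := hcap k hk
    have him : ((k - z) / c).im = dt x y k / normSq c := by
      rw [Complex.div_im, hz, hcdef]
      unfold dt
      simp only [sub_im, sub_re, add_re, add_im, mul_re, mul_im, ofReal_re, ofReal_im]
      ring
    have him' : 0 < ((k - z) / c).im := by rw [him]; positivity
    refine ⟨?_, ?_, ?_⟩
    · rintro rfl
      simp at him'
    · unfold al
      rcases lt_or_eq_of_le (Complex.arg_nonneg_iff.mpr him'.le) with h | h
      · exact h
      · exfalso
        have := (Complex.arg_eq_zero_iff.mp h.symm).2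
        rw [this] at him'
        exact lt_irrefl _ him'
    · unfold al
      rw [Complex.arg_lt_pi_iff]
      exact Or.inr him'.ne'
  rcases l with _ | ⟨m, l⟩
  · exact absurd rfl hl
  · simp only [List.cons_append, ths_cons_cons]
    obtain ⟨g1, g2, g3⟩ := hin m (by simp)
    rw [th_eq_sub hc hx g1 (by rw [hx0]; linarith) (by rw [hx0]; linarith), hx0,
      cap_aux hc hy hy0 m l hin]
    ring

/-- Points outside of the convex hull do not see the polygon turn around. -/
theorem ths_far {z : ℂ} {S : Set ℂ} (hS : IsCompact S) (hconv : Convex ℝ S) (hz : z ∉ S)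
    {a : ℂ} {l : List ℂ} (hm : ∀ m ∈ a :: l, m ∈ S) (hcl : (a :: l).getLast (by simp) = a) :
    ths z (a :: l) = 0 := by
  obtain ⟨f, u, hf1, hf2⟩ := geometric_hahn_banach_point_closed hconv hS.isClosed hz
  -- f z < u, ∀ b ∈ S, u < f b
  set c : ℂ := ⟨f 1, f I⟩ with hc
  have hfv : ∀ w : ℂ, f w = w.re * f 1 + w.im * f I := by
    intro w
    have : w = w.re • (1 : ℂ) + w.im • (I : ℂ) := by
      apply Complex.ext <;> simp
    conv_lhs => rw [this]
    rw [map_add, map_smul, map_smul]
    simp
  have ha : a ∈ S := hm a (by simp)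
  have hpos : ∀ m ∈ a :: l, 0 < f (m - z) := by
    intro m hm'
    have := hf2 m (hm m hm')
    rw [map_sub]; linarith
  have hc0 : c ≠ 0 := by
    intro h0
    have h1 : f 1 = 0 := by have := congrArg Complex.re h0; simpa [hc] using this
    have h2 : f I = 0 := by have := congrArg Complex.im h0; simpa [hc] using this
    have := hpos a (by simp)
    rw [hfv, h1, h2] at this
    simp at this
  have hns : 0 < normSq c := Complex.normSq_pos.mpr hc0
  rw [ths_half (c := c) hc0 a l, hcl, sub_self]
  intro m hm'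
  have h1 := hpos m hm'
  rw [hfv] at h1
  rw [Complex.div_re, ← add_div]
  apply div_pos _ hns
  rw [hc]
  simpa using h1

/-- Half-plane version for a polygon on the other side of a line. -/
theorem ths_side {x y q : ℂ} (hq : 0 < dt x y q) {a : ℂ} {l : List ℂ}
    (hm : ∀ m ∈ a :: l, dt x y m ≤ 0) (hcl : (a :: l).getLast (by simp) = a) :
    ths q (a :: l) = 0 := by
  set c : ℂ := ⟨y.im - x.im, -(y.re - x.re)⟩ with hc
  have hc0 : c ≠ 0 := by
    intro h0
    have h1 : y.im - x.im = 0 := by have := congrArg Complex.re h0; simpa [hc] using this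
    have h2 : y.re - x.re = 0 := by
      have := congrArg Complex.im h0
      simp only [hc, zero_im] at this
      linarith
    unfold dt at hq
    rw [h1, h2] at hq
    simp at hq
  have hns : 0 < normSq c := Complex.normSq_pos.mpr hc0
  rw [ths_half (c := c) hc0 a l, hcl, sub_self]
  intro m hm'
  have h1 := hm m hm'
  rw [Complex.div_re, ← add_div]
  apply div_pos _ hns
  rw [hc]
  simp only [sub_re, sub_im]
  unfold dt at h1 hq
  nlinarith

/-- angle sign -/
theorem th_pos {z a b : ℂ} (h : 0 < dt z a b) : 0 < th z a b ∧ th z a b < Real.pi := by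
  have ha : a - z ≠ 0 := by
    intro e
    unfold dt at h
    have h1 : a.re - z.re = 0 := by have := congrArg Complex.re e; simpa using this
    have h2 : a.im - z.im = 0 := by have := congrArg Complex.im e; simpa using this
    rw [h1, h2] at h
    simp at h
  have hns : 0 < normSq (a - z) := Complex.normSq_pos.mpr ha
  have him : 0 < ((b - z) / (a - z)).im := by rw [im_div_dt]; positivity
  unfold th
  constructor
  · rcases lt_or_eq_of_le (Complex.arg_nonneg_iff.mpr him.le) with h | h
    · exact h
    · exfalso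
      have := (Complex.arg_eq_zero_iff.mp h.symm).2
      rw [this] at him
      exact lt_irrefl _ him
  · rw [Complex.arg_lt_pi_iff]
    exact Or.inr him.ne'

theorem th_neg {z a b : ℂ} (h : dt z a b < 0) : -Real.pi < th z a b ∧ th z a b < 0 := by
  have ha : a - z ≠ 0 := by
    intro e
    unfold dt at h
    have h1 : a.re - z.re = 0 := by have := congrArg Complex.re e; simpa using this
    have h2 : a.im - z.im = 0 := by have := congrArg Complex.im e; simpa using this
    rw [h1, h2] at h
    simp at h
  have hns : 0 < normSq (a - z) := Complex.normSq_pos.mpr ha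
  have him : ((b - z) / (a - z)).im < 0 := by
    rw [im_div_dt]
    exact div_neg_of_neg_of_pos h hns
  unfold th
  exact ⟨Complex.neg_pi_lt_arg _, Complex.arg_neg_iff.mpr him⟩

theorem notMem_segment_of_dt {z a b : ℂ} (h : dt z a b ≠ 0) : z ∉ segment ℝ a b := by
  intro hz
  rw [segment_eq_image] at hz
  obtain ⟨t, _, rfl⟩ := hz
  apply h
  unfold dt
  simp
  ring

/-- contribution of a triangle -/
noncomputable def T (q a b c : ℂ) : ℝ := th q a b + th q b c + th q c a

theorem T_int {q a b c : ℂ} (h1 : dt q a b ≠ 0) (h2 : dt q b c ≠ 0) (h3 : dt q c a ≠ 0) :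
    ∃ k : ℤ, T q a b c = k * (2 * Real.pi) := by
  have := ths_closed (z := q) (a := a) (l := [b, c, a]) (by
    simp only [sides, Set.union_empty]
    rintro (h | h | h)
    · exact notMem_segment_of_dt h1 h
    · exact notMem_segment_of_dt h2 h
    · exact notMem_segment_of_dt h3 h) (by simp)
  obtain ⟨k, hk⟩ := this
  refine ⟨k, ?_⟩
  rw [← hk]
  simp [T, ths]
  ring

theorem T_pos {q a b c : ℂ} (h1 : 0 < dt q a b) (h2 : 0 < dt q b c) (h3 : 0 < dt q c a) :
    T q a b c = 2 * Real.pi := by
  obtain ⟨k, hk⟩ := T_int h1.ne' h2.ne' h3.ne'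
  have e1 := th_pos h1
  have e2 := th_pos h2
  have e3 := th_pos h3
  have hpi := Real.pi_pos
  have hT : T q a b c = th q a b + th q b c + th q c a := rfl
  have b1 : (0 : ℝ) < k * (2 * Real.pi) := by rw [← hk, hT]; linarith
  have b2 : (k : ℝ) * (2 * Real.pi) < 2 * (2 * Real.pi) := by rw [← hk, hT]; linarith
  have c1 : (0 : ℝ) < k := by
    by_contra hcon
    push Not at hcon
    nlinarith
  have c2 : (k : ℝ) < 2 := by
    by_contra hcon
    push Not at hcon
    nlinarith
  have d1 : 0 < k := by exact_mod_cast c1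
  have d2 : k < 2 := by exact_mod_cast c2
  have : k = 1 := by omega
  rw [hk, this]; simp

theorem T_neg {q a b c : ℂ} (h1 : dt q a b < 0) (h2 : dt q b c < 0) (h3 : dt q c a < 0) :
    T q a b c = -(2 * Real.pi) := by
  obtain ⟨k, hk⟩ := T_int h1.ne h2.ne h3.ne
  have e1 := th_neg h1
  have e2 := th_neg h2
  have e3 := th_neg h3
  have hpi := Real.pi_pos
  have hT : T q a b c = th q a b + th q b c + th q c a := rfl
  have b1 : (k : ℝ) * (2 * Real.pi) < 0 := by rw [← hk, hT]; linarith
  have b2 : (-2 : ℝ) * (2 * Real.pi) < k * (2 * Real.pi) := by rw [← hk, hT]; linarith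
  have c1 : (k : ℝ) < 0 := by
    by_contra hcon
    push Not at hcon
    nlinarith
  have c2 : (-2 : ℝ) < k := by
    by_contra hcon
    push Not at hcon
    nlinarith
  have d1 : k < 0 := by exact_mod_cast c1
  have d2 : -2 < k := by exact_mod_cast c2
  have : k = -1 := by omega
  rw [hk, this]; simp

theorem T_zero {q a b c : ℂ} (h1 : dt q a b ≠ 0) (h2 : dt q b c ≠ 0) (h3 : dt q c a ≠ 0)
    (hp : ¬ (0 < dt q a b ∧ 0 < dt q b c ∧ 0 < dt q c a))
    (hn : ¬ (dt q a b < 0 ∧ dt q b c < 0 ∧ dt q c a < 0)) : T q a b c = 0 := by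
  obtain ⟨k, hk⟩ := T_int h1 h2 h3
  have hpi := Real.pi_pos
  have hT : T q a b c = th q a b + th q b c + th q c a := rfl
  have bnd : ∀ u v : ℂ, dt q u v ≠ 0 →
      (0 < dt q u v ∧ 0 < th q u v ∧ th q u v < Real.pi) ∨
      (dt q u v < 0 ∧ -Real.pi < th q u v ∧ th q u v < 0) := by
    intro u v h
    rcases lt_or_gt_of_ne h with h | h
    · exact Or.inr ⟨h, th_neg h⟩
    · exact Or.inl ⟨h, th_pos h⟩
  have b : (-1 : ℝ) * (2 * Real.pi) < k * (2 * Real.pi) ∧
      (k : ℝ) * (2 * Real.pi) < 1 * (2 * Real.pi) := by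
    rw [← hk, hT]
    rcases bnd a b h1 with ⟨u1, u2, u3⟩ | ⟨u1, u2, u3⟩ <;>
    rcases bnd b c h2 with ⟨v1, v2, v3⟩ | ⟨v1, v2, v3⟩ <;>
    rcases bnd c a h3 with ⟨w1, w2, w3⟩ | ⟨w1, w2, w3⟩
    · exact absurd ⟨u1, v1, w1⟩ hp
    · constructor <;> linarith
    · constructor <;> linarith
    · constructor <;> linarith
    · constructor <;> linarith
    · constructor <;> linarith
    · constructor <;> linarith
    · exact absurd ⟨u1, v1, w1⟩ hn
  have c1 : (k : ℝ) < 1 := by
    by_contra hcon
    push Not at hcon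
    nlinarith [b.2]
  have c2 : (-1 : ℝ) < k := by
    by_contra hcon
    push Not at hcon
    nlinarith [b.1]
  have d1 : k < 1 := by exact_mod_cast c1
  have d2 : -1 < k := by exact_mod_cast c2
  have : k = 0 := by omega
  rw [hk, this]; simp

end Pool.Agent.Helper12.Obs
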