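import Pool.Agent.Helper12.Obs.Sys

set_option autoImplicit false

namespace Pool.Agent.Helper12.Obs

open Complex Metric

/-- additivity of the angle along a line not containing `q` -/
theorem th_line {q a b : ℂ} (hq : dt q a b ≠ 0) {P m : ℂ} (hP : dt a b P = 0) (hm : dt a b m = 0) :
    th q P m = th q P a + th q a m := by
  have base : ∀ c : ℂ, c ≠ 0 → (∀ X : ℂ, dt a b X = 0 → 0 < ((X - q) / c).re) →
      th q P m = th q P a + th q a m := by
    intro c hc h
    have h1 := ths_half hc P [m] (by
      intro X hX
      simp only [List.mem_cons, List.not_mem_nil, or_false] at hX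
      rcases hX with rfl | rfl
      · exact h _ hP
      · exact h _ hm)
    have h2 := ths_half hc P [a, m] (by
      intro X hX
      simp only [List.mem_cons, List.not_mem_nil, or_false] at hX
      rcases hX with rfl | rfl | rfl
      · exact h _ hP
      · exact h _ (by unfold dt; ring)
      · exact h _ hm)
    simp only [ths, add_zero, List.getLast_cons_cons, List.getLast_singleton] at h1 h2
    rw [h1, h2]
  have hab : a ≠ b := by
    rintro rfl
    apply hq
    unfold dt; ring
  have hns : ∀ c : ℂ, c ≠ 0 → 0 < normSq c := fun c hc => Complex.normSq_pos.mpr hc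
  rcases lt_or_gt_of_ne hq with h | h
  · have hc0 : (⟨-(b.im - a.im), b.re - a.re⟩ : ℂ) ≠ 0 := by
      intro h0
      apply hab
      have h1 := congrArg Complex.re h0
      have h2 := congrArg Complex.im h0
      simp only [zero_re, zero_im] at h1 h2
      exact Complex.ext (by linarith) (by linarith)
    apply base _ hc0
    intro X hX
    rw [Complex.div_re, ← add_div]
    apply div_pos _ (hns _ hc0)
    simp only [sub_re, sub_im]
    unfold dt at h hX
    nlinarith
  · have hc0 : (⟨b.im - a.im, -(b.re - a.re)⟩ : ℂ) ≠ 0 := by
      intro h0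
      apply hab
      have h1 := congrArg Complex.re h0
      have h2 := congrArg Complex.im h0
      simp only [zero_re, zero_im] at h1 h2
      exact Complex.ext (by linarith) (by linarith)
    apply base _ hc0
    intro X hX
    rw [Complex.div_re, ← add_div]
    apply div_pos _ (hns _ hc0)
    simp only [sub_re, sub_im]
    unfold dt at h hX
    nlinarith

theorem dt_of_mem_segment {a b m : ℂ} (h : m ∈ segment ℝ a b) : dt a b m = 0 := by
  rw [segment_eq_image'] at h
  obtain ⟨t, _, rfl⟩ := h
  unfold dt
  simp
  ring

section
variable {V : Type} [DecidableEq V]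

/-- `v` is left of `xy` or an end of `xy` -/
def leftV (s : V → V → V → Bool) (x y v : V) : Bool := s x y v || decide (v = x) || decide (v = y)

/-- the open edge is strictly left of `xy` -/
def leftE (s : V → V → V → Bool) (x y : V) (e : V × V) : Bool :=
  leftV s x y e.1 && leftV s x y e.2 && (s x y e.1 || s x y e.2)

/-- proper crossing of two edges with four different ends -/
def crossB (s : V → V → V → Bool) (e f : V × V) : Bool :=
  !decide (e.1 = f.1) && !decide (e.1 = f.2) && !decide (e.2 = f.1) && !decide (e.2 = f.2) &&
  ((s e.1 e.2 f.1 != s e.1 e.2 f.2) && (s f.1 f.2 e.1 != s f.1 f.2 e.2))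

/-- one step of a cap: the common point of `e` and `f` is strictly left of `xy` -/
def stepL (s : V → V → V → Bool) (x y : V) (e f : V × V) : Bool :=
  (decide (e.2 = f.1) && s x y e.2) || (crossB s e f && (leftE s x y e || leftE s x y f))

/-- the chain `e :: l` ends in `y` and makes only steps on the left of `xy` -/
def capOK (s : V → V → V → Bool) (x y : V) : V × V → List (V × V) → Bool
  | e, [] => decide (e.2 = y)
  | e, f :: l => stepL s x y e f && capOK s x y f l

/-- winding number of the closed polygon given by a cap -/
def capv (σ : V → V → Bool) (x : V) : V × V → List (V × V) → ℤ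
  | e, [] => triS σ x e.1 e.2
  | e, f :: l => triS σ x e.1 f.1 + corr σ e f + capv σ x f l

variable {G : SimpleGraph V} {p : Option V → ℂ} {tt : V → V → ℝ}
  {b : V → V → Bool} {zg : V → V → ℂ}

theorem left_step (hgen : ∀ a b c, a ≠ b → b ≠ c → a ≠ c → dt (p a) (p b) (p c) ≠ 0)
    {x y : V} {e f : V × V} (he : G.Adj e.1 e.2) (hf : G.Adj f.1 f.2)
    (hs : stepL (sv p) x y e f = true) :
    ∃ m : ℂ, m ∈ segment ℝ (p (some e.1)) (p (some e.2)) ∧
      m ∈ segment ℝ (p (some f.1)) (p (some f.2)) ∧ 0 < dt (p (some x)) (p (some y)) m ∧
      ∀ z, GenZ p z → th z (p (some e.1)) m + th z m (p (some f.1))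
        = th z (p (some e.1)) (p (some f.1)) + (corr (sz p z) e f : ℝ) * (2 * Real.pi) := by
  unfold stepL at hs
  rw [Bool.or_eq_true, Bool.and_eq_true, Bool.and_eq_true] at hs
  rcases hs with ⟨h1, h2⟩ | ⟨h1, h2⟩
  · have h1' : e.2 = f.1 := by simpa using h1
    refine ⟨p (some e.2), right_mem_segment ℝ _ _, by rw [h1']; exact left_mem_segment ℝ _ _,
      (sg_true p).mp h2, ?_⟩
    intro z hz
    rw [← h1', th_self (hz.2 e.2)]
    have e0 : corr (sz p z) e f = 0 := by
      unfold corr
      by_cases h : e.1 = f.1
      · rw [if_pos h]
      · rw [if_neg h, ← h1', sz_swap hz he.ne]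
        rcases sz p z e.1 e.2 with _ | _ <;> rcases sz p z f.2 e.2 with _ | _ <;> rfl
    rw [e0]; simp
  · have hmeet : meetB (sv p) e f = true := by
      unfold crossB at h1
      unfold meetB
      simp only [Bool.and_eq_true] at h1
      simp only [Bool.or_eq_true, Bool.and_eq_true]
      exact Or.inr h1.2
    -- redo the crossing to know the parameters
    have hx : ((decide (e.1 = f.1) = false ∧ decide (e.1 = f.2) = false) ∧
        decide (e.2 = f.1) = false) ∧ decide (e.2 = f.2) = false := by
      unfold crossB at h1
      simp only [Bool.and_eq_true, Bool.not_eq_true'] at h1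
      exact h1.1
    obtain ⟨⟨⟨k1, k2⟩, k3⟩, k4⟩ := hx
    have k1' : e.1 ≠ f.1 := by simpa using k1
    have k2' : e.1 ≠ f.2 := by simpa using k2
    have k3' : e.2 ≠ f.1 := by simpa using k3
    have k4' : e.2 ≠ f.2 := by simpa using k4
    obtain ⟨m, m1, m2, m3⟩ := meet_point (G := G) hgen he hf hmeet
    refine ⟨m, m1, m2, ?_, m3⟩
    -- `m` is not an end of `e` or `f`
    have hne : ∀ (g h : V × V), G.Adj g.1 g.2 → G.Adj h.1 h.2 → g.1 ≠ h.1 → g.1 ≠ h.2 →
        g.2 ≠ h.1 → g.2 ≠ h.2 → m ∈ segment ℝ (p (some g.1)) (p (some g.2)) →
        m ∈ segment ℝ (p (some h.1)) (p (some h.2)) → leftE (sv p) x y g = true →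
        0 < dt (p (some x)) (p (some y)) m := by
      intro g h hg hh n1 n2 n3 n4 hm1 hm2 hl
      have e1 : m ≠ p (some g.1) := by
        rintro rfl
        exact hgen (some h.1) (some h.2) (some g.1) (by simpa using hh.ne)
          (by simpa using n2.symm) (by simpa using n1.symm) (dt_of_mem_segment hm2)
      have e2 : m ≠ p (some g.2) := by
        rintro rfl
        exact hgen (some h.1) (some h.2) (some g.2) (by simpa using hh.ne)
          (by simpa using n4.symm) (by simpa using n3.symm) (dt_of_mem_segment hm2)
      rw [segment_eq_image'] at hm1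
      obtain ⟨t, ⟨t0, t1⟩, rfl⟩ := hm1
      have t0' : 0 < t := lt_of_le_of_ne t0 (by rintro rfl; apply e1; simp)
      have t1' : t < 1 := lt_of_le_of_ne t1 (by rintro rfl; apply e2; simp)
      simp only [Complex.real_smul]
      rw [dt_lin3]
      have nn : ∀ v : V, leftV (sv p) x y v = true → 0 ≤ dt (p (some x)) (p (some y)) (p (some v)) := by
        intro v hv
        unfold leftV at hv
        simp only [Bool.or_eq_true, decide_eq_true_eq] at hv
        rcases hv with (hv | rfl) | rfl
        · exact ((sg_true p).mp hv).le
        · rw [dt_self13]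
        · rw [dt_self23]
      unfold leftE at hl
      rw [Bool.and_eq_true, Bool.and_eq_true, Bool.or_eq_true] at hl
      obtain ⟨⟨l1, l2⟩, l3⟩ := hl
      have q1 := nn _ l1
      have q2 := nn _ l2
      rcases l3 with l3 | l3
      · have := (sg_true p).mp l3
        have := mul_pos (by linarith : 0 < 1 - t) this
        have := mul_nonneg t0 q2
        linarith
      · have := (sg_true p).mp l3
        have := mul_pos t0' this
        have := mul_nonneg (by linarith : 0 ≤ 1 - t) q1
        linarith
    rw [Bool.or_eq_true] at h2
    rcases h2 with h2 | h2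
    · exact hne e f he hf k1' k2' k3' k4' m1 m2 h2
    · exact hne f e hf he k1'.symm k3'.symm k2'.symm k4'.symm m2 m1 h2

theorem capChain_aux (hgen : ∀ a b c, a ≠ b → b ≠ c → a ≠ c → dt (p a) (p b) (p c) ≠ 0)
    (x y : V) : ∀ (e : V × V) (l : List (V × V)), G.Adj e.1 e.2 → (∀ f ∈ l, G.Adj f.1 f.2) →
    capOK (sv p) x y e l = true → ∀ P : ℂ, P ∈ segment ℝ (p (some e.1)) (p (some e.2)) →
    ∃ L : List ℂ, (l ≠ [] → L ≠ []) ∧ (∀ m ∈ L, 0 < dt (p (some x)) (p (some y)) m) ∧
      sides (P :: (L ++ [p (some y)])) ⊆ drawing G (p ∘ some) ∧
      ∀ z, GenZ p z → ths z (P :: (L ++ [p (some y)])) + th z (p (some x)) (p (some e.1))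
        + th z (p (some y)) (p (some x)) = th z P (p (some e.1)) +
          (capv (sz p z) x e l : ℝ) * (2 * Real.pi)
  | e, [], he, _, hok, P, hP => by
    have hy : e.2 = y := by
      unfold capOK at hok
      simpa using hok
    refine ⟨[], by simp, by simp, ?_, ?_⟩
    · simp only [List.nil_append, sides, Set.union_empty]
      rw [← hy]
      exact ((convex_segment _ _).segment_subset hP (right_mem_segment ℝ _ _)).trans (edge_sub he)
    · intro z hz
      simp only [List.nil_append, ths, add_zero, capv]
      have h1 := th_line (hz.1 _ _ he.ne) (dt_of_mem_segment hP)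
        (dt_of_mem_segment (right_mem_segment ℝ (p (some e.1)) (p (some e.2))))
      have h2 := T_triS hz x e.1 e.2
      unfold T at h2
      rw [← h2, ← hy, h1]
      ring
  | e, f :: l, he, hl, hok, P, hP => by
    unfold capOK at hok
    rw [Bool.and_eq_true] at hok
    have hf : G.Adj f.1 f.2 := hl f (by simp)
    obtain ⟨m, m1, m2, m3, m4⟩ := left_step (G := G) hgen he hf hok.1
    obtain ⟨L, L1, L2, L3, L4⟩ := capChain_aux hgen x y f l hf
      (fun g hg => hl g (List.mem_cons_of_mem _ hg)) hok.2 m m2
    refine ⟨m :: L, by simp, ?_, ?_, ?_⟩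
    · intro k hk
      rcases List.mem_cons.mp hk with rfl | hk
      · exact m3
      · exact L2 k hk
    · simp only [List.cons_append, sides_cons_cons]
      apply Set.union_subset
      · exact ((convex_segment _ _).segment_subset hP m1).trans (edge_sub he)
      · exact L3
    · intro z hz
      simp only [List.cons_append, ths_cons_cons, capv]
      push_cast
      have h1 := th_line (hz.1 _ _ he.ne) (dt_of_mem_segment hP) (dt_of_mem_segment m1)
      have h2 := m4 z hz
      have h3 := L4 z hz
      have h4 := T_triS hz x e.1 f.1
      have h5 := th_antiZ' hz x f.1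
      unfold T at h4
      linarith

/-- caps given by arbitrary chains of edges -/
theorem capChain (R : Rep G p tt b zg) {x y : V} (e : V × V) (l : List (V × V))
    (hx : e.1 = x) (hl : l ≠ []) (he : G.Adj e.1 e.2) (hl' : ∀ f ∈ l, G.Adj f.1 f.2)
    (hok : capOK (sv p) x y e l = true) :
    GCap G p x y (capv (sz p (p none)) x e l = -1) := by
  obtain ⟨L, L1, L2, L3, L4⟩ := capChain_aux (G := G) R.gen x y e l he hl' hok (p (some e.1))
    (left_mem_segment ℝ _ _)
  subst hx
  refine ⟨L, L1 hl, L2, L3, ?_⟩
  intro h
  have hz := genZ_none R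
  have h1 := L4 _ hz
  rw [th_self (hz.2 _)] at h1
  have h2 : ths (p none) (p (some e.1) :: (L ++ [p (some y), p (some e.1)]))
      = ths (p none) (p (some e.1) :: (L ++ [p (some y)])) + th (p none) (p (some y)) (p (some e.1)) := by
    rw [ths_append]; simp [ths]
  rw [h2] at h
  have hpi := Real.pi_pos
  have h3 : (capv (sz p (p none)) e.1 e l : ℝ) * (2 * Real.pi) = (-1 : ℝ) * (2 * Real.pi) := by
    linarith
  have h4 := mul_right_cancel₀ (by positivity : (2 * Real.pi : ℝ) ≠ 0) h3
  exact_mod_cast h4

end

/-- Rules which only involve the signs `s` and the flags `b`. -/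
structure SB {V : Type} [DecidableEq V] (G : SimpleGraph V)
    (s : Option V → Option V → Option V → Bool) (b : V → V → Bool) : Prop where
  rot : ∀ a b c, s b c a = s a b c
  swap : ∀ a b c, a ≠ b → b ≠ c → a ≠ c → s b a c = !(s a b c)
  gp : ∀ a b c d e, a ≠ b → a ≠ c → a ≠ d → a ≠ e → b ≠ c → b ≠ d → b ≠ e → c ≠ d → c ≠ e →
    d ≠ e → gpB (s a b c) (s a d e) (s a b d) (s a c e) (s a b e) (s a c d) = true
  bsymm : ∀ x y, b x y = b y x
  /-- two caps -/
  cap : ∀ x y, x ≠ y → ¬ G.Adj x y → ∀ (e : V × V) (l : List (V × V)) (f : V × V)
    (r : List (V × V)), e.1 = x → l ≠ [] → G.Adj e.1 e.2 → (∀ g ∈ l, G.Adj g.1 g.2) →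
    capOK (fun u v w => s (some u) (some v) (some w)) x y e l = true →
    f.1 = y → r ≠ [] → G.Adj f.1 f.2 → (∀ g ∈ r, G.Adj g.1 g.2) →
    capOK (fun u v w => s (some u) (some v) (some w)) y x f r = true →
    b x y = true ∧
    (s (some x) (some y) none = true → capv (fun u v => s none (some u) (some v)) x e l = -1) ∧
    (s (some x) (some y) none = false → capv (fun u v => s none (some u) (some v)) y f r = -1)
  /-- edge triangles: if `q` is inside and `xy` is blocked by the second obstacle then `xy` meets
  the triangle -/
  triA : ∀ x y, x ≠ y → ¬ G.Adj x y → b x y = true → ∀ u v w, G.Adj u v → G.Adj v w →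
    G.Adj w u → s none (some u) (some v) = true → s none (some v) (some w) = true →
    s none (some w) (some u) = true →
    (s (some x) (some u) (some v) = true ∨ s (some y) (some u) (some v) = true) ∧
    (s (some x) (some y) (some u) = true ∨ s (some x) (some y) (some v) = true ∨
      s (some x) (some y) (some w) = true)
  /-- edge triangles: if `x` and `y` are in the closed triangle then the second obstacle is inside
  and blocks `xy` -/
  triB : ∀ x y, x ≠ y → ¬ G.Adj x y → ∀ u v w, G.Adj u v → G.Adj v w → G.Adj w u →
    s (some x) (some u) (some v) = true → s (some x) (some v) (some w) = true →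
    s (some x) (some w) (some u) = true →
    ((s (some y) (some u) (some v) = true ∧ s (some y) (some v) (some w) = true ∧
      s (some y) (some w) (some u) = true) ∨ y = u) →
    b x y = true ∧ s none (some u) (some v) = true ∧ s none (some v) (some w) = true ∧
      s none (some w) (some u) = true

section
variable {V : Type} [DecidableEq V] {G : SimpleGraph V} {p : Option V → ℂ} {tt : V → V → ℝ}
  {b : V → V → Bool} {zg : V → V → ℂ}

/-- winding numbers of edge triangles -/
theorem tri_rule (R : Rep G p tt b zg) {x y : V} (hxy : x ≠ y) (hna : ¬ G.Adj x y) {u v w : V}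
    (huv : G.Adj u v) (hvw : G.Adj v w) (hwu : G.Adj w u) :
    tri3 (sz p (zg x y) u v) (sz p (zg x y) v w) (sz p (zg x y) w u) =
      if b x y then tri3 (sz p (p none) u v) (sz p (p none) v w) (sz p (p none) w u) else 0 := by
  have h := chain_rule R hxy hna (u, v) [(v, w), (w, u)] huv (by
    intro f hf
    simp only [List.mem_cons, List.not_mem_nil, or_false] at hf
    rcases hf with rfl | rfl
    · exact hvw
    · exact hwu) (by simp [chOK, meetB])
  have key : ∀ z, GenZ p z → chv (sz p z) (u, v) (u, v) [(v, w), (w, u)]
      = tri3 (sz p z u v) (sz p z v w) (sz p z w u) := by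
    intro z hz
    simp only [chv, triS, corr, if_true, if_neg huv.ne, if_neg hvw.ne, if_neg hwu.ne]
    rw [sz_swap hz huv.ne, sz_swap hz hvw.ne, sz_swap hz hwu.ne]
    rcases sz p z u v with _ | _ <;> rcases sz p z v w with _ | _ <;>
      rcases sz p z w u with _ | _ <;> rfl
  rw [key _ (genZ_z R hxy hna), key _ (genZ_none R)] at h
  exact h

theorem sb_of_rep (R : Rep G p tt b zg) : SB G (sg p) b := by
  have S := sys_of_rep R
  have tri3_one : ∀ {A B C : Bool}, tri3 A B C = 1 → A = true ∧ B = true ∧ C = true := by
    intro A B C h
    revert h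
    rcases A <;> rcases B <;> rcases C <;> simp [tri3]
  refine { rot := S.rot, swap := S.swap, gp := S.gp, bsymm := S.bsymm, cap := ?_, triA := ?_,
           triB := ?_ }
  · intro x y hxy hna e l f r h1 h2 h3 h4 h5 g1 g2 g3 g4 g5
    exact cap_rule R hxy hna (capChain R e l h1 h2 h3 h4 h5) (capChain R f r g1 g2 g3 g4 g5)
  · intro x y hxy hna hb u v w huv hvw hwu h1 h2 h3
    have h := tri_rule R hxy hna huv hvw hwu
    rw [hb] at h
    have e1 : tri3 (sz p (p none) u v) (sz p (p none) v w) (sz p (p none) w u) = 1 := by
      have e2 : sz p (p none) u v = true := h1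
      have e3 : sz p (p none) v w = true := h2
      have e4 : sz p (p none) w u = true := h3
      rw [e2, e3, e4]; rfl
    rw [if_pos rfl, e1] at h
    obtain ⟨z1, z2, z3⟩ := tri3_one h
    unfold sz at z1 z2 z3
    rw [decide_eq_true_eq] at z1 z2 z3
    constructor
    · by_contra hcon
      rw [not_or, Bool.not_eq_true, Bool.not_eq_true, sg_false, sg_false] at hcon
      -- then `dt z u v ≤ 0`
      have hz := R.zpos x y hxy hna (some v) (some u)
      unfold zz at hz
      rw [dt_lin1] at hz
      have t0 := R.tpos x y hxy hna
      have t1 := R.tlt x y hxy hna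
      have f1 : dt (p (some x)) (p (some v)) (p (some u)) = - dt (p (some x)) (p (some u)) (p (some v)) :=
        dt_swap' _ _ _
      have f2 : dt (p (some y)) (p (some v)) (p (some u)) = - dt (p (some y)) (p (some u)) (p (some v)) :=
        dt_swap' _ _ _
      have huv' : (some u : Option V) ≠ some v := by simpa using huv.ne
      by_cases hxu : x = u ∨ x = v
      · have hyu : y ≠ u ∧ y ≠ v := by
          constructor
          · rintro rfl
            rcases hxu with rfl | rfl
            · exact hxy rfl
            · exact hna huv.symm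
          · rintro rfl
            rcases hxu with rfl | rfl
            · exact hna huv
            · exact hxy rfl
        have hne := R.gen (some y) (some u) (some v) (by simpa using hyu.1) huv' (by simpa using hyu.2)
        have h0 : dt (p (some x)) (p (some u)) (p (some v)) = 0 := by
          rcases hxu with rfl | rfl
          · exact dt_self12 _ _
          · exact dt_self13 _ _
        have h5 : dt (p (some y)) (p (some u)) (p (some v)) < 0 := lt_of_le_of_ne hcon.2 hne
        have := hz (by rw [f1, f2, h0]; nlinarith)
        have f3 : dt (zg x y) (p (some v)) (p (some u)) = - dt (zg x y) (p (some u)) (p (some v)) :=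
          dt_swap' _ _ _
        linarith
      · rw [not_or] at hxu
        have hne := R.gen (some x) (some u) (some v) (by simpa using hxu.1) huv' (by simpa using hxu.2)
        have h5 : dt (p (some x)) (p (some u)) (p (some v)) < 0 := lt_of_le_of_ne hcon.1 hne
        have := hz (by rw [f1, f2]; nlinarith [hcon.2, mul_pos (by linarith : 0 < 1 - tt x y) (neg_pos.mpr h5)])
        have f3 : dt (zg x y) (p (some v)) (p (some u)) = - dt (zg x y) (p (some u)) (p (some v)) :=
          dt_swap' _ _ _
        linarith
    · by_contra hcon
      rw [not_or, not_or, Bool.not_eq_true, Bool.not_eq_true, Bool.not_eq_true, sg_false, sg_false,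
        sg_false] at hcon
      -- `u, v, w` are on the right of `xy` (or ends): use signs seen from z
      -- σ x y u v, with z on the line xy: contradiction through Plücker relation
      have t0 := R.tpos x y hxy hna
      have t1 := R.tlt x y hxy hna
      set X := p (some x)
      set Y := p (some y)
      set A := p (some u)
      set B := p (some v)
      set C := p (some w)
      set Z := zz p tt x y with hZ
      have nonneg : ∀ a c : V, a ≠ c → 0 < dt (zg x y) (p (some a)) (p (some c)) →
          0 ≤ dt Z (p (some a)) (p (some c)) := by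
        intro a c hac h
        by_contra hneg
        push Not at hneg
        have h7 := R.zpos x y hxy hna (some c) (some a) (by
          rw [dt_swap']; rw [← hZ]; linarith)
        rw [dt_swap'] at h7
        linarith
      have y1 := nonneg u v huv.ne z1
      have y2 := nonneg v w hvw.ne z2
      have y3 := nonneg w u hwu.ne z3
      have hZXY : dt X Y Z = 0 := by
        rw [hZ]; unfold zz
        rw [dt_lin3, dt_self13, dt_self23]; ring
      -- barycentric identity
      have hbary : dt Z A B * dt X Y C + dt Z B C * dt X Y A + dt Z C A * dt X Y B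
          = (dt Z A B + dt Z B C + dt Z C A) * dt X Y Z := by
        unfold dt; ring
      rw [hZXY, mul_zero] at hbary
      have m1 := mul_nonneg y1 (neg_nonneg.mpr hcon.2.2)
      have m2 := mul_nonneg y2 (neg_nonneg.mpr hcon.1)
      have m3 := mul_nonneg y3 (neg_nonneg.mpr hcon.2.1)
      have n1 : dt Z A B * dt X Y C = 0 := by nlinarith
      have n2 : dt Z B C * dt X Y A = 0 := by nlinarith
      have n3 : dt Z C A * dt X Y B = 0 := by nlinarith
      -- the blocking point is not on an edge of the triangle
      have hzm := R.zmem x y hxy hna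
      have hZne : ∀ a c : V, G.Adj a c → Z ∉ segment ℝ (p (some a)) (p (some c)) := by
        intro a c hac hcon'
        exact hzm (edge_sub hac hcon')
      -- at most one of `u v w` is in `{x, y}` for nonadjacent `x y`
      have hin : ∀ a : V, dt X Y (p (some a)) = 0 → a = x ∨ a = y := by
        intro a ha
        by_contra hn
        rw [not_or] at hn
        exact R.gen (some x) (some y) (some a) (by simpa using hxy) (by simpa using Ne.symm hn.2)
          (by simpa using Ne.symm hn.1) ha
      have two : ∀ a c : V, G.Adj a c → ¬ (dt X Y (p (some a)) = 0 ∧ dt X Y (p (some c)) = 0) := by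
        rintro a c hac ⟨h8, h9⟩
        rcases hin a h8 with rfl | rfl <;> rcases hin c h9 with rfl | rfl
        · exact hac.ne rfl
        · exact hna hac
        · exact hna hac.symm
        · exact hac.ne rfl
      -- collinear points with nonnegative signs: z is a vertex or on an edge
      have fin : ∀ a c d : V, G.Adj a c → G.Adj c d → G.Adj d a →
          dt Z (p (some c)) (p (some d)) = 0 → dt Z (p (some d)) (p (some a)) = 0 →
          0 ≤ dt Z (p (some a)) (p (some c)) → False := by
        intro a c d hac hcd hda e1 e2 _
        -- Z on the lines cd and da, hence Z = d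
        have hne := R.gen (some a) (some c) (some d) (by simpa using hac.ne) (by simpa using hcd.ne)
          (by simpa using hda.ne.symm)
        have g1 : (Z.re - (p (some d)).re) * dt (p (some a)) (p (some c)) (p (some d)) = 0 := by
          have : (Z.re - (p (some d)).re) * dt (p (some a)) (p (some c)) (p (some d))
              = ((p (some a)).re - (p (some d)).re) * dt Z (p (some c)) (p (some d))
                + ((p (some c)).re - (p (some d)).re) * dt Z (p (some d)) (p (some a)) := by
            unfold dt; ring
          rw [this, e1, e2]; ring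
        have g2 : (Z.im - (p (some d)).im) * dt (p (some a)) (p (some c)) (p (some d)) = 0 := by
          have : (Z.im - (p (some d)).im) * dt (p (some a)) (p (some c)) (p (some d))
              = ((p (some a)).im - (p (some d)).im) * dt Z (p (some c)) (p (some d))
                + ((p (some c)).im - (p (some d)).im) * dt Z (p (some d)) (p (some a)) := by
            unfold dt; ring
          rw [this, e1, e2]; ring
        have g3 : Z = p (some d) := by
          apply Complex.ext
          · rcases mul_eq_zero.mp g1 with h | h
            · linarith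
            · exact absurd h hne
          · rcases mul_eq_zero.mp g2 with h | h
            · linarith
            · exact absurd h hne
        exact hZne d a hda (by rw [g3]; exact left_mem_segment ℝ _ _)
      rcases mul_eq_zero.mp n1 with a1 | a1
      · rcases mul_eq_zero.mp n2 with a2 | a2
        · exact fin w u v hwu huv hvw a1 a2 y3
        · rcases mul_eq_zero.mp n3 with a3 | a3
          · exact fin v w u hvw hwu huv a3 a1 y2
          · exact two u v huv ⟨a2, a3⟩
      · rcases mul_eq_zero.mp n2 with a2 | a2
        · rcases mul_eq_zero.mp n3 with a3 | a3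
          · exact fin u v w huv hvw hwu a2 a3 y1
          · exact two v w hvw ⟨a3, a1⟩
        · exact two w u hwu ⟨a1, a2⟩
  · intro x y hxy hna u v w huv hvw hwu h1 h2 h3 h4
    have h := tri_rule R hxy hna huv hvw hwu
    have t0 := R.tpos x y hxy hna
    have t1 := R.tlt x y hxy hna
    rw [sg_true] at h1 h2 h3
    have pos : ∀ a c : V, 0 < dt (p (some x)) (p (some a)) (p (some c)) →
        0 ≤ dt (p (some y)) (p (some a)) (p (some c)) → sz p (zg x y) a c = true := by
      intro a c g1 g2
      unfold sz
      rw [decide_eq_true_eq]
      apply R.zpos x y hxy hna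
      unfold zz
      rw [dt_lin1]
      have := mul_pos (by linarith : 0 < 1 - tt x y) g1
      have := mul_nonneg t0.le g2
      linarith
    have hz : sz p (zg x y) u v = true ∧ sz p (zg x y) v w = true ∧ sz p (zg x y) w u = true := by
      rcases h4 with ⟨k1, k2, k3⟩ | rfl
      · rw [sg_true] at k1 k2 k3
        exact ⟨pos _ _ h1 k1.le, pos _ _ h2 k2.le, pos _ _ h3 k3.le⟩
      · refine ⟨pos _ _ h1 (by rw [dt_self12]), pos _ _ h2 ?_, pos _ _ h3 (by rw [dt_self13])⟩
        -- y is a vertex: the triangle is positively oriented
        have e1 := dt_four (p (some y)) (p (some v)) (p (some w)) (p (some x))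
        have e2 : dt (p (some y)) (p (some x)) (p (some w)) = dt (p (some x)) (p (some w)) (p (some y)) := by
          unfold dt; ring
        have e3 : dt (p (some y)) (p (some v)) (p (some x)) = dt (p (some x)) (p (some y)) (p (some v)) := by
          unfold dt; ring
        rw [e1, e2, e3]
        linarith
    rw [hz.1, hz.2.1, hz.2.2] at h
    rcases hb : b x y with _ | _
    · rw [hb] at h
      simp [tri3] at h
    · rw [hb, if_pos rfl] at h
      have h5 : tri3 (sz p (p none) u v) (sz p (p none) v w) (sz p (p none) w u) = 1 := by
        rw [← h]; rfl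
      obtain ⟨g1, g2, g3⟩ := tri3_one h5
      exact ⟨rfl, g1, g2, g3⟩

end

end Pool.Agent.Helper12.Obs
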