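import Pool.Agent.Helper12.Obs.Rules

set_option autoImplicit false

namespace Pool.Agent.Helper12.Obs

open Complex Metric

/-- winding number of a triangle from the three signs -/
def tri3 (a b c : Bool) : ℤ :=
  if a && b && c then 1 else if !a && !b && !c then -1 else 0

theorem T_tri3 {q a b c : ℂ} (h1 : dt q a b ≠ 0) (h2 : dt q b c ≠ 0) (h3 : dt q c a ≠ 0) :
    T q a b c = (tri3 (decide (0 < dt q a b)) (decide (0 < dt q b c)) (decide (0 < dt q c a)) : ℝ)
      * (2 * Real.pi) := by
  by_cases hp : 0 < dt q a b ∧ 0 < dt q b c ∧ 0 < dt q c a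
  · rw [T_pos hp.1 hp.2.1 hp.2.2]
    simp [tri3, hp.1, hp.2.1, hp.2.2]
  by_cases hn : dt q a b < 0 ∧ dt q b c < 0 ∧ dt q c a < 0
  · rw [T_neg hn.1 hn.2.1 hn.2.2]
    simp [tri3, not_lt.mpr hn.1.le, not_lt.mpr hn.2.1.le, not_lt.mpr hn.2.2.le]
  rw [T_zero h1 h2 h3 hp hn]
  have e : tri3 (decide (0 < dt q a b)) (decide (0 < dt q b c)) (decide (0 < dt q c a)) = 0 := by
    unfold tri3
    rw [if_neg, if_neg]
    · simp only [Bool.and_eq_true, Bool.not_eq_true', decide_eq_false_iff_not, not_lt]
      rintro ⟨⟨g1, g2⟩, g3⟩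
      exact hn ⟨lt_of_le_of_ne g1 h1, lt_of_le_of_ne g2 h2, lt_of_le_of_ne g3 h3⟩
    · simp only [Bool.and_eq_true, decide_eq_true_eq]
      rintro ⟨⟨g1, g2⟩, g3⟩
      exact hp ⟨g1, g2, g3⟩
  rw [e]; simp

section caps
variable {V : Type} {G : SimpleGraph V} {p : Option V → ℂ} {tt : V → V → ℝ} {b : V → V → Bool} {zg : V → V → ℂ}

/-- sign with the point `none` -/
noncomputable def s0 (p : Option V → ℂ) (u v : V) : Bool := sg p none (some u) (some v)

theorem s0_eq (u v : V) : s0 p u v = decide (0 < dt (p none) (p (some u)) (p (some v))) := rfl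

theorem dt_ne (R : Rep G p tt b zg) {u v : V} (h : u ≠ v) :
    dt (p none) (p (some u)) (p (some v)) ≠ 0 :=
  R.gen none (some u) (some v) (by simp) (by simpa using h) (by simp)

theorem dt_ne3 (R : Rep G p tt b zg) {u v w : V} (h : u ≠ v) (h' : v ≠ w) (h'' : u ≠ w) :
    dt (p (some u)) (p (some v)) (p (some w)) ≠ 0 :=
  R.gen (some u) (some v) (some w) (by simpa using h) (by simpa using h') (by simpa using h'')

theorem th_anti (R : Rep G p tt b zg) {u v : V} (h : u ≠ v) :
    th (p none) (p (some v)) (p (some u)) = - th (p none) (p (some u)) (p (some v)) :=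
  th_swap (notMem_segment_of_dt (dt_ne R h))

theorem th_self {z a : ℂ} (_h : a ≠ z) : th z a a = 0 := by
  unfold th
  rw [div_self (sub_ne_zero.mpr _h)]
  simp

theorem pne (R : Rep G p tt b zg) (u : V) : p (some u) ≠ p none := by
  intro e
  apply R.re_ne (some u) none (by simp)
  rw [e]

/-- winding number of the point `none` with respect to the triangle `uvw` -/
noncomputable def tri (p : Option V → ℂ) (u v w : V) : ℤ := tri3 (s0 p u v) (s0 p v w) (s0 p w u)

theorem s0_self (u : V) : s0 p u u = false := by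
  rw [s0_eq]
  have : dt (p none) (p (some u)) (p (some u)) = 0 := by unfold dt; ring
  rw [this]; simp

theorem s0_swap (R : Rep G p tt b zg) {u v : V} (h : u ≠ v) : s0 p v u = !(s0 p u v) := by
  have h1 := dt_ne R h
  have h2 : dt (p none) (p (some v)) (p (some u)) = - dt (p none) (p (some u)) (p (some v)) :=
    dt_swap' _ _ _
  rw [s0_eq, s0_eq, h2]
  rcases lt_or_gt_of_ne h1 with h | h
  · simp [h, not_lt.mpr h.le]
  · simp [h, not_lt.mpr h.le]

theorem T_eq_tri (R : Rep G p tt b zg) {u v w : V} (h : v ≠ w) :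
    T (p none) (p (some u)) (p (some v)) (p (some w)) = (tri p u v w : ℝ) * (2 * Real.pi) := by
  by_cases huv : u = v
  · subst huv
    have e : tri p u u w = 0 := by
      unfold tri
      rw [s0_self, s0_swap R h]
      rcases s0 p u w with _ | _ <;> rfl
    rw [e]
    unfold T
    rw [th_self (pne R u), th_anti R h]
    simp
  by_cases huw : u = w
  · subst huw
    have e : tri p u v u = 0 := by
      unfold tri
      rw [s0_self, s0_swap R h]
      rcases s0 p v u with _ | _ <;> rfl
    rw [e]
    unfold T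
    rw [th_self (pne R u), th_anti R h]
    simp
  unfold tri
  rw [T_tri3 (dt_ne R huv) (dt_ne R h) (dt_ne R (Ne.symm huw))]
  rfl

/-- sum over a fan of triangles with apex `x` -/
noncomputable def fan (p : Option V → ℂ) (x : V) : List V → ℤ
  | [] => 0
  | [_] => 0
  | a :: c :: l => tri p x a c + fan p x (c :: l)

/-- consecutive vertices are adjacent, ending at `y` -/
def Wk (G : SimpleGraph V) : V → List V → V → Prop
  | x, [], y => G.Adj x y
  | x, a :: l, y => G.Adj x a ∧ Wk G a l y

theorem fan_ths (R : Rep G p tt b zg) (x y : V) (hxy : x ≠ y) : ∀ (a : V) (l : List V),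
    Wk G a l y →
    th (p none) (p (some x)) (p (some a)) +
      ths (p none) (p (some a) :: ((l.map (fun v => p (some v))) ++ [p (some y), p (some x)]))
    = (fan p x (a :: (l ++ [y])) : ℝ) * (2 * Real.pi)
  | a, [], h => by
    have h' : G.Adj a y := h
    simp only [List.map_nil, List.nil_append, ths, fan, add_zero]
    rw [← T_eq_tri R h'.ne]
    unfold T
    ring
  | a, c :: l, h => by
    obtain ⟨h1, h2⟩ := h
    have ih := fan_ths R x y hxy c l h2
    simp only [List.map_cons, List.cons_append, ths_cons_cons, fan]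
    push_cast
    rw [add_mul, ← T_eq_tri R h1.ne]
    have e : th (p none) (p (some x)) (p (some c)) + th (p none) (p (some c)) (p (some x)) = 0 := by
      by_cases hxc : x = c
      · subst hxc; rw [th_self (pne R x)]; ring
      · rw [th_anti R hxc]; ring
    rw [← ih]
    unfold T
    linarith

theorem sides_walk (x y : V) : ∀ (a : V) (l : List V), Wk G a l y →
    sides (p (some a) :: ((l.map (fun v => p (some v))) ++ [p (some y)])) ⊆ drawing G (p ∘ some)
  | a, [], h => by
    have h' : G.Adj a y := h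
    simp only [List.map_nil, List.nil_append, sides, Set.union_empty]
    intro z hz
    exact Or.inl (Set.mem_iUnion.mpr ⟨⟨(a, y), h'⟩, hz⟩)
  | a, c :: l, h => by
    obtain ⟨h1, h2⟩ := h
    simp only [List.map_cons, List.cons_append, sides_cons_cons]
    apply Set.union_subset
    · intro z hz
      exact Or.inl (Set.mem_iUnion.mpr ⟨⟨(a, c), h1⟩, hz⟩)
    · exact sides_walk x y c l h2

/-- caps given by vertex paths of any length -/
theorem capPath (R : Rep G p tt b zg) {x y : V} (hxy : x ≠ y) {l : List V} (hl : l ≠ [])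
    (hw : Wk G x l y) (hs : ∀ a ∈ l, sg p (some x) (some y) (some a) = true) :
    GCap G p x y (fan p x (l ++ [y]) = -1) := by
  refine ⟨l.map (fun v => p (some v)), by simpa using hl, ?_, sides_walk x y x l hw, ?_⟩
  · intro m hm
    obtain ⟨a, ha, rfl⟩ := List.mem_map.mp hm
    exact (sg_true p).mp (hs a ha)
  · intro h
    rcases l with _ | ⟨a, l⟩
    · exact absurd rfl hl
    obtain ⟨h1, h2⟩ := hw
    simp only [List.map_cons, List.cons_append, ths_cons_cons] at h
    have h3 := fan_ths R x y hxy a l h2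
    rw [h] at h3
    have hpi := Real.pi_pos
    have h4 : ((fan p x (a :: (l ++ [y])) : ℤ) : ℝ) = -1 := by
      have h5 : (-1 : ℝ) * (2 * Real.pi) = (fan p x (a :: (l ++ [y])) : ℝ) * (2 * Real.pi) := by
        rw [← h3]; ring
      exact (mul_right_cancel₀ (by positivity) h5).symm
    simp only [List.cons_append]
    exact_mod_cast h4

/-- common neighbour -/
theorem cap1 (R : Rep G p tt b zg) {x y a : V} (hxy : x ≠ y) (h1 : G.Adj x a) (h2 : G.Adj a y)
    (hs : sg p (some x) (some y) (some a) = true) :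
    GCap G p x y (s0 p x a = false ∧ s0 p a y = false ∧ s0 p y x = false) := by
  refine (capPath R hxy (l := [a]) (by simp) ⟨h1, h2⟩ (by simpa using hs)).mono ?_
  intro h
  simp only [List.cons_append, List.nil_append, fan, add_zero, tri, tri3] at h
  revert h
  rcases s0 p x a with _ | _ <;> rcases s0 p a y with _ | _ <;> rcases s0 p y x with _ | _ <;> simp

end caps

/-- crossing point of two diagonals of a convex quadrilateral `x y a b` -/
theorem exists_cross {x y a b : ℂ} (h1 : 0 < dt x y a) (h2 : 0 < dt x y b) (h3 : 0 < dt x a b)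
    (h4 : 0 < dt a b y) : ∃ (m : ℂ) (s r : ℝ), 0 < s ∧ s < 1 ∧ 0 < r ∧ r < 1 ∧
      m = x + (s : ℂ) * (a - x) ∧ m = y + (r : ℂ) * (b - y) := by
  -- α = dt y b x > 0, β = dt y b a < 0
  have eα : dt y b x = dt x y b := by unfold dt; ring
  have eβ : dt y b a = - dt a b y := by unfold dt; ring
  have eγ : dt x a y = - dt x y a := by unfold dt; ring
  have hN : 0 < dt x y b + dt a b y := by linarith
  have hM : 0 < dt x y a + dt x a b := by linarith
  have hNM : dt x y b + dt a b y = dt x y a + dt x a b := by unfold dt; ring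
  refine ⟨x + ((dt x y b / (dt x y b + dt a b y) : ℝ) : ℂ) * (a - x),
    dt x y b / (dt x y b + dt a b y), dt x y a / (dt x y a + dt x a b), div_pos h2 hN,
    (div_lt_one hN).mpr (by linarith), div_pos h1 hM, (div_lt_one hM).mpr (by linarith), rfl, ?_⟩
  rw [← hNM]
  have hN' : ((dt x y b + dt a b y : ℝ) : ℂ) ≠ 0 := by exact_mod_cast hN.ne'
  have key : ((dt x y b + dt a b y : ℝ) : ℂ) * x + ((dt x y b : ℝ) : ℂ) * (a - x)
      = ((dt x y b + dt a b y : ℝ) : ℂ) * y + ((dt x y a : ℝ) : ℂ) * (b - y) := by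
    apply Complex.ext
    · simp only [add_re, mul_re, ofReal_re, ofReal_im, zero_mul, sub_zero, sub_re]
      unfold dt; ring
    · simp only [add_im, mul_im, ofReal_re, ofReal_im, zero_mul, add_zero, sub_im]
      unfold dt; ring
  have e1 : x + ((dt x y b / (dt x y b + dt a b y) : ℝ) : ℂ) * (a - x)
      = (((dt x y b + dt a b y : ℝ) : ℂ) * x + ((dt x y b : ℝ) : ℂ) * (a - x))
        / ((dt x y b + dt a b y : ℝ) : ℂ) := by
    rw [ofReal_div]; field_simp
  have e2 : y + ((dt x y a / (dt x y b + dt a b y) : ℝ) : ℂ) * (b - y)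
      = (((dt x y b + dt a b y : ℝ) : ℂ) * y + ((dt x y a : ℝ) : ℂ) * (b - y))
        / ((dt x y b + dt a b y : ℝ) : ℂ) := by
    rw [ofReal_div]; field_simp
  rw [e1, e2, key]

theorem dt_lin3 (x y u v : ℂ) (s : ℝ) :
    dt x y (u + (s : ℂ) * (v - u)) = (1 - s) * dt x y u + s * dt x y v := by
  unfold dt
  simp only [add_re, add_im, mul_re, mul_im, ofReal_re, ofReal_im, sub_re, sub_im]
  ring

theorem dt_lin2 (x y u v : ℂ) (s : ℝ) :
    dt x (u + (s : ℂ) * (v - u)) y = (1 - s) * dt x u y + s * dt x v y := by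
  unfold dt
  simp only [add_re, add_im, mul_re, mul_im, ofReal_re, ofReal_im, sub_re, sub_im]
  ring

theorem dt_lin1 (x y u v : ℂ) (s : ℝ) :
    dt (u + (s : ℂ) * (v - u)) x y = (1 - s) * dt u x y + s * dt v x y := by
  unfold dt
  simp only [add_re, add_im, mul_re, mul_im, ofReal_re, ofReal_im, sub_re, sub_im]
  ring

theorem dt_self12 (x y : ℂ) : dt x x y = 0 := by unfold dt; ring
theorem dt_self23 (x y : ℂ) : dt x y y = 0 := by unfold dt; ring
theorem dt_self13 (x y : ℂ) : dt x y x = 0 := by unfold dt; ring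

theorem seg_sub {u v : ℂ} {s t : ℝ} (hs0 : 0 ≤ s) (hs1 : s ≤ 1) (ht0 : 0 ≤ t) (ht1 : t ≤ 1) :
    segment ℝ (u + (s : ℂ) * (v - u)) (u + (t : ℂ) * (v - u)) ⊆ segment ℝ u v := by
  apply (convex_segment u v).segment_subset
  · rw [segment_eq_image']
    exact ⟨s, ⟨hs0, hs1⟩, by simp⟩
  · rw [segment_eq_image']
    exact ⟨t, ⟨ht0, ht1⟩, by simp⟩

section caps2
variable {V : Type} {G : SimpleGraph V} {p : Option V → ℂ} {tt : V → V → ℝ} {b : V → V → Bool} {zg : V → V → ℂ}

theorem edge_sub {u v : V} (h : G.Adj u v) :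
    segment ℝ (p (some u)) (p (some v)) ⊆ drawing G (p ∘ some) :=
  fun _ hz => Or.inl (Set.mem_iUnion.mpr ⟨⟨(u, v), h⟩, hz⟩)

theorem portion_sub {u v : V} (h : G.Adj u v) {s t : ℝ} (hs0 : 0 ≤ s) (hs1 : s ≤ 1) (ht0 : 0 ≤ t)
    (ht1 : t ≤ 1) :
    segment ℝ (p (some u) + (s : ℂ) * (p (some v) - p (some u)))
      (p (some u) + (t : ℂ) * (p (some v) - p (some u))) ⊆ drawing G (p ∘ some) :=
  (seg_sub hs0 hs1 ht0 ht1).trans (edge_sub h)

theorem neg2pi_tri3 {A B C : Bool} (h : (tri3 A B C : ℝ) * (2 * Real.pi) = -(2 * Real.pi)) :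
    A = false ∧ B = false ∧ C = false := by
  have hpi := Real.pi_pos
  have h4 : ((tri3 A B C : ℤ) : ℝ) = -1 := by
    have h5 : (tri3 A B C : ℝ) * (2 * Real.pi) = (-1 : ℝ) * (2 * Real.pi) := by
      rw [h]; ring
    exact mul_right_cancel₀ (by positivity) h5
  have h5 : tri3 A B C = -1 := by exact_mod_cast h4
  revert h5
  rcases A <;> rcases B <;> rcases C <;> simp [tri3]

/-- crossing cap: edges `xa` and `yb` cross on the left of `xy` -/
theorem capX (R : Rep G p tt b zg) {x y a c : V} (hxy : x ≠ y) (h1 : G.Adj x a) (h2 : G.Adj y c)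
    (g1 : sg p (some x) (some y) (some a) = true) (g2 : sg p (some x) (some y) (some c) = true)
    (g3 : sg p (some x) (some a) (some c) = true) (g4 : sg p (some a) (some c) (some y) = true) :
    GCap G p x y (s0 p x a = false ∧ s0 p c y = false ∧ s0 p y x = false) := by
  rw [sg_true] at g1 g2 g3 g4
  obtain ⟨m, s, r, s0', s1, r0, r1, e1, e2⟩ := exists_cross g1 g2 g3 g4
  refine ⟨[m], by simp, ?_, ?_, ?_⟩
  · intro k hk
    simp only [List.mem_singleton] at hk
    rw [hk, e1, dt_lin3, dt_self13]
    have := mul_pos s0' g1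
    linarith
  · simp only [List.cons_append, List.nil_append, sides, Set.union_empty]
    apply Set.union_subset
    · have := portion_sub (p := p) h1 (s := 0) (t := s) le_rfl zero_le_one s0'.le s1.le
      rw [e1]
      simpa using this
    · have := portion_sub (p := p) h2 (s := r) (t := 0) r0.le r1.le le_rfl zero_le_one
      rw [e2]
      simpa using this
  · intro h
    have hT : ths (p none) (p (some x) :: ([m] ++ [p (some y), p (some x)]))
        = T (p none) (p (some x)) m (p (some y)) := by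
      simp only [List.cons_append, List.nil_append, ths, T, add_zero]
      ring
    rw [hT] at h
    have k1 : dt (p none) (p (some x)) m = s * dt (p none) (p (some x)) (p (some a)) := by
      rw [e1, dt_lin3, dt_self23]; ring
    have k2 : dt (p none) m (p (some y)) = r * dt (p none) (p (some c)) (p (some y)) := by
      rw [e2, dt_lin2, dt_self23]; ring
    have n1 := dt_ne R h1.ne
    have n2 := dt_ne R h2.ne.symm
    have n3 := dt_ne R hxy.symm
    rw [T_tri3 (by rw [k1]; exact mul_ne_zero s0'.ne' n1) (by rw [k2]; exact mul_ne_zero r0.ne' n2)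
      n3] at h
    obtain ⟨f1, f2, f3⟩ := neg2pi_tri3 h
    refine ⟨?_, ?_, f3⟩
    · rw [s0_eq]
      rw [k1] at f1
      simp only [decide_eq_false_iff_not, not_lt] at f1 ⊢
      by_contra hcon
      push Not at hcon
      have := mul_pos s0' hcon
      linarith
    · rw [s0_eq]
      rw [k2] at f2
      simp only [decide_eq_false_iff_not, not_lt] at f2 ⊢
      by_contra hcon
      push Not at hcon
      have := mul_pos r0 hcon
      linarith

end caps2

end Pool.Agent.Helper12.Obs
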