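import Pool.Agent.Helper12.Obs.Caps

set_option autoImplicit false

namespace Pool.Agent.Helper12.Obs

open Complex Metric

/-- a point seen from a point in general position: sign function -/
noncomputable def sz {V : Type} (p : Option V → ℂ) (z : ℂ) (u v : V) : Bool :=
  decide (0 < dt z (p (some u)) (p (some v)))

section
variable {V : Type} [DecidableEq V]

/-- winding number of a triangle of labels from the signs seen from the point -/
def triS (σ : V → V → Bool) (u v w : V) : ℤ :=
  if u = v then 0 else tri3 (σ u v) (σ v w) (σ w u)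

/-- correction term at the meeting point of the directed edges `e` and `f` -/
def corr (σ : V → V → Bool) (e f : V × V) : ℤ :=
  if e.1 = f.1 then 0 else tri3 (σ e.1 e.2) (σ f.2 f.1) (σ f.1 e.1)

/-- winding number of the closed chain `e₀ … e l`, seen from the current edge `e` -/
def chv (σ : V → V → Bool) (e₀ : V × V) : V × V → List (V × V) → ℤ
  | e, [] => corr σ e e₀
  | e, f :: l => triS σ e₀.1 e.1 f.1 + corr σ e f + chv σ e₀ f l

/-- the open segments of two edges with four different ends cross, or they share an end -/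
def meetB (s : V → V → V → Bool) (e f : V × V) : Bool :=
  decide (e.1 = f.1) || decide (e.1 = f.2) || decide (e.2 = f.1) || decide (e.2 = f.2) ||
  ((s e.1 e.2 f.1 != s e.1 e.2 f.2) && (s f.1 f.2 e.1 != s f.1 f.2 e.2))

/-- consecutive edges meet, and the last one meets `e₀` -/
def chOK (s : V → V → V → Bool) (e₀ : V × V) : V × V → List (V × V) → Bool
  | e, [] => meetB s e e₀
  | e, f :: l => meetB s e f && chOK s e₀ f l

end

theorem cross_gen {a b c d : ℂ} (h1 : dt a b c * dt a b d < 0) (h2 : dt c d a * dt c d b < 0) :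
    ∃ (m : ℂ) (s r : ℝ), 0 < s ∧ s < 1 ∧ 0 < r ∧ r < 1 ∧
      m = a + (s : ℂ) * (b - a) ∧ m = c + (r : ℂ) * (d - c) := by
  have hN : dt c d a - dt c d b = -(dt a b c - dt a b d) := by unfold dt; ring
  have hs : 0 < dt c d a / (dt c d a - dt c d b) ∧ dt c d a / (dt c d a - dt c d b) < 1 := by
    rcases mul_neg_iff.mp h2 with ⟨g1, g2⟩ | ⟨g1, g2⟩
    · have hp : 0 < dt c d a - dt c d b := by linarith
      exact ⟨div_pos g1 hp, (div_lt_one hp).mpr (by linarith)⟩
    · have hp : dt c d a - dt c d b < 0 := by linarith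
      exact ⟨div_pos_of_neg_of_neg g1 hp, (div_lt_one_of_neg hp).mpr (by linarith)⟩
  have hr : 0 < dt a b c / (dt a b c - dt a b d) ∧ dt a b c / (dt a b c - dt a b d) < 1 := by
    rcases mul_neg_iff.mp h1 with ⟨g1, g2⟩ | ⟨g1, g2⟩
    · have hp : 0 < dt a b c - dt a b d := by linarith
      exact ⟨div_pos g1 hp, (div_lt_one hp).mpr (by linarith)⟩
    · have hp : dt a b c - dt a b d < 0 := by linarith
      exact ⟨div_pos_of_neg_of_neg g1 hp, (div_lt_one_of_neg hp).mpr (by linarith)⟩
  have hN0 : dt a b c - dt a b d ≠ 0 := by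
    intro e
    rw [e] at hr
    simp at hr
  refine ⟨a + ((dt c d a / (dt c d a - dt c d b) : ℝ) : ℂ) * (b - a), _, _, hs.1, hs.2, hr.1, hr.2,
    rfl, ?_⟩
  rw [hN]
  set N := dt a b c - dt a b d with hNd
  have hN' : ((N : ℝ) : ℂ) ≠ 0 := by exact_mod_cast hN0
  have key : ((N : ℝ) : ℂ) * a - ((dt c d a : ℝ) : ℂ) * (b - a)
      = ((N : ℝ) : ℂ) * c + ((dt a b c : ℝ) : ℂ) * (d - c) := by
    rw [hNd]
    apply Complex.ext
    · simp only [add_re, mul_re, ofReal_re, ofReal_im, zero_mul, sub_zero, sub_re]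
      unfold dt; ring
    · simp only [add_im, mul_im, ofReal_re, ofReal_im, zero_mul, add_zero, sub_im]
      unfold dt; ring
  have e1 : a + ((dt c d a / -N : ℝ) : ℂ) * (b - a)
      = (((N : ℝ) : ℂ) * a - ((dt c d a : ℝ) : ℂ) * (b - a)) / ((N : ℝ) : ℂ) := by
    rw [ofReal_div, ofReal_neg]; field_simp; ring
  have e2 : c + ((dt a b c / N : ℝ) : ℂ) * (d - c)
      = (((N : ℝ) : ℂ) * c + ((dt a b c : ℝ) : ℂ) * (d - c)) / ((N : ℝ) : ℂ) := by
    rw [ofReal_div]; field_simp
  rw [e1, e2, key]

section gen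
variable {V : Type} {G : SimpleGraph V} {p : Option V → ℂ} {tt : V → V → ℝ} {b : V → V → Bool}

/-- `z` is in general position with respect to the vertices -/
def GenZ (p : Option V → ℂ) (z : ℂ) : Prop :=
  (∀ u v : V, u ≠ v → dt z (p (some u)) (p (some v)) ≠ 0) ∧ (∀ u : V, p (some u) ≠ z)

theorem sz_self (z : ℂ) (u : V) : sz p z u u = false := by
  unfold sz
  have : dt z (p (some u)) (p (some u)) = 0 := by unfold dt; ring
  rw [this]; simp

theorem sz_swap {z : ℂ} (hz : GenZ p z) {u v : V} (h : u ≠ v) : sz p z v u = !(sz p z u v) := by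
  have h1 := hz.1 u v h
  have h2 : dt z (p (some v)) (p (some u)) = - dt z (p (some u)) (p (some v)) := dt_swap' _ _ _
  unfold sz
  rw [h2]
  rcases lt_or_gt_of_ne h1 with h | h
  · simp [h, not_lt.mpr h.le]
  · simp [h, not_lt.mpr h.le]

theorem th_antiZ {z : ℂ} (hz : GenZ p z) {u v : V} (h : u ≠ v) :
    th z (p (some v)) (p (some u)) = - th z (p (some u)) (p (some v)) :=
  th_swap (notMem_segment_of_dt (hz.1 u v h))

theorem th_antiZ' {z : ℂ} (hz : GenZ p z) (u v : V) :
    th z (p (some u)) (p (some v)) + th z (p (some v)) (p (some u)) = 0 := by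
  by_cases h : u = v
  · subst h; rw [th_self (hz.2 u)]; ring
  · rw [th_antiZ hz h]; ring

variable [DecidableEq V]

theorem T_triS {z : ℂ} (hz : GenZ p z) (u v w : V) :
    T z (p (some u)) (p (some v)) (p (some w)) = (triS (sz p z) u v w : ℝ) * (2 * Real.pi) := by
  unfold triS
  by_cases huv : u = v
  · subst huv
    rw [if_pos rfl]
    unfold T
    rw [th_self (hz.2 u)]
    have := th_antiZ' hz u w
    simp only [Int.cast_zero, zero_mul]
    linarith
  rw [if_neg huv]
  by_cases hvw : v = w
  · subst hvw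
    rw [sz_self, sz_swap hz huv]
    have e : tri3 (sz p z u v) false (!(sz p z u v)) = 0 := by
      rcases sz p z u v with _ | _ <;> rfl
    rw [e]
    unfold T
    rw [th_self (hz.2 v)]
    have := th_antiZ' hz u v
    simp only [Int.cast_zero, zero_mul]
    linarith
  by_cases huw : u = w
  · subst huw
    rw [sz_self, sz_swap hz huv]
    have e : tri3 (sz p z u v) (!(sz p z u v)) false = 0 := by
      rcases sz p z u v with _ | _ <;> rfl
    rw [e]
    unfold T
    rw [th_self (hz.2 u)]
    have := th_antiZ' hz u v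
    simp only [Int.cast_zero, zero_mul]
    linarith
  rw [T_tri3 (hz.1 u v huv) (hz.1 v w hvw) (hz.1 w u (Ne.symm huw))]
  rfl

/-- signs of triples of vertices -/
noncomputable def sv (p : Option V → ℂ) (u v w : V) : Bool := sg p (some u) (some v) (some w)

/-- the meeting point of two edges -/
theorem meet_point (hgen : ∀ a b c, a ≠ b → b ≠ c → a ≠ c → dt (p a) (p b) (p c) ≠ 0)
    {e f : V × V} (he : G.Adj e.1 e.2) (hf : G.Adj f.1 f.2) (hm : meetB (sv p) e f = true) :
    ∃ m : ℂ, m ∈ segment ℝ (p (some e.1)) (p (some e.2)) ∧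
      m ∈ segment ℝ (p (some f.1)) (p (some f.2)) ∧
      ∀ z, GenZ p z → th z (p (some e.1)) m + th z m (p (some f.1))
        = th z (p (some e.1)) (p (some f.1)) + (corr (sz p z) e f : ℝ) * (2 * Real.pi) := by
  obtain ⟨a, b⟩ := e
  obtain ⟨c, d⟩ := f
  simp only at he hf ⊢
  by_cases h1 : a = c
  · subst h1
    refine ⟨p (some a), left_mem_segment ℝ _ _, left_mem_segment ℝ _ _, ?_⟩
    intro z hz
    simp only [corr, if_true, Int.cast_zero, zero_mul, add_zero]
    rw [th_self (hz.2 a)]; ring
  by_cases h2 : a = d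
  · subst h2
    refine ⟨p (some a), left_mem_segment ℝ _ _, right_mem_segment ℝ _ _, ?_⟩
    intro z hz
    simp only [corr, if_neg h1]
    rw [th_self (hz.2 a), sz_swap hz h1]
    have e : tri3 (sz p z a b) (sz p z a c) (!(sz p z a c)) = 0 := by
      rcases sz p z a b with _ | _ <;> rcases sz p z a c with _ | _ <;> rfl
    rw [e]; simp
  by_cases h3 : b = c
  · subst h3
    refine ⟨p (some b), right_mem_segment ℝ _ _, left_mem_segment ℝ _ _, ?_⟩
    intro z hz
    simp only [corr, if_neg h1]
    rw [th_self (hz.2 b), sz_swap hz h1]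
    have e : tri3 (sz p z a b) (sz p z d b) (!(sz p z a b)) = 0 := by
      rcases sz p z a b with _ | _ <;> rcases sz p z d b with _ | _ <;> rfl
    rw [e]; simp
  by_cases h4 : b = d
  · subst h4
    refine ⟨p (some b), right_mem_segment ℝ _ _, right_mem_segment ℝ _ _, ?_⟩
    intro z hz
    have e1 := T_triS hz a b c
    have e2 : corr (sz p z) (a, b) (c, b) = triS (sz p z) a b c := by
      simp only [corr, triS, if_neg h1, if_neg he.ne]
    rw [e2, ← e1]
    have := th_antiZ' hz a c
    unfold T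
    linarith
  -- proper crossing
  have hx : (sv p a b c != sv p a b d) = true ∧ (sv p c d a != sv p c d b) = true := by
    simp only [meetB, decide_eq_false h1, decide_eq_false h2, decide_eq_false h3,
      decide_eq_false h4, Bool.or_false, Bool.false_or, Bool.and_eq_true] at hm
    exact hm
  have hab : a ≠ b := he.ne
  have hcd : c ≠ d := hf.ne
  have opp : ∀ x y : ℝ, x ≠ 0 → y ≠ 0 → (decide (0 < x) != decide (0 < y)) = true → x * y < 0 := by
    intro x y hx hy h
    rcases lt_or_gt_of_ne hx with hx | hx <;> rcases lt_or_gt_of_ne hy with hy | hy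
    · simp [not_lt.mpr hx.le, not_lt.mpr hy.le] at h
    · exact mul_neg_of_neg_of_pos hx hy
    · exact mul_neg_of_pos_of_neg hx hy
    · simp [hx, hy] at h
  have sm : ∀ {u v : V}, u ≠ v → (some u : Option V) ≠ some v := fun h => by simpa using h
  have g1 : dt (p (some a)) (p (some b)) (p (some c)) * dt (p (some a)) (p (some b)) (p (some d)) < 0 :=
    opp _ _ (hgen _ _ _ (sm hab) (sm h3) (sm h1)) (hgen _ _ _ (sm hab) (sm h4) (sm h2)) hx.1
  have g2 : dt (p (some c)) (p (some d)) (p (some a)) * dt (p (some c)) (p (some d)) (p (some b)) < 0 :=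
    opp _ _ (hgen _ _ _ (sm hcd) (sm (Ne.symm h2)) (sm (Ne.symm h1)))
      (hgen _ _ _ (sm hcd) (sm (Ne.symm h4)) (sm (Ne.symm h3))) hx.2
  obtain ⟨m, s, r, s0', s1, r0, r1, e1, e2⟩ := cross_gen g1 g2
  refine ⟨m, ?_, ?_, ?_⟩
  · rw [segment_eq_image']
    exact ⟨s, ⟨s0'.le, s1.le⟩, by rw [e1]; simp⟩
  · rw [segment_eq_image']
    exact ⟨r, ⟨r0.le, r1.le⟩, by rw [e2]; simp⟩
  intro z hz
  have k1 : dt z (p (some a)) m = s * dt z (p (some a)) (p (some b)) := by
    rw [e1, dt_lin3, dt_self23]; ring
  have k2 : dt z m (p (some c)) = r * dt z (p (some d)) (p (some c)) := by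
    rw [e2, dt_lin2, dt_self23]; ring
  have n1 := hz.1 a b hab
  have n2 := hz.1 d c (Ne.symm hcd)
  have n3 := hz.1 c a (Ne.symm h1)
  have hT := T_tri3 (q := z) (a := p (some a)) (b := m) (c := p (some c))
    (by rw [k1]; exact mul_ne_zero s0'.ne' n1) (by rw [k2]; exact mul_ne_zero r0.ne' n2) n3
  have d1 : decide (0 < dt z (p (some a)) m) = sz p z a b := by
    unfold sz
    rw [k1, decide_eq_decide]
    exact ⟨fun h => (pos_iff_pos_of_mul_pos h).mp s0', fun h => mul_pos s0' h⟩
  have d2 : decide (0 < dt z m (p (some c))) = sz p z d c := by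
    unfold sz
    rw [k2, decide_eq_decide]
    exact ⟨fun h => (pos_iff_pos_of_mul_pos h).mp r0, fun h => mul_pos r0 h⟩
  rw [d1, d2] at hT
  have hc : corr (sz p z) (a, b) (c, d) = tri3 (sz p z a b) (sz p z d c) (sz p z c a) := by
    simp only [corr, if_neg h1]
  rw [hc]
  have hT' : T z (p (some a)) m (p (some c)) = (tri3 (sz p z a b) (sz p z d c) (sz p z c a) : ℝ)
      * (2 * Real.pi) := hT
  rw [← hT']
  have := th_antiZ' hz a c
  unfold T
  linarith

/-- every closed chain of edges carries a drawn closed polygon whose winding numbers are computed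
by `chv` -/
theorem chain_poly (hgen : ∀ a b c, a ≠ b → b ≠ c → a ≠ c → dt (p a) (p b) (p c) ≠ 0)
    (e₀ : V × V) (h₀ : G.Adj e₀.1 e₀.2) : ∀ (e : V × V) (l : List (V × V)), G.Adj e.1 e.2 →
    (∀ f ∈ l, G.Adj f.1 f.2) → chOK (sv p) e₀ e l = true →
    ∃ L : List ℂ, (p (some e.1) :: L).getLast (by simp) = p (some e₀.1) ∧
      sides (p (some e.1) :: L) ⊆ drawing G (p ∘ some) ∧ L ≠ [] ∧
      ∀ z, GenZ p z → th z (p (some e₀.1)) (p (some e.1)) + ths z (p (some e.1) :: L)
        = (chv (sz p z) e₀ e l : ℝ) * (2 * Real.pi)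
  | e, [], he, _, hok => by
    obtain ⟨m, hm1, hm2, hm3⟩ := meet_point (G := G) hgen he h₀ hok
    refine ⟨[m, p (some e₀.1)], by simp, ?_, by simp, ?_⟩
    · simp only [sides, Set.union_empty]
      apply Set.union_subset
      · exact ((convex_segment _ _).segment_subset (left_mem_segment ℝ _ _) hm1).trans (edge_sub he)
      · exact ((convex_segment _ _).segment_subset hm2 (left_mem_segment ℝ _ _)).trans (edge_sub h₀)
    · intro z hz
      simp only [ths, add_zero, chv]
      have := th_antiZ' hz e₀.1 e.1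
      have := hm3 z hz
      linarith
  | e, f :: l, he, hl, hok => by
    simp only [chOK, Bool.and_eq_true] at hok
    have hf : G.Adj f.1 f.2 := hl f (by simp)
    obtain ⟨m, hm1, hm2, hm3⟩ := meet_point (G := G) hgen he hf hok.1
    obtain ⟨L, hL1, hL2, hL3, hL4⟩ := chain_poly hgen e₀ h₀ f l hf
      (fun g hg => hl g (List.mem_cons_of_mem _ hg)) hok.2
    refine ⟨m :: p (some f.1) :: L, ?_, ?_, by simp, ?_⟩
    · rw [List.getLast_cons (by simp), List.getLast_cons (by simp)]
      exact hL1
    · rw [sides_cons_cons, sides_cons_cons]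
      apply Set.union_subset
      · exact ((convex_segment _ _).segment_subset (left_mem_segment ℝ _ _) hm1).trans (edge_sub he)
      apply Set.union_subset
      · exact ((convex_segment _ _).segment_subset hm2 (left_mem_segment ℝ _ _)).trans (edge_sub hf)
      · exact hL2
    · intro z hz
      rw [ths_cons_cons, ths_cons_cons]
      simp only [chv]
      push_cast
      have h1 := hL4 z hz
      have h2 := hm3 z hz
      have h3 := T_triS hz e₀.1 e.1 f.1
      have h4 := th_antiZ' hz e₀.1 f.1
      unfold T at h3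
      linarith

end gen

end Pool.Agent.Helper12.Obs
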