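import Pool.Agent.Helper12.Obs.CapChain

set_option autoImplicit false

namespace Pool.Agent.Helper12.Obs

open Complex Metric

/-- On a segment which avoids the closed ray `z - R≥0 c` angles are differences of arguments. -/
theorem th_slit {c z P Q : ℂ} (hc : c ≠ 0)
    (h : ∀ X ∈ segment ℝ P Q, ¬ (((X - z) / c).re ≤ 0 ∧ ((X - z) / c).im = 0)) :
    th z P Q = al c z Q - al c z P := by
  have hP := h P (left_mem_segment ℝ P Q)
  have hQ := h Q (right_mem_segment ℝ P Q)
  set p := (P - z) / c with hp
  set q := (Q - z) / c with hq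
  have hne : ∀ X, ¬ (((X - z) / c).re ≤ 0 ∧ ((X - z) / c).im = 0) → X ≠ z := by
    rintro X hX rfl
    apply hX
    simp
  have hPz := hne P hP
  have hQz := hne Q hQ
  have hargp : Complex.arg p < Real.pi := by
    rw [Complex.arg_lt_pi_iff]
    by_contra hcon
    rw [not_or, not_le, not_not] at hcon
    exact hP ⟨hcon.1.le, hcon.2⟩
  have hargq : Complex.arg q < Real.pi := by
    rw [Complex.arg_lt_pi_iff]
    by_contra hcon
    rw [not_or, not_le, not_not] at hcon
    exact hQ ⟨hcon.1.le, hcon.2⟩
  have hargp' := Complex.neg_pi_lt_arg p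
  have hargq' := Complex.neg_pi_lt_arg q
  have hp0 : p ≠ 0 := by
    intro e; apply hP; rw [e]; simp
  have hq0 : q ≠ 0 := by
    intro e; apply hQ; rw [e]; simp
  -- sign of the cross product when the imaginary parts have opposite signs
  have cross : ∀ (u v : ℂ), (∀ t : ℝ, 0 ≤ t → t ≤ 1 →
      ¬ ((u.re + t * (v.re - u.re)) ≤ 0 ∧ (u.im + t * (v.im - u.im)) = 0)) →
      u.im < 0 → 0 < v.im → 0 < u.re * v.im - u.im * v.re := by
    intro u v huv hu hv
    by_contra hcon
    push Not at hcon
    have hd : 0 < v.im - u.im := by linarith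
    apply huv (-u.im / (v.im - u.im)) (div_nonneg (by linarith) hd.le)
      ((div_le_one hd).mpr (by linarith))
    constructor
    · have e : u.re + -u.im / (v.im - u.im) * (v.re - u.re)
          = (u.re * v.im - u.im * v.re) / (v.im - u.im) := by field_simp; ring
      rw [e]
      exact div_nonpos_of_nonpos_of_nonneg hcon hd.le
    · field_simp; ring
  have hseg : ∀ t : ℝ, 0 ≤ t → t ≤ 1 →
      ¬ ((p.re + t * (q.re - p.re)) ≤ 0 ∧ (p.im + t * (q.im - p.im)) = 0) := by
    intro t t0 t1 hcon
    have hX : P + (t : ℂ) * (Q - P) ∈ segment ℝ P Q := by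
      rw [segment_eq_image']
      exact ⟨t, ⟨t0, t1⟩, by simp⟩
    have e : (P + (t : ℂ) * (Q - P) - z) / c = p + (t : ℂ) * (q - p) := by
      rw [hp, hq]; field_simp; ring
    apply h _ hX
    rw [e]
    simpa using hcon
  have hseg' : ∀ t : ℝ, 0 ≤ t → t ≤ 1 →
      ¬ ((q.re + t * (p.re - q.re)) ≤ 0 ∧ (q.im + t * (p.im - q.im)) = 0) := by
    intro t t0 t1 hcon
    apply hseg (1 - t) (by linarith) (by linarith)
    constructor
    · have := hcon.1; nlinarith
    · have := hcon.2; nlinarith
  -- imaginary part of `q / p`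
  have hns : 0 < normSq p := Complex.normSq_pos.mpr hp0
  have hsin : ∀ u v : ℂ, u ≠ 0 → v ≠ 0 → u.re * v.im - u.im * v.re
      = ‖u‖ * ‖v‖ * Real.sin (Complex.arg v - Complex.arg u) := by
    intro u v hu hv
    rw [Real.sin_sub]
    have e1 : u.re = ‖u‖ * Real.cos (Complex.arg u) := by
      rw [Complex.cos_arg hu]; field_simp [norm_ne_zero_iff.mpr hu]
    have e2 : u.im = ‖u‖ * Real.sin (Complex.arg u) := by
      rw [Complex.sin_arg]; field_simp [norm_ne_zero_iff.mpr hu]
    have e3 : v.re = ‖v‖ * Real.cos (Complex.arg v) := by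
      rw [Complex.cos_arg hv]; field_simp [norm_ne_zero_iff.mpr hv]
    have e4 : v.im = ‖v‖ * Real.sin (Complex.arg v) := by
      rw [Complex.sin_arg]; field_simp [norm_ne_zero_iff.mpr hv]
    calc u.re * v.im - u.im * v.re
        = (‖u‖ * Real.cos (Complex.arg u)) * (‖v‖ * Real.sin (Complex.arg v))
          - (‖u‖ * Real.sin (Complex.arg u)) * (‖v‖ * Real.cos (Complex.arg v)) := by
            rw [← e1, ← e2, ← e3, ← e4]
      _ = _ := by ring
  have hpi := Real.pi_pos
  have upper : Complex.arg q - Complex.arg p < Real.pi := by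
    by_contra hcon
    push Not at hcon
    have hpneg : Complex.arg p < 0 := by linarith
    have hqpos : 0 < Complex.arg q := by linarith
    have i1 : p.im < 0 := Complex.arg_neg_iff.mp hpneg
    have i2 : 0 < q.im := by
      rcases lt_or_eq_of_le (Complex.arg_nonneg_iff.mp hqpos.le) with h | h
      · exact h
      · exfalso
        rcases lt_or_ge 0 q.re with h' | h'
        · have : Complex.arg q = 0 := Complex.arg_eq_zero_iff.mpr ⟨h'.le, h.symm⟩
          linarith
        · exact hQ ⟨h', h.symm⟩
    have h1 := cross p q hseg i1 i2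
    rw [hsin p q hp0 hq0] at h1
    have h2 : Real.sin (Complex.arg q - Complex.arg p) ≤ 0 := by
      have e : Real.sin (Complex.arg q - Complex.arg p)
          = - Real.sin (Complex.arg q - Complex.arg p - Real.pi) := by
        rw [Real.sin_sub_pi]; ring
      rw [e]
      have := Real.sin_nonneg_of_nonneg_of_le_pi
        (x := Complex.arg q - Complex.arg p - Real.pi) (by linarith) (by linarith)
      linarith
    have h3 : 0 < ‖p‖ * ‖q‖ := mul_pos (norm_pos_iff.mpr hp0) (norm_pos_iff.mpr hq0)
    have := mul_nonpos_of_nonneg_of_nonpos h3.le h2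
    linarith
  have lower : -Real.pi < Complex.arg q - Complex.arg p := by
    by_contra hcon
    push Not at hcon
    have hqneg : Complex.arg q < 0 := by linarith
    have hppos : 0 < Complex.arg p := by linarith
    have i1 : q.im < 0 := Complex.arg_neg_iff.mp hqneg
    have i2 : 0 < p.im := by
      rcases lt_or_eq_of_le (Complex.arg_nonneg_iff.mp hppos.le) with h | h
      · exact h
      · exfalso
        rcases lt_or_ge 0 p.re with h' | h'
        · have : Complex.arg p = 0 := Complex.arg_eq_zero_iff.mpr ⟨h'.le, h.symm⟩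
          linarith
        · exact hP ⟨h', h.symm⟩
    have h1 := cross q p hseg' i1 i2
    rw [hsin q p hq0 hp0] at h1
    have h2 : Real.sin (Complex.arg p - Complex.arg q) ≤ 0 := by
      have e : Real.sin (Complex.arg p - Complex.arg q)
          = - Real.sin (Complex.arg p - Complex.arg q - Real.pi) := by
        rw [Real.sin_sub_pi]; ring
      rw [e]
      have := Real.sin_nonneg_of_nonneg_of_le_pi
        (x := Complex.arg p - Complex.arg q - Real.pi) (by linarith) (by linarith)
      linarith
    have h3 : 0 < ‖q‖ * ‖p‖ := mul_pos (norm_pos_iff.mpr hq0) (norm_pos_iff.mpr hp0)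
    have := mul_nonpos_of_nonneg_of_nonpos h3.le h2
    linarith
  exact th_eq_sub hc hPz hQz lower upper.le

/-- change of the branch cut -/
theorem al_neg {c z P : ℂ} (hc : c ≠ 0) (hP : P ≠ z)
    (h : ¬ (((P - z) / c).re ≤ 0 ∧ ((P - z) / c).im = 0)) :
    al c z P + Real.pi = al (-c) z P + 2 * Real.pi * (if 0 < ((P - z) / c).im then 1 else 0) := by
  have e : (P - z) / (-c) = -((P - z) / c) := by rw [div_neg]
  unfold al
  rw [e]
  set w := (P - z) / c with hw
  by_cases him : 0 < w.im
  · rw [if_pos him, Complex.arg_neg_eq_arg_sub_pi_of_im_pos him]; ring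
  · rw [if_neg him]
    push Not at him
    rcases lt_or_eq_of_le him with h1 | h1
    · rw [Complex.arg_neg_eq_arg_add_pi_of_im_neg h1]; ring
    · have hre : 0 < w.re := by
        by_contra hcon
        push Not at hcon
        exact h ⟨hcon, h1⟩
      have hwr : w = ((w.re : ℝ) : ℂ) := by apply Complex.ext <;> simp [h1]
      rw [hwr, Complex.arg_ofReal_of_nonneg hre.le, ← Complex.ofReal_neg,
        Complex.arg_ofReal_of_neg (by linarith)]
      ring

/-- coordinates along the line `xY` as seen from `z = x + t (Y - x)` -/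
theorem re_im_line {x Y z P : ℂ} {t : ℝ} (hz : z = x + (t : ℂ) * (Y - x)) (hxY : Y - x ≠ 0) :
    ((P - z) / (Y - x)).im = dt x Y P / normSq (Y - x) := by
  rw [Complex.div_im, hz]
  unfold dt
  simp only [sub_im, sub_re, add_re, add_im, mul_re, mul_im, ofReal_re, ofReal_im]
  ring

/-- a point of the line `ab` on the line `xY`: its position relative to `z` -/
theorem re_line {x Y z P a b : ℂ} {t : ℝ} (hz : z = x + (t : ℂ) * (Y - x)) (hxY : Y - x ≠ 0)
    (hP : dt x Y P = 0) :
    dt a b P = dt a b z + ((P - z) / (Y - x)).re * (dt x Y a - dt x Y b) := by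
  have hns : 0 < normSq (Y - x) := Complex.normSq_pos.mpr hxY
  have him : ((P - z) / (Y - x)).im = 0 := by rw [re_im_line hz hxY, hP]; simp
  set w := (P - z) / (Y - x) with hw
  have e1 : P = z + w * (Y - x) := by rw [hw]; field_simp; ring
  have e2 : P.re = z.re + w.re * (Y.re - x.re) := by
    have := congrArg Complex.re e1
    simp only [add_re, mul_re, sub_re, him, zero_mul, sub_zero] at this
    exact this
  have e3 : P.im = z.im + w.re * (Y.im - x.im) := by
    have := congrArg Complex.im e1
    simp only [add_im, mul_im, sub_im, him, zero_mul, add_zero] at this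
    exact this
  unfold dt
  rw [e2, e3]
  ring

end Pool.Agent.Helper12.Obs
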