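import Pool.Agent.Helper12.Obs.HRed
import Pool.Agent.Helper12.Obs.CapChain

set_option autoImplicit false

namespace Pool.Agent.Helper12.Obs

/-- Final reduction: no pair `(s, b)` satisfies the rules and homogeneity. -/
theorem final_hom_SB {Hb U : Type} [Fintype Hb] [Fintype U] [DecidableEq Hb] [DecidableEq U]
    [Nonempty U] (K : SimpleGraph (Hb ⊕ U)) (M : ℕ)
    (hpl : ∀ N : ℕ, PlanarF (two (amal K (Fin N))))
    (hno : ∀ (s : Option (Hb ⊕ U × Fin M) → Option (Hb ⊕ U × Fin M) →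
        Option (Hb ⊕ U × Fin M) → Bool) (b : (Hb ⊕ U × Fin M) → (Hb ⊕ U × Fin M) → Bool),
        SB (amal K (Fin M)) s b → ¬ Hom s b) :
    ¬ (∀ (V : Type) [Fintype V] (G : SimpleGraph V),
      (∃ (p : V → ℝ × ℝ) (γ : ∀ u v : V, Path (p u) (p v)),
          Function.Injective p ∧
          (∀ u v : V, G.Adj u v → Function.Injective ⇑(γ u v)) ∧
          (∀ u v w : V, G.Adj u v → p w ∈ Set.range ⇑(γ u v) → w = u ∨ w = v) ∧
          (∀ u v w x : V, G.Adj u v → G.Adj w x → ¬ (w = u ∧ x = v) → ¬ (w = v ∧ x = u) →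
            ∀ z : ℝ × ℝ, z ∈ Set.range ⇑(γ u v) → z ∈ Set.range ⇑(γ w x) →
              z = p u ∨ z = p v)) →
      ∃ (q : V → ℝ × ℝ) (O₁ O₂ : Set (ℝ × ℝ)),
        Function.Injective q ∧ IsPreconnected O₁ ∧ IsPreconnected O₂ ∧
        (∀ v : V, q v ∉ O₁ ∪ O₂) ∧
        (∀ u v : V, u ≠ v → (G.Adj u v ↔ Disjoint (segment ℝ (q u) (q v)) (O₁ ∪ O₂)))) := by
  intro hall
  obtain ⟨N, hN⟩ := hom_of_rep K M
  obtain ⟨q, O₁, O₂, h1, h2, h3, h4, h5⟩ := hall _ (two (amal K (Fin (N + 1)))) (hpl (N + 1))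
  have : Nonempty (Hb ⊕ U × Fin (N + 1)) := ⟨Sum.inr (Classical.arbitrary U, 0)⟩
  obtain ⟨p, tt, b, zg, R⟩ := rep_of_two (amal K (Fin (N + 1))) q O₁ O₂ h1 h2 h3 h4 h5
  have hinj : Function.Injective
      (reidx' (Hb := Hb) (U := U) (Fin.castSucc : Fin N → Fin (N + 1))) := by
    unfold reidx'
    exact Function.Injective.sumMap Function.injective_id
      (Function.Injective.prodMap Function.injective_id (Fin.castSucc_injective N))
  have R₁ := R.restrict (G' := amal K (Fin N)) (reidx' Fin.castSucc) hinj (by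
    rintro (x | ⟨u, i⟩) (y | ⟨v, j⟩)
    · exact Iff.rfl
    · exact Iff.rfl
    · exact Iff.rfl
    · constructor
      · rintro ⟨h1, h2⟩
        exact ⟨by rw [h1], h2⟩
      · rintro ⟨h1, h2⟩
        exact ⟨Fin.castSucc_injective N h1, h2⟩)
  obtain ⟨p', tt', b', zg', R', hom⟩ := hN _ _ _ _ R₁
  exact hno _ _ (sb_of_rep R') hom

end Pool.Agent.Helper12.Obs
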