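import Mathlib

set_option autoImplicit false

namespace Pool.Agent.Helper12.Obs

open Filter

theorem ultra_lim {C : Type} [Finite C] (U : Ultrafilter ℕ) (f : ℕ → C) :
    ∃ c, ∀ᶠ n in (U : Filter ℕ), f n = c := by
  by_contra hcon
  have h1 : ∀ c, ∀ᶠ n in (U : Filter ℕ), f n ≠ c :=
    fun c => Ultrafilter.eventually_not.mpr (fun h => hcon ⟨c, h⟩)
  have h2 : ∀ᶠ n in (U : Filter ℕ), ∀ c, f n ≠ c := Filter.eventually_all.mpr h1
  obtain ⟨n, hn⟩ := h2.exists
  exact hn (f n) rfl

/-- homogeneous sequences of every finite length (infinite Ramsey, triples) -/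
theorem ramsey3_inf {C : Type} [Finite C] (c : ℕ → ℕ → ℕ → C) (M : ℕ) :
    ∃ (f : ℕ → ℕ) (c₀ : C), (∀ i j, i < j → j < M → f i < f j) ∧
      ∀ i j k, i < j → j < k → k < M → c (f i) (f j) (f k) = c₀ := by
  classical
  let U : Ultrafilter ℕ := Filter.hyperfilter ℕ
  have h2 : ∀ i j, ∃ d, ∀ᶠ k in (U : Filter ℕ), c i j k = d := fun i j => ultra_lim U (c i j)
  choose c₂ hc₂ using h2
  have h1 : ∀ i, ∃ d, ∀ᶠ j in (U : Filter ℕ), c₂ i j = d := fun i => ultra_lim U (c₂ i)
  choose c₁ hc₁ using h1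
  obtain ⟨c₀, hc₀⟩ := ultra_lim U c₁
  -- build the sequence
  have key : ∀ M : ℕ, ∃ f : ℕ → ℕ, (∀ i j, i < j → j < M → f i < f j) ∧
      (∀ i, i < M → c₁ (f i) = c₀) ∧ (∀ i j, i < j → j < M → c₂ (f i) (f j) = c₀) ∧
      ∀ i j k, i < j → j < k → k < M → c (f i) (f j) (f k) = c₀ := by
    intro M
    induction M with
    | zero => exact ⟨fun _ => 0, by simp, by simp, by simp, by simp⟩
    | succ M ih =>
      obtain ⟨f, g1, g2, g3, g4⟩ := ih
      have e0 : ∀ᶠ x in (U : Filter ℕ), ∀ i : Fin M, f i < x := by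
        rw [Filter.eventually_all]
        intro i
        have : ∀ᶠ x in (Filter.cofinite : Filter ℕ), f i < x := by
          rw [Nat.cofinite_eq_atTop]
          exact Filter.eventually_gt_atTop _
        exact this.filter_mono (Filter.hyperfilter_le_cofinite)
      have e1 : ∀ᶠ x in (U : Filter ℕ), ∀ i : Fin M, c₂ (f i) x = c₀ := by
        rw [Filter.eventually_all]
        intro i
        filter_upwards [hc₁ (f i)] with x hx
        rw [hx, g2 i i.2]
      have e2 : ∀ᶠ x in (U : Filter ℕ), ∀ i j : Fin M, (i : ℕ) < j → c (f i) (f j) x = c₀ := by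
        rw [Filter.eventually_all]
        intro i
        rw [Filter.eventually_all]
        intro j
        filter_upwards [hc₂ (f i) (f j)] with x hx hij
        rw [hx, g3 i j hij j.2]
      obtain ⟨x, hx0, hx1, hx2, hx3⟩ := (e0.and (hc₀.and (e1.and e2))).exists
      refine ⟨fun n => if n < M then f n else x, ?_, ?_, ?_, ?_⟩
      · intro i j hij hj
        have hiM : i < M := by omega
        simp only [if_pos hiM]
        by_cases hjM : j < M
        · rw [if_pos hjM]; exact g1 i j hij hjM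
        · rw [if_neg hjM]; exact hx0 ⟨i, hiM⟩
      · intro i hi
        by_cases hiM : i < M
        · simp only [if_pos hiM]; exact g2 i hiM
        · simp only [if_neg hiM]; exact hx1
      · intro i j hij hj
        have hiM : i < M := by omega
        simp only [if_pos hiM]
        by_cases hjM : j < M
        · rw [if_pos hjM]; exact g3 i j hij hjM
        · rw [if_neg hjM]; exact hx2 ⟨i, hiM⟩
      · intro i j k hij hjk hk
        have hiM : i < M := by omega
        have hjM : j < M := by omega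
        simp only [if_pos hiM, if_pos hjM]
        by_cases hkM : k < M
        · rw [if_pos hkM]; exact g4 i j k hij hjk hkM
        · rw [if_neg hkM]; exact hx3 ⟨i, hiM⟩ ⟨j, hjM⟩ hij
  obtain ⟨f, g1, _, _, g4⟩ := key M
  exact ⟨f, c₀, g1, g4⟩

/-- finite Ramsey theorem for triples -/
theorem ramsey3 (C : Type) [Finite C] (M : ℕ) : ∃ N : ℕ, ∀ c : ℕ → ℕ → ℕ → C,
    ∃ (f : ℕ → ℕ) (c₀ : C), (∀ i j, i < j → j < M → f i < f j) ∧ (∀ i, i < M → f i < N) ∧
      ∀ i j k, i < j → j < k → k < M → c (f i) (f j) (f k) = c₀ := by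
  classical
  by_contra hcon
  push Not at hcon
  choose c hc using hcon
  let U : Ultrafilter ℕ := Filter.hyperfilter ℕ
  have h : ∀ i j k, ∃ d, ∀ᶠ n in (U : Filter ℕ), c n i j k = d :=
    fun i j k => ultra_lim U (fun n => c n i j k)
  choose ci hci using h
  obtain ⟨f, c₀, g1, g2⟩ := ramsey3_inf ci M
  have e1 : ∀ᶠ n in (U : Filter ℕ), ∀ i j k : Fin M, c n (f i) (f j) (f k) = ci (f i) (f j) (f k) := by
    rw [Filter.eventually_all]
    intro i
    rw [Filter.eventually_all]
    intro j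
    rw [Filter.eventually_all]
    intro k
    exact hci (f i) (f j) (f k)
  have e2 : ∀ᶠ n in (U : Filter ℕ), ∀ i : Fin M, f i < n := by
    rw [Filter.eventually_all]
    intro i
    have : ∀ᶠ x in (Filter.cofinite : Filter ℕ), f i < x := by
      rw [Nat.cofinite_eq_atTop]
      exact Filter.eventually_gt_atTop _
    exact this.filter_mono (Filter.hyperfilter_le_cofinite)
  obtain ⟨n, hn1, hn2⟩ := (e1.and e2).exists
  obtain ⟨i, j, k, hij, hjk, hk, hne⟩ := hc n f c₀ g1 (fun i hi => hn2 ⟨i, hi⟩)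
  apply hne
  have hi : i < M := by omega
  have hj : j < M := by omega
  rw [hn1 ⟨i, hi⟩ ⟨j, hj⟩ ⟨k, hk⟩]
  exact g2 i j k hij hjk hk

end Pool.Agent.Helper12.Obs
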