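import Pool.Agent.Helper12.Obs.Sys
import Pool.Agent.Helper12.Obs.Ramsey

set_option autoImplicit false

namespace Pool.Agent.Helper12.Obs

open Complex Metric

/-- restriction to an induced subgraph -/
theorem Rep.restrict {V W : Type} {G : SimpleGraph V} {G' : SimpleGraph W} {p : Option V → ℂ}
    {tt : V → V → ℝ} {b : V → V → Bool} {zg : V → V → ℂ} (R : Rep G p tt b zg) (f : W → V)
    (hf : Function.Injective f) (hadj : ∀ x y, G'.Adj x y ↔ G.Adj (f x) (f y)) :
    Rep G' (fun a => p (a.map f)) (fun x y => tt (f x) (f y)) (fun x y => b (f x) (f y))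
      (fun x y => zg (f x) (f y)) := by
  have hinj : Function.Injective (Option.map f) := Option.map_injective hf
  have hsub : drawing G' ((fun a => p (a.map f)) ∘ some) ⊆ drawing G (p ∘ some) := by
    rintro z (hz | ⟨v, rfl⟩)
    · obtain ⟨x, hx⟩ := Set.mem_iUnion.mp hz
      exact Or.inl (Set.mem_iUnion.mpr ⟨⟨(f x.1.1, f x.1.2), (hadj _ _).mp x.2⟩, hx⟩)
    · exact Or.inr ⟨f v, rfl⟩
  have ne : ∀ {x y : W}, x ≠ y → f x ≠ f y := fun h e => h (hf e)
  have na : ∀ {x y : W}, ¬ G'.Adj x y → ¬ G.Adj (f x) (f y) := fun h e => h ((hadj _ _).mpr e)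
  have zze : ∀ x y : W, zz (fun a => p (a.map f)) (fun x y => tt (f x) (f y)) x y
      = zz p tt (f x) (f y) := fun x y => rfl
  refine { gen := ?_, re_ne := ?_, tpos := ?_, tlt := ?_, tsymm := ?_, bsymm := ?_, out := ?_,
           inn := ?_, zmem := ?_, zsymm := ?_, zgen := ?_, zne := ?_, zpos := ?_, zths := ?_ }
  · intro a b c h1 h2 h3
    exact R.gen _ _ _ (hinj.ne h1) (hinj.ne h2) (hinj.ne h3)
  · intro a b h
    exact R.re_ne _ _ (hinj.ne h)
  · intro x y h1 h2; exact R.tpos _ _ (ne h1) (na h2)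
  · intro x y h1 h2; exact R.tlt _ _ (ne h1) (na h2)
  · intro x y h1 h2; exact R.tsymm _ _ (ne h1) (na h2)
  · intro x y; exact R.bsymm _ _
  · intro x y h1 h2 hb a l hcl hm hs
    rw [zze]
    exact R.out _ _ (ne h1) (na h2) hb a l hcl (fun m hm' => hsub (hm m hm')) (hs.trans hsub)
  · intro x y h1 h2 hb a l hcl hm hs
    rw [zze]
    exact R.inn _ _ (ne h1) (na h2) hb a l hcl (fun m hm' => hsub (hm m hm')) (hs.trans hsub)
  · intro x y h1 h2 hcon
    exact R.zmem _ _ (ne h1) (na h2) (hsub hcon)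
  · intro x y; exact R.zsymm _ _
  · intro x y h1 h2 u v h
    exact R.zgen _ _ (ne h1) (na h2) _ _ (hinj.ne h)
  · intro x y h1 h2 u
    exact R.zne _ _ (ne h1) (na h2) _
  · intro x y h1 h2 u v h
    exact R.zpos _ _ (ne h1) (na h2) _ _ h
  · intro x y h1 h2 a l hcl hs
    rw [zze]
    exact R.zths _ _ (ne h1) (na h2) a l hcl (hs.trans hsub)

/-- graph with hubs `Hb` and `N` copies of the unit `U` -/
def amal {Hb U : Type} (K : SimpleGraph (Hb ⊕ U)) (ι : Type) : SimpleGraph (Hb ⊕ U × ι) where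
  Adj x y := match x, y with
    | Sum.inl h, Sum.inl h' => K.Adj (Sum.inl h) (Sum.inl h')
    | Sum.inl h, Sum.inr (u, _) => K.Adj (Sum.inl h) (Sum.inr u)
    | Sum.inr (u, _), Sum.inl h => K.Adj (Sum.inr u) (Sum.inl h)
    | Sum.inr (u, i), Sum.inr (v, j) => i = j ∧ K.Adj (Sum.inr u) (Sum.inr v)
  symm := ⟨by
    rintro (h | ⟨u, i⟩) (h' | ⟨v, j⟩) hxy
    · exact K.symm.symm _ _ hxy
    · exact K.symm.symm _ _ hxy
    · exact K.symm.symm _ _ hxy
    · exact ⟨hxy.1.symm, K.symm.symm _ _ hxy.2⟩⟩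
  loopless := ⟨by
    rintro (h | ⟨u, i⟩) hxy
    · exact K.loopless.irrefl _ hxy
    · exact K.loopless.irrefl _ hxy.2⟩

/-- re-indexing of the copies -/
def reidx {Hb U ι κ : Type} (a : ι → κ) : Option (Hb ⊕ U × ι) → Option (Hb ⊕ U × κ) :=
  Option.map (Sum.map id (Prod.map id a))

def reidx' {Hb U ι κ : Type} (a : ι → κ) : (Hb ⊕ U × ι) → (Hb ⊕ U × κ) :=
  Sum.map id (Prod.map id a)

/-- homogeneity: signs and blocking flags of at most three copies only depend on the order pattern -/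
structure Hom {Hb U : Type} {M : ℕ} (s : Option (Hb ⊕ U × Fin M) → Option (Hb ⊕ U × Fin M) →
    Option (Hb ⊕ U × Fin M) → Bool) (b : (Hb ⊕ U × Fin M) → (Hb ⊕ U × Fin M) → Bool) : Prop where
  hs : ∀ a a' : Fin 3 → Fin M, StrictMono a → StrictMono a' →
    ∀ x y z : Option (Hb ⊕ U × Fin 3), s (reidx a x) (reidx a y) (reidx a z)
      = s (reidx a' x) (reidx a' y) (reidx a' z)
  hb : ∀ a a' : Fin 3 → Fin M, StrictMono a → StrictMono a' →
    ∀ x y : Hb ⊕ U × Fin 3, b (reidx' a x) (reidx' a y) = b (reidx' a' x) (reidx' a' y)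

theorem hom_of_rep {Hb U : Type} [Fintype Hb] [Fintype U] (K : SimpleGraph (Hb ⊕ U)) (M : ℕ) :
    ∃ N : ℕ, ∀ (p : Option (Hb ⊕ U × Fin N) → ℂ) (tt : (Hb ⊕ U × Fin N) → (Hb ⊕ U × Fin N) → ℝ)
      (b : (Hb ⊕ U × Fin N) → (Hb ⊕ U × Fin N) → Bool)
      (zg : (Hb ⊕ U × Fin N) → (Hb ⊕ U × Fin N) → ℂ), Rep (amal K (Fin N)) p tt b zg →
      ∃ (p' : Option (Hb ⊕ U × Fin M) → ℂ) (tt' : (Hb ⊕ U × Fin M) → (Hb ⊕ U × Fin M) → ℝ)
      (b' : (Hb ⊕ U × Fin M) → (Hb ⊕ U × Fin M) → Bool)
      (zg' : (Hb ⊕ U × Fin M) → (Hb ⊕ U × Fin M) → ℂ), Rep (amal K (Fin M)) p' tt' b' zg' ∧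
        Hom (sg p') b' := by
  classical
  let X := Option (Hb ⊕ U × Fin 3)
  let Y := Hb ⊕ U × Fin 3
  obtain ⟨N, hN⟩ := ramsey3 ((X → X → X → Bool) × (Y → Y → Bool)) M
  refine ⟨N, ?_⟩
  intro p tt b zg R
  -- colouring
  let F : (ℕ → ℕ → ℕ → Fin 3 → ℕ) := fun i j k => ![i, j, k]
  let c : ℕ → ℕ → ℕ → (X → X → X → Bool) × (Y → Y → Bool) := fun i j k =>
    if h : ∀ r, F i j k r < N then
      (fun x y z => sg p (reidx (fun r => ⟨F i j k r, h r⟩) x) (reidx (fun r => ⟨F i j k r, h r⟩) y)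
        (reidx (fun r => ⟨F i j k r, h r⟩) z),
       fun x y => b (reidx' (fun r => ⟨F i j k r, h r⟩) x) (reidx' (fun r => ⟨F i j k r, h r⟩) y))
    else (fun _ _ _ => true, fun _ _ => true)
  obtain ⟨f, c₀, f1, f2, f3⟩ := hN c
  let g : Fin M → Fin N := fun i => ⟨f i, f2 i i.2⟩
  have hg : StrictMono g := by
    intro i j hij
    exact f1 i j hij j.2
  have hginj : Function.Injective (reidx' (Hb := Hb) (U := U) g) := by
    unfold reidx'
    exact Function.Injective.sumMap Function.injective_id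
      (Function.Injective.prodMap Function.injective_id hg.injective)
  have R' := R.restrict (G' := amal K (Fin M)) (reidx' g) hginj (by
    rintro (x | ⟨u, i⟩) (y | ⟨v, j⟩)
    · exact Iff.rfl
    · exact Iff.rfl
    · exact Iff.rfl
    · constructor
      · rintro ⟨h1, h2⟩
        exact ⟨by rw [h1], h2⟩
      · rintro ⟨h1, h2⟩
        exact ⟨hg.injective h1, h2⟩)
  refine ⟨_, _, _, _, R', ?_⟩
  have key : ∀ a : Fin 3 → Fin M, StrictMono a →
      (∀ x y z : X, sg (fun o => p (o.map (reidx' g))) (reidx a x) (reidx a y) (reidx a z)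
        = c₀.1 x y z) ∧
      (∀ x y : Y, b (reidx' g (reidx' a x)) (reidx' g (reidx' a y)) = c₀.2 x y) := by
    intro a ha
    have h01 : a 0 < a 1 := ha (by decide)
    have h12 : a 1 < a 2 := ha (by decide)
    have hc := f3 (a 0) (a 1) (a 2) h01 h12 (a 2).2
    have hF : ∀ r, F (f (a 0)) (f (a 1)) (f (a 2)) r = (g (a r) : ℕ) := by
      intro r
      fin_cases r <;> rfl
    have hlt : ∀ r, F (f (a 0)) (f (a 1)) (f (a 2)) r < N := by
      intro r; rw [hF r]; exact (g (a r)).2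
    have hc' : c (f (a 0)) (f (a 1)) (f (a 2)) =
        (fun x y z => sg p (reidx (fun r => g (a r)) x) (reidx (fun r => g (a r)) y)
          (reidx (fun r => g (a r)) z),
         fun x y => b (reidx' (fun r => g (a r)) x) (reidx' (fun r => g (a r)) y)) := by
      have e : (fun r => (⟨F (f (a 0)) (f (a 1)) (f (a 2)) r, hlt r⟩ : Fin N))
          = fun r => g (a r) := by
        funext r
        exact Fin.ext (hF r)
      simp only [c]
      rw [dif_pos hlt, e]
    rw [hc'] at hc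
    have r1 : ∀ x : X, (reidx a x).map (reidx' g) = reidx (fun r => g (a r)) x := by
      intro x
      rcases x with _ | (h | ⟨u, i⟩) <;> rfl
    have r2 : ∀ x : Y, reidx' g (reidx' a x) = reidx' (fun r => g (a r)) x := by
      intro x
      rcases x with h | ⟨u, i⟩ <;> rfl
    constructor
    · intro x y z
      have := congrFun (congrFun (congrFun (congrArg Prod.fst hc) x) y) z
      rw [← this]
      unfold sg
      simp only [r1]
    · intro x y
      have := congrFun (congrFun (congrArg Prod.snd hc) x) y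
      rw [← this, r2, r2]
  constructor
  · intro a a' ha ha' x y z
    rw [(key a ha).1, (key a' ha').1]
  · intro a a' ha ha' x y
    have h1 := (key a ha).2 x y
    have h2 := (key a' ha').2 x y
    rw [h1, h2]

/-- coordinates for shifted copies -/
noncomputable def ci {V W : Type} (c : V → ℤ × ℤ) (K : ℤ) (π : W → V) (enc : W → ℕ) (x : W) :
    ℝ × ℝ := (((c (π x)).1 : ℝ) + ((K : ℝ) + 1) * (enc x : ℝ), ((c (π x)).2 : ℝ))

theorem planar_idx {V W : Type} {G : SimpleGraph V} (H : SimpleGraph W) {c : V → ℤ × ℤ} {K : ℤ}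
    (D : GridDrawing G c K) (π : W → V) (enc : W → ℕ)
    (hinj : ∀ x y, π x = π y → enc x = enc y → x = y)
    (hadj : ∀ x y, H.Adj x y → enc x = enc y ∧ G.Adj (π x) (π y)) : PlanarF H := by
  have hslab : ∀ x : W, ((K : ℝ) + 1) * (enc x : ℝ) ≤ (ci c K π enc x).1 ∧
      (ci c K π enc x).1 ≤ ((K : ℝ) + 1) * (enc x : ℝ) + K := by
    intro x
    have h0 : (0 : ℝ) ≤ ((c (π x)).1 : ℝ) := by exact_mod_cast (D.box (π x)).1
    have h1 : ((c (π x)).1 : ℝ) ≤ (K : ℝ) := by exact_mod_cast (D.box (π x)).2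
    unfold ci
    constructor
    · simp only; linarith
    · simp only; linarith
  have hdr : ∀ x y z : W, enc x = enc y → enc x = enc z →
      dr (ci c K π enc x) (ci c K π enc y) (ci c K π enc z)
        = ((oz (c (π x)) (c (π y)) (c (π z)) : ℤ) : ℝ) := by
    intro x y z h1 h2
    unfold dr ci oz
    rw [← h1, ← h2]
    push_cast
    ring
  have hdisj : ∀ x y z w : W, enc x = enc y → enc z = enc w → enc x ≠ enc z →
      Disjoint (segment ℝ (ci c K π enc x) (ci c K π enc y))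
        (segment ℝ (ci c K π enc z) (ci c K π enc w)) := by
    intro x y z w h1 h2 h3
    rw [Set.disjoint_left]
    intro u hu hu'
    have hK : (0 : ℝ) ≤ (K : ℝ) := by
      have h0 := (D.box (π x)).1.trans (D.box (π x)).2
      exact_mod_cast h0
    have b1 := (segment_fst hu).1 _ (hslab x).2 (by rw [h1]; exact (hslab y).2)
    have b2 := (segment_fst hu).2 _ (hslab x).1 (by rw [h1]; exact (hslab y).1)
    have b3 := (segment_fst hu').1 _ (hslab z).2 (by rw [h2]; exact (hslab w).2)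
    have b4 := (segment_fst hu').2 _ (hslab z).1 (by rw [h2]; exact (hslab w).1)
    rcases lt_or_gt_of_ne h3 with h | h
    · have : (enc x : ℝ) + 1 ≤ (enc z : ℝ) := by exact_mod_cast h
      nlinarith
    · have : (enc z : ℝ) + 1 ≤ (enc x : ℝ) := by exact_mod_cast h
      nlinarith
  apply planar_of H (ci c K π enc)
  · intro x y h
    have henc : enc x = enc y := by
      by_contra hne
      exact Set.disjoint_left.mp (hdisj x x y y rfl rfl hne) (left_mem_segment ℝ _ _)
        (h ▸ left_mem_segment ℝ _ _)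
    apply hinj x y _ henc
    by_contra hne
    apply D.inj _ _ hne
    unfold ci at h
    have h1 := congrArg Prod.fst h
    have h2 := congrArg Prod.snd h
    simp only at h1 h2
    rw [henc] at h1
    have h3 : ((c (π x)).1 : ℝ) = ((c (π y)).1 : ℝ) := by linarith
    exact Prod.ext (by exact_mod_cast h3) (by exact_mod_cast h2)
  · intro x y z hxy hzx hzy hz
    obtain ⟨e1, g1⟩ := hadj x y hxy
    by_cases hez : enc x = enc z
    · have hzx' : π z ≠ π x := fun e => hzx (hinj z x e hez.symm)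
      have hzy' : π z ≠ π y := fun e => hzy (hinj z y e (hez.symm.trans e1))
      have := dr_segment hz
      rw [hdr x y z e1 hez] at this
      exact D.gen _ _ _ g1.ne hzy'.symm hzx'.symm (by exact_mod_cast this)
    · exact Set.disjoint_left.mp (hdisj x y z z e1 rfl hez) hz (left_mem_segment ℝ _ _)
  · intro x y z w hxy hzw h1 h2 h3 h4
    obtain ⟨e1, g1⟩ := hadj x y hxy
    obtain ⟨e2, g2⟩ := hadj z w hzw
    by_cases hez : enc x = enc z
    · have n1 : π x ≠ π z := fun e => h1 (hinj _ _ e hez)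
      have n2 : π x ≠ π w := fun e => h2 (hinj _ _ e (hez.trans e2))
      have n3 : π y ≠ π z := fun e => h3 (hinj _ _ e (e1.symm.trans hez))
      have n4 : π y ≠ π w := fun e => h4 (hinj _ _ e (e1.symm.trans (hez.trans e2)))
      rcases D.sep _ _ _ _ g1 g2 n1 n2 n3 n4 with hs | hs
      · apply dr_sep
        rw [hdr x y z e1 hez, hdr x y w e1 (hez.trans e2)]
        exact_mod_cast hs
      · apply Disjoint.symm
        apply dr_sep
        rw [hdr z w x e2 hez.symm, hdr z w y e2 (hez.symm.trans e1)]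
        exact_mod_cast hs
    · exact hdisj x y z w e1 e2 hez
  · intro x y z hxy hxz hyz u hu hu'
    obtain ⟨e1, g1⟩ := hadj x y hxy
    obtain ⟨e2, g2⟩ := hadj x z hxz
    have n : π y ≠ π z := fun e => hyz (hinj _ _ e (e1.symm.trans e2))
    apply dr_share _ hu hu'
    rw [hdr x y z e1 e2]
    exact_mod_cast D.gen _ _ _ g1.ne n g2.ne

/-- planarity of disjoint copies (no hubs) -/
theorem planar_copies {U : Type} {K : SimpleGraph (Empty ⊕ U)} {c : U → ℤ × ℤ} {L : ℤ}
    {G : SimpleGraph U} (hG : ∀ u v, K.Adj (Sum.inr u) (Sum.inr v) → G.Adj u v)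
    (D : GridDrawing G c L) (N : ℕ) : PlanarF (two (amal K (Fin N))) := by
  let π : (Empty ⊕ U × Fin N) × Bool → U := fun x => match x.1 with
    | Sum.inl e => e.elim
    | Sum.inr (u, _) => u
  let enc : (Empty ⊕ U × Fin N) × Bool → ℕ := fun x => match x with
    | (Sum.inl e, _) => e.elim
    | (Sum.inr (_, i), b) => 2 * (i : ℕ) + (if b then 1 else 0)
  apply planar_idx (two (amal K (Fin N))) D π enc
  · rintro ⟨e | ⟨u, i⟩, b⟩ ⟨e' | ⟨v, j⟩, b'⟩ h1 h2
    · exact e.elim
    · exact e.elim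
    · exact e'.elim
    · have h3 : 2 * (i : ℕ) + (if b then 1 else 0) = 2 * (j : ℕ) + (if b' then 1 else 0) := h2
      have h4 : u = v := h1
      subst h4
      rcases b <;> rcases b' <;> simp at h3
      · have : i = j := Fin.ext h3
        rw [this]
      · omega
      · omega
      · have : i = j := Fin.ext h3
        rw [this]
  · rintro ⟨e | ⟨u, i⟩, b⟩ ⟨e' | ⟨v, j⟩, b'⟩ ⟨h1, h2⟩
    · exact e.elim
    · exact e.elim
    · exact e'.elim
    · simp only at h1
      subst h1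
      obtain ⟨h3, h4⟩ := h2
      subst h3
      exact ⟨rfl, hG u v h4⟩

/-- Final reduction for graphs with hubs: planarity for every number of copies, and no
homogeneous system. -/
theorem final_hom {Hb U : Type} [Fintype Hb] [Fintype U] [DecidableEq Hb] [DecidableEq U]
    [Nonempty U] (K : SimpleGraph (Hb ⊕ U)) (M : ℕ)
    (hpl : ∀ N : ℕ, PlanarF (two (amal K (Fin N))))
    (hno : ∀ (s : Option (Hb ⊕ U × Fin M) → Option (Hb ⊕ U × Fin M) →
        Option (Hb ⊕ U × Fin M) → Bool) (b : (Hb ⊕ U × Fin M) → (Hb ⊕ U × Fin M) → Bool)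
      (σ : (Hb ⊕ U × Fin M) → (Hb ⊕ U × Fin M) → Option (Hb ⊕ U × Fin M) →
        Option (Hb ⊕ U × Fin M) → Bool), Sys (amal K (Fin M)) s b σ → ¬ Hom s b) :
    ¬ (∀ (V : Type) [Fintype V] (G : SimpleGraph V),
      (∃ (p : V → ℝ × ℝ) (γ : ∀ u v : V, Path (p u) (p v)),
          Function.Injective p ∧
          (∀ u v : V, G.Adj u v → Function.Injective ⇑(γ u v)) ∧
          (∀ u v w : V, G.Adj u v → p w ∈ Set.range ⇑(γ u v) → w = u ∨ w = v) ∧
          (∀ u v w x : V, G.Adj u v → G.Adj w x → ¬ (w = u ∧ x = v) → ¬ (w = v ∧ x = u) →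
            ∀ z : ℝ × ℝ, z ∈ Set.range ⇑(γ u v) → z ∈ Set.range ⇑(γ w x) →
              z = p u ∨ z = p v)) →
      ∃ (q : V → ℝ × ℝ) (O₁ O₂ : Set (ℝ × ℝ)),
        Function.Injective q ∧ IsPreconnected O₁ ∧ IsPreconnected O₂ ∧
        (∀ v : V, q v ∉ O₁ ∪ O₂) ∧
        (∀ u v : V, u ≠ v → (G.Adj u v ↔ Disjoint (segment ℝ (q u) (q v)) (O₁ ∪ O₂)))) := by
  intro hall
  obtain ⟨N, hN⟩ := hom_of_rep K M
  obtain ⟨q, O₁, O₂, h1, h2, h3, h4, h5⟩ := hall _ (two (amal K (Fin (N + 1)))) (hpl (N + 1))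
  haveI : Nonempty (Hb ⊕ U × Fin (N + 1)) := ⟨Sum.inr (Classical.arbitrary U, 0)⟩
  obtain ⟨p, tt, b, zg, R⟩ := rep_of_two (amal K (Fin (N + 1))) q O₁ O₂ h1 h2 h3 h4 h5
  have hinj : Function.Injective (reidx' (Hb := Hb) (U := U) (Fin.castSucc : Fin N → Fin (N + 1))) := by
    unfold reidx'
    exact Function.Injective.sumMap Function.injective_id
      (Function.Injective.prodMap Function.injective_id (Fin.castSucc_injective N))
  have R₁ := R.restrict (G' := amal K (Fin N)) (reidx' Fin.castSucc) hinj (by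
    rintro (x | ⟨u, i⟩) (y | ⟨v, j⟩)
    · exact Iff.rfl
    · exact Iff.rfl
    · exact Iff.rfl
    · constructor
      · rintro ⟨h1, h2⟩
        exact ⟨by rw [h1], h2⟩
      · rintro ⟨h1, h2⟩
        exact ⟨Fin.castSucc_injective N h1, h2⟩)
  obtain ⟨p', tt', b', zg', R', hom⟩ := hN _ _ _ _ R₁
  exact hno _ _ _ (sys_of_rep R') hom

end Pool.Agent.Helper12.Obs
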