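import Pool.Agent.Helper12.Obs.Cap

set_option autoImplicit false

namespace Pool.Agent.Helper12.Obs

open Complex Metric

theorem quad_coeff (A B D : ℝ) : (Polynomial.C A + Polynomial.C B * Polynomial.X +
    Polynomial.C D * Polynomial.X ^ 2 : Polynomial ℝ).coeff 2 = D := by
  simp

theorem quad_coeff1 (A B D : ℝ) : (Polynomial.C A + Polynomial.C B * Polynomial.X +
    Polynomial.C D * Polynomial.X ^ 2 : Polynomial ℝ).coeff 1 = B := by
  simp [Polynomial.coeff_X_pow, Polynomial.coeff_C]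

/-- compact connected sets through finitely many points of an open connected set -/
theorem exists_compact_connected {U : Set ℂ} (hU : IsOpen U) (hc : IsConnected U) (b : ℂ)
    (hb : b ∈ U) (F : Finset ℂ) (hF : ∀ z ∈ F, z ∈ U) :
    ∃ K : Set ℂ, IsCompact K ∧ IsConnected K ∧ K ⊆ U ∧ b ∈ K ∧ ∀ z ∈ F, z ∈ K := by
  classical
  have hp : IsPathConnected U := hU.isConnected_iff_isPathConnected.mp hc
  induction F using Finset.induction_on with
  | empty => exact ⟨{b}, isCompact_singleton, isConnected_singleton, by simpa using hb, by simp,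
      by simp⟩
  | insert z F hz ih =>
    obtain ⟨K, h1, h2, h3, h4, h5⟩ := ih (fun w hw => hF w (Finset.mem_insert_of_mem hw))
    obtain ⟨γ, hγ⟩ := hp.joinedIn b hb z (hF z (Finset.mem_insert_self _ _))
    refine ⟨K ∪ Set.range γ, h1.union (isCompact_range γ.continuous), ?_, ?_, Or.inl h4, ?_⟩
    · exact IsConnected.union ⟨b, h4, ⟨0, γ.source⟩⟩ h2 (isConnected_range γ.continuous)
    · rintro w (hw | ⟨s, rfl⟩)
      · exact h3 hw
      · exact hγ s
    · intro w hw
      rcases Finset.mem_insert.mp hw with rfl | hw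
      · exact Or.inr ⟨1, γ.target⟩
      · exact Or.inl (h5 w hw)

theorem isConnected_thickening {K : Set ℂ} (hK : IsConnected K) {δ : ℝ} (hδ : 0 < δ) :
    IsConnected (thickening δ K) := by
  rw [← add_ball_zero]
  have hb : IsConnected (ball (0 : ℂ) δ) := (convex_ball (0 : ℂ) δ).isConnected ⟨0, by simpa using hδ⟩
  have := (hK.prod hb).image (fun x : ℂ × ℂ => x.1 + x.2) (by fun_prop)
  rwa [Set.image_prod] at this

variable {A : Type} [Fintype A]

/-- moment curve perturbation reaches general position -/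
theorem exists_general (p : A → ℂ) {δ : ℝ} (hδ : 0 < δ) :
    ∃ p' : A → ℂ, (∀ a, dist (p' a) (p a) < δ) ∧
      (∀ a b c, a ≠ b → b ≠ c → a ≠ c → dt (p' a) (p' b) (p' c) ≠ 0) ∧
      (∀ a b, a ≠ b → (p' a).re ≠ (p' b).re) := by
  classical
  let t : A → ℝ := fun a => ((Fintype.equivFin A a : ℕ) : ℝ)
  have ht : Function.Injective t := by
    intro a b h
    have h1 : ((Fintype.equivFin A a : ℕ) : ℝ) = ((Fintype.equivFin A b : ℕ) : ℝ) := h
    have h2 : (Fintype.equivFin A a : ℕ) = (Fintype.equivFin A b : ℕ) := by exact_mod_cast h1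
    exact (Fintype.equivFin A).injective (Fin.ext h2)
  let m : A → ℂ := fun a => ⟨t a, (t a) ^ 2⟩
  let P : ℝ → A → ℂ := fun ε a => p a + (ε : ℂ) * m a
  -- bound
  obtain ⟨M, hM0, hM⟩ : ∃ M : ℝ, 0 < M ∧ ∀ a, ‖m a‖ ≤ M := by
    refine ⟨1 + ∑ a, ‖m a‖, by positivity, fun a => ?_⟩
    have : ‖m a‖ ≤ ∑ a, ‖m a‖ :=
      Finset.single_le_sum (f := fun a => ‖m a‖) (fun i _ => norm_nonneg _) (Finset.mem_univ a)
    linarith
  have hfin1 : ∀ a b c : A, a ≠ b → b ≠ c → a ≠ c →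
      Set.Finite {ε : ℝ | dt (P ε a) (P ε b) (P ε c) = 0} := by
    intro a b c hab hbc hac
    let q : Polynomial ℝ := Polynomial.C (dt (p a) (p b) (p c)) +
      Polynomial.C (((p b).re - (p a).re) * ((m c).im - (m a).im)
        + ((m b).re - (m a).re) * ((p c).im - (p a).im)
        - ((p b).im - (p a).im) * ((m c).re - (m a).re)
        - ((m b).im - (m a).im) * ((p c).re - (p a).re)) * Polynomial.X +
      Polynomial.C (dt (m a) (m b) (m c)) * Polynomial.X ^ 2
    have hq : q ≠ 0 := by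
      intro h0
      have h1 : q.coeff 2 = 0 := by rw [h0]; simp
      have h2 : q.coeff 2 = dt (m a) (m b) (m c) := quad_coeff _ _ _
      have h3 : dt (m a) (m b) (m c) = (t b - t a) * (t c - t a) * (t c - t b) := by
        simp only [dt, m]; ring
      rw [h2, h3] at h1
      have e1 : t b - t a ≠ 0 := sub_ne_zero.mpr (fun h => hab (ht h).symm)
      have e2 : t c - t a ≠ 0 := sub_ne_zero.mpr (fun h => hac (ht h).symm)
      have e3 : t c - t b ≠ 0 := sub_ne_zero.mpr (fun h => hbc (ht h).symm)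
      exact (mul_ne_zero (mul_ne_zero e1 e2) e3) h1
    refine (Polynomial.finite_setOfPred_isRoot hq).subset ?_
    intro ε hε
    simp only [Set.mem_ofPred_eq, Polynomial.IsRoot.def] at hε ⊢
    have : q.eval ε = dt (P ε a) (P ε b) (P ε c) := by
      simp only [q, P, dt, Polynomial.eval_add, Polynomial.eval_mul, Polynomial.eval_C,
        Polynomial.eval_X, Polynomial.eval_pow, add_re, add_im, mul_re, mul_im, ofReal_re,
        ofReal_im]
      ring
    rw [this, hε]
  have hfin2 : ∀ a b : A, a ≠ b → Set.Finite {ε : ℝ | (P ε a).re = (P ε b).re} := by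
    intro a b hab
    refine Set.Subsingleton.finite ?_
    intro x hx y hy
    simp only [Set.mem_ofPred_eq, P, add_re, mul_re, ofReal_re, ofReal_im, m] at hx hy
    have e1 : t a - t b ≠ 0 := sub_ne_zero.mpr (fun h => hab (ht h))
    have : (x - y) * (t a - t b) = 0 := by linarith
    rcases mul_eq_zero.mp this with h | h
    · linarith
    · exact absurd h e1
  have hbad : Set.Finite ((⋃ x : {x : A × A × A // x.1 ≠ x.2.1 ∧ x.2.1 ≠ x.2.2 ∧ x.1 ≠ x.2.2},
      {ε : ℝ | dt (P ε x.1.1) (P ε x.1.2.1) (P ε x.1.2.2) = 0}) ∪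
      (⋃ x : {x : A × A // x.1 ≠ x.2}, {ε : ℝ | (P ε x.1.1).re = (P ε x.1.2).re})) := by
    apply Set.Finite.union
    · exact Set.finite_iUnion (fun x => hfin1 _ _ _ x.2.1 x.2.2.1 x.2.2.2)
    · exact Set.finite_iUnion (fun x => hfin2 _ _ x.2)
  have hpos : 0 < δ / M := div_pos hδ hM0
  obtain ⟨ε, hε1, hε2⟩ := ((Set.Ioo_infinite hpos).sdiff hbad).nonempty
  refine ⟨P ε, ?_, ?_, ?_⟩
  · intro a
    simp only [P, dist_eq_norm, add_sub_cancel_left, norm_mul, Complex.norm_real, Real.norm_eq_abs,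
      abs_of_pos hε1.1]
    calc ε * ‖m a‖ ≤ ε * M := mul_le_mul_of_nonneg_left (hM a) hε1.1.le
      _ < δ / M * M := mul_lt_mul_of_pos_right hε1.2 hM0
      _ = δ := by field_simp
  · intro a b c hab hbc hac h0
    apply hε2
    left
    exact Set.mem_iUnion.mpr ⟨⟨(a, b, c), hab, hbc, hac⟩, h0⟩
  · intro a b hab h0
    apply hε2
    right
    exact Set.mem_iUnion.mpr ⟨⟨(a, b), hab⟩, h0⟩

/-- the drawing of `G` -/
def drawing {V : Type} (G : SimpleGraph V) (p : V → ℂ) : Set ℂ :=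
  (⋃ x : {x : V × V // G.Adj x.1 x.2}, segment ℝ (p x.1.1) (p x.1.2)) ∪ Set.range p

theorem isCompact_segment' (a b : ℂ) : IsCompact (segment ℝ a b) := by
  rw [segment_eq_image]
  exact (isCompact_Icc).image (by fun_prop)

theorem drawing_compact {V : Type} [Fintype V] (G : SimpleGraph V) (p : V → ℂ) :
    IsCompact (drawing G p) := by
  classical
  apply IsCompact.union
  · exact isCompact_iUnion (fun x => isCompact_segment' _ _)
  · exact (Set.finite_range p).isCompact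

theorem segment_subset_thickening {a b a' b' : ℂ} {δ : ℝ} (ha : dist a' a < δ)
    (hb : dist b' b < δ) : segment ℝ a' b' ⊆ thickening δ (segment ℝ a b) := by
  apply ((convex_segment a b).thickening δ).segment_subset
  · exact mem_thickening_iff.mpr ⟨a, left_mem_segment ℝ a b, ha⟩
  · exact mem_thickening_iff.mpr ⟨b, right_mem_segment ℝ a b, hb⟩

/-- Perturbation of a representation whose first obstacle sticks out of the convex hull. -/
theorem perturb {V : Type} [Fintype V] (G : SimpleGraph V) (p : V → ℂ) (O₁ O₂ : Set ℂ)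
    (h₁ : IsPreconnected O₁) (h₂ : IsPreconnected O₂)
    (hv : ∀ v, p v ∉ O₁ ∪ O₂)
    (hadj : ∀ u v, G.Adj u v → Disjoint (segment ℝ (p u) (p v)) (O₁ ∪ O₂))
    (hnon : ∀ u v, u ≠ v → ¬ G.Adj u v → ¬ Disjoint (segment ℝ (p u) (p v)) (O₁ ∪ O₂))
    (w : ℂ) (hw : w ∈ O₁) (hw' : w ∉ convexHull ℝ (Set.range p)) :
    ∃ (p' : Option V → ℂ) (N₁ N₂ : Set ℂ),
      (∀ a b c, a ≠ b → b ≠ c → a ≠ c → dt (p' a) (p' b) (p' c) ≠ 0) ∧
      (∀ a b, a ≠ b → (p' a).re ≠ (p' b).re) ∧
      IsPreconnected N₁ ∧ IsPreconnected N₂ ∧ IsOpen N₁ ∧ IsOpen N₂ ∧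
      Disjoint (drawing G (p' ∘ some)) (N₁ ∪ N₂) ∧
      (∀ u v, u ≠ v → ¬ G.Adj u v → ∃ t : ℝ, 0 < t ∧ t < 1 ∧
        p' (some u) + (t : ℂ) * (p' (some v) - p' (some u)) ∈ N₁ ∪ N₂) ∧
      w ∈ N₁ ∧ w ∉ convexHull ℝ (Set.range (p' ∘ some)) ∧ (N₂ = ∅ ∨ p' none ∈ N₂) := by
  classical
  set D := drawing G p with hD
  have hDc : IsCompact D := drawing_compact G p
  have hDd : Disjoint (O₁ ∪ O₂) D := by
    rw [Set.disjoint_left]
    rintro z hz (hz' | ⟨v, rfl⟩)
    · obtain ⟨x, hx⟩ := Set.mem_iUnion.mp hz'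
      exact Set.disjoint_left.mp (hadj _ _ x.2) hx hz
    · exact hv v hz
  have hDo : IsOpen Dᶜ := hDc.isClosed.isOpen_compl
  -- blocking points
  have hz : ∀ u v, u ≠ v → ¬ G.Adj u v → ∃ t : ℝ, 0 < t ∧ t < 1 ∧
      p u + (t : ℂ) * (p v - p u) ∈ O₁ ∪ O₂ := by
    intro u v huv hna
    obtain ⟨z, hz1, hz2⟩ := Set.not_disjoint_iff.mp (hnon u v huv hna)
    rw [segment_eq_image'] at hz1
    obtain ⟨t, ⟨ht0, ht1⟩, rfl⟩ := hz1
    simp only [Complex.real_smul] at hz2
    refine ⟨t, lt_of_le_of_ne ht0 ?_, lt_of_le_of_ne ht1 ?_, hz2⟩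
    · rintro rfl
      apply hv u
      simpa using hz2
    · rintro rfl
      apply hv v
      simpa using hz2
  choose! t ht0 ht1 htO using hz
  let Z : V × V → ℂ := fun x => p x.1 + (t x.1 x.2 : ℂ) * (p x.2 - p x.1)
  have hZ : ∀ x : V × V, x.1 ≠ x.2 → ¬ G.Adj x.1 x.2 → Z x ∈ O₁ ∪ O₂ :=
    fun x h1 h2 => htO x.1 x.2 h1 h2
  let NE : Finset (V × V) := Finset.univ.filter (fun x => x.1 ≠ x.2 ∧ ¬ G.Adj x.1 x.2)
  let F₁ : Finset ℂ := (NE.filter (fun x => Z x ∈ O₁)).image Z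
  let F₂ : Finset ℂ := (NE.filter (fun x => Z x ∈ O₂)).image Z
  have hF₁ : ∀ z ∈ F₁, z ∈ O₁ := by
    intro z hz
    obtain ⟨x, hx, rfl⟩ := Finset.mem_image.mp hz
    exact (Finset.mem_filter.mp hx).2
  have hF₂ : ∀ z ∈ F₂, z ∈ O₂ := by
    intro z hz
    obtain ⟨x, hx, rfl⟩ := Finset.mem_image.mp hz
    exact (Finset.mem_filter.mp hx).2
  -- compact connected sets
  have comp : ∀ (O : Set ℂ) (F : Finset ℂ) (b : ℂ), IsPreconnected O → O ⊆ Dᶜ → b ∈ O →
      (∀ z ∈ F, z ∈ O) → ∃ K : Set ℂ, IsCompact K ∧ IsConnected K ∧ K ⊆ Dᶜ ∧ b ∈ K ∧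
        ∀ z ∈ F, z ∈ K := by
    intro O F b hO hOD hb hF
    have hsub := hO.subset_connectedComponentIn hb hOD
    obtain ⟨K, k1, k2, k3, k4, k5⟩ := exists_compact_connected
      (U := connectedComponentIn Dᶜ b) hDo.connectedComponentIn
      (isConnected_connectedComponentIn_iff.mpr (hOD hb)) b (hsub hb) F
      (fun z hz => hsub (hF z hz))
    exact ⟨K, k1, k2, k3.trans (connectedComponentIn_subset _ _), k4, k5⟩
  have hO₁D : O₁ ⊆ Dᶜ := fun z hz hz' => Set.disjoint_left.mp hDd (Or.inl hz) hz'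
  have hO₂D : O₂ ⊆ Dᶜ := fun z hz hz' => Set.disjoint_left.mp hDd (Or.inr hz) hz'
  obtain ⟨K₁, a1, a2, a3, a4, a5⟩ := comp O₁ F₁ w h₁ hO₁D hw hF₁
  obtain ⟨K₂, q0, b1, b2, b3, b4, b5⟩ : ∃ (K₂ : Set ℂ) (q0 : ℂ), IsCompact K₂ ∧
      IsPreconnected K₂ ∧ K₂ ⊆ Dᶜ ∧ (K₂ = ∅ ∨ IsConnected K₂ ∧ q0 ∈ K₂) ∧ ∀ z ∈ F₂, z ∈ K₂ := by
    rcases O₂.eq_empty_or_nonempty with he | ⟨b, hb⟩
    · refine ⟨∅, 0, isCompact_empty, isPreconnected_empty, Set.empty_subset _, Or.inl rfl, ?_⟩
      intro z hz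
      have := hF₂ z hz
      rw [he] at this
      exact this
    · obtain ⟨K, k1, k2, k3, k4, k5⟩ := comp O₂ F₂ b h₂ hO₂D hb hF₂
      exact ⟨K, b, k1, k2.isPreconnected, k3, Or.inr ⟨k2, k4⟩, k5⟩
  have hKD : Disjoint (K₁ ∪ K₂) D := by
    rw [Set.disjoint_left]
    rintro z (hz | hz) hz'
    · exact a3 hz hz'
    · exact b3 hz hz'
  obtain ⟨δ₁, hδ₁, hdis⟩ := hKD.exists_thickenings (a1.union b1) hDc.isClosed
  have hHc : IsClosed (convexHull ℝ (Set.range p)) :=
    (Set.Finite.isCompact_convexHull (𝕜 := ℝ) (Set.finite_range p)).isClosed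
  have hwd : Disjoint ({w} : Set ℂ) (convexHull ℝ (Set.range p)) := by
    rw [Set.disjoint_singleton_left]; exact hw'
  obtain ⟨δ₂, hδ₂, hdis2⟩ := hwd.exists_thickenings isCompact_singleton hHc
  set δ := min δ₁ δ₂ with hδ
  have hδpos : 0 < δ := lt_min hδ₁ hδ₂
  let p0 : Option V → ℂ := fun a => a.elim q0 p
  obtain ⟨p', c1, c2, c3⟩ := exists_general p0 hδpos
  have hsome : ∀ v, dist (p' (some v)) (p v) < δ := fun v => c1 (some v)
  have hsub1 : thickening δ (K₁ ∪ K₂) ⊆ thickening δ₁ (K₁ ∪ K₂) := thickening_mono (min_le_left _ _) _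
  have hsub2 : thickening δ D ⊆ thickening δ₁ D := thickening_mono (min_le_left _ _) _
  refine ⟨p', thickening δ K₁, thickening δ K₂, c2, c3, ?_, ?_, isOpen_thickening,
    isOpen_thickening, ?_, ?_, ?_, ?_, ?_⟩
  · exact (isConnected_thickening a2 hδpos).isPreconnected
  · rcases b4 with he | ⟨hc, _⟩
    · rw [he]; simpa using isPreconnected_empty
    · exact (isConnected_thickening hc hδpos).isPreconnected
  · have e1 : drawing G (p' ∘ some) ⊆ thickening δ D := by
      rintro z (hz | ⟨v, rfl⟩)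
      · obtain ⟨x, hx⟩ := Set.mem_iUnion.mp hz
        have := segment_subset_thickening (hsome x.1.1) (hsome x.1.2) hx
        exact thickening_subset_of_subset δ
          (fun y hy => Or.inl (Set.mem_iUnion.mpr ⟨x, hy⟩)) this
      · exact mem_thickening_iff.mpr ⟨p v, Or.inr ⟨v, rfl⟩, hsome v⟩
    have e2 : thickening δ K₁ ∪ thickening δ K₂ ⊆ thickening δ₁ (K₁ ∪ K₂) := by
      rintro z (hz | hz)
      · exact hsub1 (thickening_subset_of_subset δ Set.subset_union_left hz)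
      · exact hsub1 (thickening_subset_of_subset δ Set.subset_union_right hz)
    exact (hdis.mono e2 (e1.trans hsub2)).symm
  · intro u v huv hna
    refine ⟨t u v, ht0 u v huv hna, ht1 u v huv hna, ?_⟩
    have hNE : (u, v) ∈ NE := by simp [NE, huv, hna]
    have hZK : Z (u, v) ∈ K₁ ∪ K₂ := by
      rcases hZ (u, v) huv hna with h | h
      · exact Or.inl (a5 _ (Finset.mem_image.mpr ⟨(u, v), Finset.mem_filter.mpr ⟨hNE, h⟩, rfl⟩))
      · exact Or.inr (b5 _ (Finset.mem_image.mpr ⟨(u, v), Finset.mem_filter.mpr ⟨hNE, h⟩, rfl⟩))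
    have hdist : dist (p' (some u) + (t u v : ℂ) * (p' (some v) - p' (some u))) (Z (u, v)) < δ := by
      have e : p' (some u) + (t u v : ℂ) * (p' (some v) - p' (some u)) - Z (u, v)
          = ((1 - t u v : ℝ) : ℂ) * (p' (some u) - p u) + ((t u v : ℝ) : ℂ) * (p' (some v) - p v) := by
        simp only [Z]; push_cast; ring
      rw [dist_eq_norm, e]
      have n1 : ‖p' (some u) - p u‖ < δ := by rw [← dist_eq_norm]; exact hsome u
      have n2 : ‖p' (some v) - p v‖ < δ := by rw [← dist_eq_norm]; exact hsome v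
      have g0 := ht0 u v huv hna
      have g1 := ht1 u v huv hna
      calc ‖((1 - t u v : ℝ) : ℂ) * (p' (some u) - p u) + ((t u v : ℝ) : ℂ) * (p' (some v) - p v)‖
          ≤ ‖((1 - t u v : ℝ) : ℂ) * (p' (some u) - p u)‖ + ‖((t u v : ℝ) : ℂ) * (p' (some v) - p v)‖ :=
            norm_add_le _ _
        _ = (1 - t u v) * ‖p' (some u) - p u‖ + t u v * ‖p' (some v) - p v‖ := by
            rw [norm_mul, norm_mul, Complex.norm_real, Complex.norm_real, Real.norm_eq_abs,
              Real.norm_eq_abs, abs_of_pos g0, abs_of_pos (by linarith : (0 : ℝ) < 1 - t u v)]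
        _ < (1 - t u v) * δ + t u v * δ := by
            have := mul_lt_mul_of_pos_left n1 (by linarith : (0 : ℝ) < 1 - t u v)
            have := mul_lt_mul_of_pos_left n2 g0
            linarith
        _ = δ := by ring
    rcases hZK with h | h
    · exact Or.inl (mem_thickening_iff.mpr ⟨_, h, hdist⟩)
    · exact Or.inr (mem_thickening_iff.mpr ⟨_, h, hdist⟩)
  · exact self_subset_thickening hδpos _ a4
  · intro hcon
    have e1 : convexHull ℝ (Set.range (p' ∘ some)) ⊆ thickening δ₂ (convexHull ℝ (Set.range p)) := by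
      apply convexHull_min
      · rintro _ ⟨v, rfl⟩
        exact mem_thickening_iff.mpr ⟨p v, subset_convexHull ℝ _ ⟨v, rfl⟩,
          lt_of_lt_of_le (hsome v) (min_le_right _ _)⟩
      · exact (convex_convexHull ℝ _).thickening δ₂
    exact Set.disjoint_left.mp hdis2 (self_subset_thickening hδ₂ _ rfl) (e1 hcon)
  · rcases b4 with he | ⟨_, hq⟩
    · left; rw [he]; simp
    · right
      exact mem_thickening_iff.mpr ⟨q0, hq, c1 none⟩

end Pool.Agent.Helper12.Obs
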