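import Pool.Agent.Helper12.Obs.Red

set_option autoImplicit false

namespace Pool.Agent.Helper12.Obs

/-- planarity in the format of the frozen statement -/
def PlanarF {V : Type} (G : SimpleGraph V) : Prop :=
  ∃ (p : V → ℝ × ℝ) (γ : ∀ u v : V, Path (p u) (p v)),
    Function.Injective p ∧
    (∀ u v : V, G.Adj u v → Function.Injective ⇑(γ u v)) ∧
    (∀ u v w : V, G.Adj u v → p w ∈ Set.range ⇑(γ u v) → w = u ∨ w = v) ∧
    (∀ u v w x : V, G.Adj u v → G.Adj w x → ¬ (w = u ∧ x = v) → ¬ (w = v ∧ x = u) →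
      ∀ z : ℝ × ℝ, z ∈ Set.range ⇑(γ u v) → z ∈ Set.range ⇑(γ w x) →
        z = p u ∨ z = p v)

/-- the straight path -/
noncomputable def lin (a b : ℝ × ℝ) : Path a b where
  toFun t := AffineMap.lineMap a b (t : ℝ)
  continuous_toFun := by
    exact (AffineMap.lineMap_continuous).comp continuous_subtype_val
  source' := by simp
  target' := by simp

theorem range_lin (a b : ℝ × ℝ) : Set.range (lin a b) ⊆ segment ℝ a b := by
  rintro _ ⟨t, rfl⟩
  rw [segment_eq_image_lineMap]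
  exact ⟨t, t.2, rfl⟩

theorem lin_injective {a b : ℝ × ℝ} (h : a ≠ b) : Function.Injective (lin a b) := by
  intro s t hst
  have : AffineMap.lineMap a b (s : ℝ) = AffineMap.lineMap a b (t : ℝ) := hst
  have h2 := AffineMap.lineMap_injective ℝ h this
  exact Subtype.ext h2

theorem planar_of {V : Type} (G : SimpleGraph V) (p : V → ℝ × ℝ) (hp : Function.Injective p)
    (P1 : ∀ u v w, G.Adj u v → w ≠ u → w ≠ v → p w ∉ segment ℝ (p u) (p v))
    (P2 : ∀ u v w x, G.Adj u v → G.Adj w x → u ≠ w → u ≠ x → v ≠ w → v ≠ x →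
      Disjoint (segment ℝ (p u) (p v)) (segment ℝ (p w) (p x)))
    (P3 : ∀ u v w, G.Adj u v → G.Adj u w → v ≠ w → ∀ z, z ∈ segment ℝ (p u) (p v) →
      z ∈ segment ℝ (p u) (p w) → z = p u) : PlanarF G := by
  refine ⟨p, fun u v => lin (p u) (p v), hp, ?_, ?_, ?_⟩
  · intro u v h
    exact lin_injective (fun e => h.ne (hp e))
  · intro u v w h hw
    by_contra hcon
    push Not at hcon
    exact P1 u v w h hcon.1 hcon.2 (range_lin _ _ hw)
  · intro u v w x huv hwx h1 h2 z hz hz'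
    replace hz := range_lin _ _ hz
    replace hz' := range_lin _ _ hz'
    by_cases e1 : u = w
    · subst e1
      have hvx : v ≠ x := fun e => h1 ⟨rfl, e.symm⟩
      exact Or.inl (P3 u v x huv hwx hvx z hz hz')
    by_cases e2 : u = x
    · subst e2
      have hvw : v ≠ w := fun e => h2 ⟨e.symm, rfl⟩
      rw [segment_symm] at hz'
      exact Or.inl (P3 u v w huv hwx.symm hvw z hz hz')
    by_cases e3 : v = w
    · subst e3
      have : u ≠ x := e2
      rw [segment_symm] at hz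
      exact Or.inr (P3 v u x huv.symm hwx this z hz hz')
    by_cases e4 : v = x
    · subst e4
      rw [segment_symm] at hz hz'
      exact Or.inr (P3 v u w huv.symm hwx.symm e1 z hz hz')
    exact absurd hz' (Set.disjoint_left.mp (P2 u v w x huv hwx e1 e2 e3 e4) hz)

/-- orientation in `ℝ × ℝ` -/
noncomputable def dr (a b c : ℝ × ℝ) : ℝ := (b.1 - a.1) * (c.2 - a.2) - (b.2 - a.2) * (c.1 - a.1)

/-- orientation in `ℤ × ℤ` -/
def oz (a b c : ℤ × ℤ) : ℤ := (b.1 - a.1) * (c.2 - a.2) - (b.2 - a.2) * (c.1 - a.1)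

theorem dr_segment {a b z : ℝ × ℝ} (h : z ∈ segment ℝ a b) : dr a b z = 0 := by
  rw [segment_eq_image'] at h
  obtain ⟨t, _, rfl⟩ := h
  unfold dr
  simp only [Prod.fst_add, Prod.snd_add, Prod.smul_fst, Prod.smul_snd, Prod.fst_sub, Prod.snd_sub,
    smul_eq_mul]
  ring

theorem dr_sep {a b c d : ℝ × ℝ} (h : 0 < dr a b c * dr a b d) :
    Disjoint (segment ℝ a b) (segment ℝ c d) := by
  rw [Set.disjoint_left]
  intro z hz hz'
  have h0 := dr_segment hz
  rw [segment_eq_image'] at hz'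
  obtain ⟨t, ⟨t0, t1⟩, rfl⟩ := hz'
  have e : dr a b (c + t • (d - c)) = (1 - t) * dr a b c + t * dr a b d := by
    unfold dr
    simp only [Prod.fst_add, Prod.snd_add, Prod.smul_fst, Prod.smul_snd, Prod.fst_sub, Prod.snd_sub,
      smul_eq_mul]
    ring
  rw [e] at h0
  rcases pos_and_pos_or_neg_and_neg_of_mul_pos h with ⟨h1, h2⟩ | ⟨h1, h2⟩
  · rcases t0.eq_or_lt with h | h
    · rw [← h] at h0; linarith
    · have := mul_pos h h2
      have := mul_nonneg (by linarith : (0:ℝ) ≤ 1 - t) h1.le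
      linarith
  · rcases t0.eq_or_lt with h | h
    · rw [← h] at h0; linarith
    · have := mul_neg_of_pos_of_neg h h2
      have := mul_nonpos_of_nonneg_of_nonpos (by linarith : (0:ℝ) ≤ 1 - t) h1.le
      linarith

theorem dr_share {a b c z : ℝ × ℝ} (h : dr a b c ≠ 0) (h1 : z ∈ segment ℝ a b)
    (h2 : z ∈ segment ℝ a c) : z = a := by
  have h0 := dr_segment h1
  rw [segment_eq_image'] at h2
  obtain ⟨t, _, rfl⟩ := h2
  have e : dr a b (a + t • (c - a)) = t * dr a b c := by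
    unfold dr
    simp only [Prod.fst_add, Prod.snd_add, Prod.smul_fst, Prod.smul_snd, Prod.fst_sub, Prod.snd_sub,
      smul_eq_mul]
    ring
  rw [e] at h0
  rcases mul_eq_zero.mp h0 with h0 | h0
  · rw [h0]; simp
  · exact absurd h0 h

/-- a planar straight-line drawing on the integer grid, in general position -/
structure GridDrawing {V : Type} (G : SimpleGraph V) (c : V → ℤ × ℤ) (K : ℤ) : Prop where
  gen : ∀ u v w, u ≠ v → v ≠ w → u ≠ w → oz (c u) (c v) (c w) ≠ 0
  inj : ∀ u v, u ≠ v → c u ≠ c v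
  sep : ∀ u v w x, G.Adj u v → G.Adj w x → u ≠ w → u ≠ x → v ≠ w → v ≠ x →
    0 < oz (c u) (c v) (c w) * oz (c u) (c v) (c x) ∨ 0 < oz (c w) (c x) (c u) * oz (c w) (c x) (c v)
  box : ∀ u, 0 ≤ (c u).1 ∧ (c u).1 ≤ K

/-- coordinates for two copies -/
noncomputable def cc {V : Type} (c : V → ℤ × ℤ) (K : ℤ) (v : V × Bool) : ℝ × ℝ :=
  (((c v.1).1 : ℝ) + (if v.2 then ((K : ℝ) + 1) else 0), ((c v.1).2 : ℝ))

theorem dr_cc {V : Type} (c : V → ℤ × ℤ) (K : ℤ) (u v w : V) (i : Bool) :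
    dr (cc c K (u, i)) (cc c K (v, i)) (cc c K (w, i)) = ((oz (c u) (c v) (c w) : ℤ) : ℝ) := by
  unfold dr cc oz
  push_cast
  ring

theorem segment_fst {a b z : ℝ × ℝ} (h : z ∈ segment ℝ a b) :
    (∀ M : ℝ, a.1 ≤ M → b.1 ≤ M → z.1 ≤ M) ∧ (∀ M : ℝ, M ≤ a.1 → M ≤ b.1 → M ≤ z.1) := by
  rw [segment_eq_image'] at h
  obtain ⟨t, ⟨t0, t1⟩, rfl⟩ := h
  simp only [Prod.fst_add, Prod.smul_fst, Prod.fst_sub, smul_eq_mul]
  constructor
  · intro M h1 h2
    nlinarith [mul_nonneg t0 (sub_nonneg.mpr h2), mul_nonneg (sub_nonneg.mpr t1) (sub_nonneg.mpr h1)]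
  · intro M h1 h2
    nlinarith [mul_nonneg t0 (sub_nonneg.mpr h2), mul_nonneg (sub_nonneg.mpr t1) (sub_nonneg.mpr h1)]

theorem cc_false {V : Type} {G : SimpleGraph V} {c : V → ℤ × ℤ} {K : ℤ} (D : GridDrawing G c K)
    (u : V) : (cc c K (u, false)).1 ≤ K := by
  unfold cc
  have := (D.box u).2
  simp only [Bool.false_eq_true, if_false, add_zero]
  exact_mod_cast this

theorem cc_true {V : Type} {G : SimpleGraph V} {c : V → ℤ × ℤ} {K : ℤ} (D : GridDrawing G c K)
    (u : V) : (K : ℝ) + 1 ≤ (cc c K (u, true)).1 := by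
  unfold cc
  have := (D.box u).1
  have h : (0 : ℝ) ≤ ((c u).1 : ℝ) := by exact_mod_cast this
  simp only [if_true]
  linarith

theorem cc_disj {V : Type} {G : SimpleGraph V} {c : V → ℤ × ℤ} {K : ℤ} (D : GridDrawing G c K)
    {u v w x : V} {i j : Bool} (hij : i ≠ j) {z : ℝ × ℝ}
    (h1 : z ∈ segment ℝ (cc c K (u, i)) (cc c K (v, i)))
    (h2 : z ∈ segment ℝ (cc c K (w, j)) (cc c K (x, j))) : False := by
  rcases i with _ | _ <;> rcases j with _ | _
  · exact hij rfl
  · have := (segment_fst h1).1 _ (cc_false D u) (cc_false D v)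
    have := (segment_fst h2).2 _ (cc_true D w) (cc_true D x)
    linarith
  · have := (segment_fst h1).2 _ (cc_true D u) (cc_true D v)
    have := (segment_fst h2).1 _ (cc_false D w) (cc_false D x)
    linarith
  · exact hij rfl

theorem planar_two {V : Type} {G : SimpleGraph V} {c : V → ℤ × ℤ} {K : ℤ}
    (D : GridDrawing G c K) : PlanarF (two G) := by
  apply planar_of (two G) (cc c K)
  · rintro ⟨u, i⟩ ⟨v, j⟩ h
    have hij : i = j := by
      by_contra hij
      exact cc_disj D (u := u) (v := u) (w := v) (x := v) hij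
        (left_mem_segment ℝ _ _) (h ▸ left_mem_segment ℝ _ _)
    subst hij
    by_contra hne
    have huv : u ≠ v := fun e => hne (by rw [e])
    apply D.inj u v huv
    unfold cc at h
    have h1 := congrArg Prod.fst h
    have h2 := congrArg Prod.snd h
    simp only at h1 h2
    have h3 : ((c u).1 : ℝ) = ((c v).1 : ℝ) := by linarith
    exact Prod.ext (by exact_mod_cast h3) (by exact_mod_cast h2)
  · rintro ⟨u, i⟩ ⟨v, j⟩ ⟨w, k⟩ ⟨hij, h⟩ h1 h2 h3
    simp only at hij h
    subst hij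
    by_cases hik : i = k
    · subst hik
      have hwu : w ≠ u := fun e => h1 (by rw [e])
      have hwv : w ≠ v := fun e => h2 (by rw [e])
      have := dr_segment h3
      rw [dr_cc] at this
      exact D.gen u v w h.ne hwv.symm hwu.symm (by exact_mod_cast this)
    · exact cc_disj D hik h3 (left_mem_segment ℝ (cc c K (w, k)) (cc c K (w, k)))
  · rintro ⟨u, i⟩ ⟨v, j⟩ ⟨w, k⟩ ⟨x, l⟩ ⟨hij, h⟩ ⟨hkl, h'⟩ h1 h2 h3 h4
    simp only at hij h hkl h'
    subst hij
    subst hkl
    by_cases hik : i = k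
    · subst hik
      have e1 : u ≠ w := fun e => h1 (by rw [e])
      have e2 : u ≠ x := fun e => h2 (by rw [e])
      have e3 : v ≠ w := fun e => h3 (by rw [e])
      have e4 : v ≠ x := fun e => h4 (by rw [e])
      rcases D.sep u v w x h h' e1 e2 e3 e4 with hs | hs
      · apply dr_sep
        rw [dr_cc, dr_cc]
        exact_mod_cast hs
      · apply Disjoint.symm
        apply dr_sep
        rw [dr_cc, dr_cc]
        exact_mod_cast hs
    · rw [Set.disjoint_left]
      intro z hz hz'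
      exact cc_disj D hik hz hz'
  · rintro ⟨u, i⟩ ⟨v, j⟩ ⟨w, k⟩ ⟨hij, h⟩ ⟨hik, h'⟩ h1 z hz hz'
    simp only at hij h hik h'
    subst hij
    subst hik
    have hvw : v ≠ w := fun e => h1 (by rw [e])
    apply dr_share _ hz hz'
    rw [dr_cc]
    exact_mod_cast D.gen u v w h.ne hvw h'.ne

/-- Final reduction: a planar grid drawing and the non-existence of combinatorial data give the
negation in the frozen format. -/
theorem final {V : Type} [Fintype V] [Nonempty V] (H : SimpleGraph V) (c : V → ℤ × ℤ) (K : ℤ)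
    (D : GridDrawing H c K)
    (hno : ∀ (p : Option V → ℂ) (tt : V → V → ℝ) (b : V → V → Bool) (zg : V → V → ℂ),
      ¬ Rep H p tt b zg) :
    ¬ (∀ (V : Type) [Fintype V] (G : SimpleGraph V),
      (∃ (p : V → ℝ × ℝ) (γ : ∀ u v : V, Path (p u) (p v)),
          Function.Injective p ∧
          (∀ u v : V, G.Adj u v → Function.Injective ⇑(γ u v)) ∧
          (∀ u v w : V, G.Adj u v → p w ∈ Set.range ⇑(γ u v) → w = u ∨ w = v) ∧
          (∀ u v w x : V, G.Adj u v → G.Adj w x → ¬ (w = u ∧ x = v) → ¬ (w = v ∧ x = u) →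
            ∀ z : ℝ × ℝ, z ∈ Set.range ⇑(γ u v) → z ∈ Set.range ⇑(γ w x) →
              z = p u ∨ z = p v)) →
      ∃ (q : V → ℝ × ℝ) (O₁ O₂ : Set (ℝ × ℝ)),
        Function.Injective q ∧ IsPreconnected O₁ ∧ IsPreconnected O₂ ∧
        (∀ v : V, q v ∉ O₁ ∪ O₂) ∧
        (∀ u v : V, u ≠ v → (G.Adj u v ↔ Disjoint (segment ℝ (q u) (q v)) (O₁ ∪ O₂)))) := by
  intro hall
  obtain ⟨q, O₁, O₂, h1, h2, h3, h4, h5⟩ := hall (V × Bool) (two H) (planar_two D)
  obtain ⟨p', tt, b, zg, R⟩ := rep_of_two H q O₁ O₂ h1 h2 h3 h4 h5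
  exact hno p' tt b zg R

end Pool.Agent.Helper12.Obs
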