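import Pool.Agent.Helper12.Obs.Rep

set_option autoImplicit false

namespace Pool.Agent.Helper12.Obs

open Complex Metric

/-- two disjoint copies of a graph -/
def two {V : Type} (H : SimpleGraph V) : SimpleGraph (V × Bool) where
  Adj x y := x.2 = y.2 ∧ H.Adj x.1 y.1
  symm := ⟨fun _ _ h => ⟨h.1.symm, h.2.symm⟩⟩
  loopless := ⟨fun _ h => H.loopless.irrefl _ h.2⟩

/-- the plane as `ℂ` -/
noncomputable def phi : (ℝ × ℝ) ≃L[ℝ] ℂ := Complex.equivRealProdCLM.symm

theorem phi_segment (a b : ℝ × ℝ) : phi '' segment ℝ a b = segment ℝ (phi a) (phi b) := by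
  have := image_segment ℝ (phi.toLinearEquiv.toLinearMap.toAffineMap) a b
  simpa using this

theorem rep_of_two {V : Type} [Fintype V] [Nonempty V] (H : SimpleGraph V)
    (q : V × Bool → ℝ × ℝ) (O₁ O₂ : Set (ℝ × ℝ)) (hq : Function.Injective q)
    (h₁ : IsPreconnected O₁) (h₂ : IsPreconnected O₂) (hv : ∀ v, q v ∉ O₁ ∪ O₂)
    (hG : ∀ u v : V × Bool, u ≠ v →
      ((two H).Adj u v ↔ Disjoint (segment ℝ (q u) (q v)) (O₁ ∪ O₂))) :
    ∃ (p' : Option V → ℂ) (tt : V → V → ℝ) (b : V → V → Bool) (zg : V → V → ℂ),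
      Rep H p' tt b zg := by
  have hinj : Function.Injective phi := phi.injective
  have hP₁ : IsPreconnected (phi '' O₁) := h₁.image _ phi.continuous.continuousOn
  have hP₂ : IsPreconnected (phi '' O₂) := h₂.image _ phi.continuous.continuousOn
  have hv' : ∀ v, phi (q v) ∉ phi '' O₁ ∪ phi '' O₂ := by
    intro v hcon
    rw [← Set.image_union] at hcon
    obtain ⟨z, hz, he⟩ := hcon
    exact hv v (hinj he ▸ hz)
  have hG' : ∀ u v : V × Bool, u ≠ v → ((two H).Adj u v ↔
      Disjoint (segment ℝ (phi (q u)) (phi (q v))) (phi '' O₁ ∪ phi '' O₂)) := by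
    intro u v huv
    rw [hG u v huv, ← phi_segment, ← Set.image_union, Set.disjoint_image_iff hinj]
  have hd := hull_two (fun v => phi (q (v, false))) (fun v => phi (q (v, true)))
    (phi '' O₁ ∪ phi '' O₂) (by
      intro u v h
      have := hq (hinj h)
      simp at this) (fun v => hv' _) (fun v => hv' _) (by
      intro u v hcon
      have h1 := (hG' (u, false) (v, true) (by simp)).mpr hcon
      exact absurd h1.1 (by simp))
  -- one copy
  have hcopy : ∃ c : Bool, ∃ w, w ∈ phi '' O₁ ∪ phi '' O₂ ∧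
      w ∉ convexHull ℝ (Set.range (fun v => phi (q (v, c)))) := by
    by_contra hcon
    push Not at hcon
    exact hd ⟨fun w hw => hcon false w hw, fun w hw => hcon true w hw⟩
  obtain ⟨c, w, hw, hw'⟩ := hcopy
  have hadj : ∀ u v, H.Adj u v → Disjoint (segment ℝ (phi (q (u, c))) (phi (q (v, c))))
      (phi '' O₁ ∪ phi '' O₂) := by
    intro u v h
    have hne : ((u, c) : V × Bool) ≠ (v, c) := by
      intro e
      exact h.ne (congrArg Prod.fst e)
    exact (hG' (u, c) (v, c) hne).mp ⟨rfl, h⟩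
  have hnon : ∀ u v, u ≠ v → ¬ H.Adj u v →
      ¬ Disjoint (segment ℝ (phi (q (u, c))) (phi (q (v, c)))) (phi '' O₁ ∪ phi '' O₂) := by
    intro u v huv h hcon
    have hne : ((u, c) : V × Bool) ≠ (v, c) := by
      intro e
      exact huv (congrArg Prod.fst e)
    exact h ((hG' (u, c) (v, c) hne).mpr hcon).2
  rcases hw with hw | hw
  · exact exists_rep H (fun v => phi (q (v, c))) _ _ hP₁ hP₂ (fun v => hv' _) hadj hnon w hw hw'
  · refine exists_rep H (fun v => phi (q (v, c))) _ _ hP₂ hP₁ (fun v => ?_) ?_ ?_ w hw hw'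
    · rw [Set.union_comm]; exact hv' _
    · intro u v h; rw [Set.union_comm]; exact hadj u v h
    · intro u v h1 h2; rw [Set.union_comm]; exact hnon u v h1 h2

end Pool.Agent.Helper12.Obs
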