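import Pool.Agent.Helper12.Obs.Pert

set_option autoImplicit false

namespace Pool.Agent.Helper12.Obs

open Complex Metric

theorem lexConvex (b : ℂ) :
    Convex ℝ {z : ℂ | z.im < b.im ∨ (z.im = b.im ∧ z.re ≤ b.re)} := by
  intro z hz w hw s t hs ht hst
  simp only [Set.mem_ofPred_eq] at hz hw ⊢
  have e1 : (s • z + t • w).im = s * z.im + t * w.im := by simp
  have e2 : (s • z + t • w).re = s * z.re + t * w.re := by simp
  rw [e1, e2]
  have ht' : t = 1 - s := by linarith
  rcases hs.eq_or_lt with h0 | hs0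
  · have : t = 1 := by rw [ht', ← h0]; ring
    rw [← h0, this]
    simpa using hw
  rcases ht.eq_or_lt with h0 | ht0
  · have : s = 1 := by linarith
    rw [← h0, this]
    simpa using hz
  rcases hz with hz | ⟨hz1, hz2⟩ <;> rcases hw with hw | ⟨hw1, hw2⟩
  · left
    have := mul_lt_mul_of_pos_left hz hs0
    have := mul_lt_mul_of_pos_left hw ht0
    have : s * b.im + t * b.im = b.im := by rw [← add_mul, hst, one_mul]
    linarith
  · left
    have := mul_lt_mul_of_pos_left hz hs0
    have : s * b.im + t * b.im = b.im := by rw [← add_mul, hst, one_mul]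
    rw [hw1]
    linarith
  · left
    have := mul_lt_mul_of_pos_left hw ht0
    have : s * b.im + t * b.im = b.im := by rw [← add_mul, hst, one_mul]
    rw [hz1]
    linarith
  · right
    have e3 : s * b.im + t * b.im = b.im := by rw [← add_mul, hst, one_mul]
    have e4 : s * b.re + t * b.re = b.re := by rw [← add_mul, hst, one_mul]
    have := mul_le_mul_of_nonneg_left hz2 hs
    have := mul_le_mul_of_nonneg_left hw2 ht
    rw [hz1, hw1]
    exact ⟨e3, by linarith⟩

/-- lexicographic order: `z` not above `b` -/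
def lexLe (z b : ℂ) : Prop := z.im < b.im ∨ (z.im = b.im ∧ z.re ≤ b.re)

theorem exists_top {V : Type} [Fintype V] [Nonempty V] (p : V → ℂ) :
    ∃ v, ∀ u, lexLe (p u) (p v) := by
  obtain ⟨v, _, hv⟩ := Finset.exists_max_image Finset.univ
    (fun u : V => toLex ((p u).im, (p u).re)) Finset.univ_nonempty
  refine ⟨v, fun u => ?_⟩
  have := hv u (Finset.mem_univ u)
  rw [Prod.Lex.le_iff] at this
  exact this

theorem lexLe_total (z b : ℂ) : lexLe z b ∨ lexLe b z := by
  unfold lexLe
  rcases lt_trichotomy z.im b.im with h | h | h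
  · exact Or.inl (Or.inl h)
  · rcases le_total z.re b.re with h' | h'
    · exact Or.inl (Or.inr ⟨h, h'⟩)
    · exact Or.inr (Or.inr ⟨h.symm, h'⟩)
  · exact Or.inr (Or.inl h)

theorem hull_aux {V : Type} (p₁ : V → ℂ) (O : Set ℂ) (hO : O ⊆ convexHull ℝ (Set.range p₁))
    {a b : ℂ} (hb : ∀ u, lexLe (p₁ u) b) (hab : lexLe b a) (hne : a ≠ b) (hbO : b ∉ O) :
    Disjoint (segment ℝ a b) O := by
  rw [Set.disjoint_left]
  intro z hz hzO
  have h1 : convexHull ℝ (Set.range p₁) ⊆ {z : ℂ | z.im < b.im ∨ (z.im = b.im ∧ z.re ≤ b.re)} := by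
    apply convexHull_min
    · rintro _ ⟨u, rfl⟩
      exact hb u
    · exact lexConvex b
  have h2 := h1 (hO hzO)
  simp only [Set.mem_ofPred_eq] at h2
  rw [segment_eq_image'] at hz
  obtain ⟨t, ⟨ht0, ht1⟩, rfl⟩ := hz
  rcases ht1.eq_or_lt with h | ht1
  · subst h
    apply hbO
    simpa using hzO
  · simp only [add_im, add_re, real_smul, mul_im, mul_re, ofReal_re, ofReal_im, sub_im, sub_re] at h2
    unfold lexLe at hab
    have h1t : 0 < 1 - t := by linarith
    rcases hab with hab | ⟨hab1, hab2⟩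
    · rcases h2 with h2 | ⟨h2, _⟩
      · nlinarith
      · nlinarith
    · rcases h2 with h2 | ⟨h2, h3⟩
      · rw [hab1] at h2
        simp at h2
      · have : b.re ≠ a.re := by
          intro e
          exact hne (Complex.ext e.symm hab1.symm)
        have h4 : b.re < a.re := lt_of_le_of_ne hab2 this
        nlinarith

/-- two disjoint copies: the obstacles are not contained in both hulls -/
theorem hull_two {V : Type} [Fintype V] [Nonempty V] (p₀ p₁ : V → ℂ) (O : Set ℂ)
    (hne : ∀ u v, p₀ u ≠ p₁ v) (h0 : ∀ v, p₀ v ∉ O) (h1 : ∀ v, p₁ v ∉ O)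
    (hblock : ∀ u v, ¬ Disjoint (segment ℝ (p₀ u) (p₁ v)) O) :
    ¬ (O ⊆ convexHull ℝ (Set.range p₀) ∧ O ⊆ convexHull ℝ (Set.range p₁)) := by
  rintro ⟨hO0, hO1⟩
  obtain ⟨a, ha⟩ := exists_top p₀
  obtain ⟨b, hb⟩ := exists_top p₁
  rcases lexLe_total (p₁ b) (p₀ a) with h | h
  · exact hblock a b (hull_aux p₁ O hO1 hb h (hne a b) (h1 b))
  · apply hblock a b
    rw [segment_symm]
    exact hull_aux p₀ O hO0 ha h (Ne.symm (hne a b)) (h0 a)

theorem exists_generic_near {B : Type} [Finite B] (P : B → ℂ) (hP : Function.Injective P)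
    (z₀ : ℂ) {N : Set ℂ} (hN : IsOpen N) (hz₀ : z₀ ∈ N) :
    ∃ z ∈ N, (∀ i j, i ≠ j → dt z (P i) (P j) ≠ 0) ∧
      (∀ i j, 0 < dt z₀ (P i) (P j) → 0 < dt z (P i) (P j)) ∧ ∀ i, P i ≠ z := by
  let Z : ℝ → ℂ := fun ε => z₀ + ⟨ε, ε ^ 2⟩
  have hZre : ∀ ε, (Z ε).re = z₀.re + ε := fun ε => by simp [Z]
  have hZim : ∀ ε, (Z ε).im = z₀.im + ε ^ 2 := fun ε => by simp [Z]
  have hZc : Continuous Z := by
    have : Z = fun ε : ℝ => z₀ + ((ε : ℂ) + ((ε ^ 2 : ℝ) : ℂ) * I) := by
      funext ε
      apply Complex.ext <;> simp [Z, ← Complex.ofReal_pow]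
    rw [this]
    fun_prop
  have hZ0 : Z 0 = z₀ := by apply Complex.ext <;> simp [Z]
  have ev1 : ∀ᶠ ε in nhds (0 : ℝ), Z ε ∈ N :=
    (hZc.continuousAt (x := 0)).eventually (hN.mem_nhds (by rw [hZ0]; exact hz₀))
  have ev2 : ∀ᶠ ε in nhds (0 : ℝ), ∀ i j, 0 < dt z₀ (P i) (P j) → 0 < dt (Z ε) (P i) (P j) := by
    rw [Filter.eventually_all]
    intro i
    rw [Filter.eventually_all]
    intro j
    by_cases h : 0 < dt z₀ (P i) (P j)
    · have hc : Continuous (fun ε => dt (Z ε) (P i) (P j)) := by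
        unfold dt
        simp only [hZre, hZim]
        fun_prop
      have h0 : 0 < dt (Z 0) (P i) (P j) := by rw [hZ0]; exact h
      filter_upwards [(hc.continuousAt (x := 0)).eventually (lt_mem_nhds h0)] with ε hε _
      exact hε
    · exact Filter.Eventually.of_forall (fun ε h' => absurd h' h)
  obtain ⟨η, hη, hball⟩ := Metric.eventually_nhds_iff.mp (ev1.and ev2)
  have hfin1 : ∀ x : {x : B × B // x.1 ≠ x.2},
      Set.Finite {ε : ℝ | dt (Z ε) (P x.1.1) (P x.1.2) = 0} := by
    rintro ⟨⟨i, j⟩, hij⟩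
    simp only at hij ⊢
    let q : Polynomial ℝ := Polynomial.C (dt z₀ (P i) (P j)) +
      Polynomial.C ((P i).im - (P j).im) * Polynomial.X +
      Polynomial.C ((P j).re - (P i).re) * Polynomial.X ^ 2
    have hq : q ≠ 0 := by
      intro h0
      have h2 : q.coeff 2 = (P j).re - (P i).re := quad_coeff _ _ _
      have h1 : q.coeff 1 = (P i).im - (P j).im := quad_coeff1 _ _ _
      rw [h0] at h1 h2
      simp only [Polynomial.coeff_zero] at h1 h2
      apply hij
      apply hP
      exact Complex.ext (by linarith) (by linarith)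
    refine (Polynomial.finite_setOfPred_isRoot hq).subset ?_
    intro ε hε
    simp only [Set.mem_ofPred_eq, Polynomial.IsRoot.def] at hε ⊢
    have : q.eval ε = dt (Z ε) (P i) (P j) := by
      unfold dt
      rw [hZre, hZim]
      simp only [q, dt, Polynomial.eval_add, Polynomial.eval_mul, Polynomial.eval_C,
        Polynomial.eval_X, Polynomial.eval_pow]
      ring
    rw [this, hε]
  have hfin2 : ∀ i : B, Set.Finite {ε : ℝ | P i = Z ε} := by
    intro i
    refine Set.Subsingleton.finite ?_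
    intro x hx y hy
    simp only [Set.mem_ofPred_eq] at hx hy
    have := congrArg Complex.re (hx.symm.trans hy)
    rw [hZre, hZre] at this
    linarith
  have hbad : Set.Finite ((⋃ x : {x : B × B // x.1 ≠ x.2},
      {ε : ℝ | dt (Z ε) (P x.1.1) (P x.1.2) = 0}) ∪ (⋃ i : B, {ε : ℝ | P i = Z ε})) :=
    (Set.finite_iUnion hfin1).union (Set.finite_iUnion hfin2)
  obtain ⟨ε, hε1, hε2⟩ := ((Set.Ioo_infinite hη).sdiff hbad).nonempty
  have hd : dist ε 0 < η := by
    rw [Real.dist_eq, sub_zero, abs_of_pos hε1.1]; exact hε1.2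
  obtain ⟨g1, g2⟩ := hball hd
  refine ⟨Z ε, g1, ?_, g2, ?_⟩
  · intro i j hij h0
    apply hε2
    left
    exact Set.mem_iUnion.mpr ⟨⟨(i, j), hij⟩, h0⟩
  · intro i h0
    apply hε2
    right
    exact Set.mem_iUnion.mpr ⟨i, h0⟩

/-- blocking point of the non-edge `xy` -/
noncomputable def zz {V : Type} (p : Option V → ℂ) (tt : V → V → ℝ) (x y : V) : ℂ :=
  p (some x) + (tt x y : ℂ) * (p (some y) - p (some x))

/-- the geometric data extracted from a representation with two obstacles: `p none` is a point of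
the second obstacle, the first obstacle has winding number `0` with respect to every drawn closed
polygon. -/
structure Rep {V : Type} (G : SimpleGraph V) (p : Option V → ℂ) (tt : V → V → ℝ)
    (b : V → V → Bool) (zg : V → V → ℂ) : Prop where
  gen : ∀ a b c, a ≠ b → b ≠ c → a ≠ c → dt (p a) (p b) (p c) ≠ 0
  re_ne : ∀ a b, a ≠ b → (p a).re ≠ (p b).re
  tpos : ∀ x y, x ≠ y → ¬ G.Adj x y → 0 < tt x y
  tlt : ∀ x y, x ≠ y → ¬ G.Adj x y → tt x y < 1
  tsymm : ∀ x y, x ≠ y → ¬ G.Adj x y → tt x y + tt y x = 1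
  bsymm : ∀ x y, b x y = b y x
  out : ∀ x y, x ≠ y → ¬ G.Adj x y → b x y = false → ∀ (a : ℂ) (l : List ℂ),
    (a :: l).getLast (by simp) = a → (∀ m ∈ a :: l, m ∈ drawing G (p ∘ some)) →
      sides (a :: l) ⊆ drawing G (p ∘ some) → ths (zz p tt x y) (a :: l) = 0
  inn : ∀ x y, x ≠ y → ¬ G.Adj x y → b x y = true → ∀ (a : ℂ) (l : List ℂ),
    (a :: l).getLast (by simp) = a → (∀ m ∈ a :: l, m ∈ drawing G (p ∘ some)) →
      sides (a :: l) ⊆ drawing G (p ∘ some) → ths (zz p tt x y) (a :: l) = ths (p none) (a :: l)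
  zmem : ∀ x y, x ≠ y → ¬ G.Adj x y → zz p tt x y ∉ drawing G (p ∘ some)
  zsymm : ∀ x y, zg x y = zg y x
  zgen : ∀ x y, x ≠ y → ¬ G.Adj x y → ∀ u v : Option V, u ≠ v → dt (zg x y) (p u) (p v) ≠ 0
  zne : ∀ x y, x ≠ y → ¬ G.Adj x y → ∀ u : Option V, p u ≠ zg x y
  zpos : ∀ x y, x ≠ y → ¬ G.Adj x y → ∀ u v : Option V, 0 < dt (zz p tt x y) (p u) (p v) →
    0 < dt (zg x y) (p u) (p v)
  zths : ∀ x y, x ≠ y → ¬ G.Adj x y → ∀ (a : ℂ) (l : List ℂ),
    (a :: l).getLast (by simp) = a → sides (a :: l) ⊆ drawing G (p ∘ some) →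
      ths (zg x y) (a :: l) = ths (zz p tt x y) (a :: l)

theorem drawing_subset_hull {V : Type} (G : SimpleGraph V) (p : V → ℂ) :
    drawing G p ⊆ convexHull ℝ (Set.range p) := by
  rintro z (hz | hz)
  · obtain ⟨x, hx⟩ := Set.mem_iUnion.mp hz
    have e1 : p x.1.1 ∈ convexHull ℝ (Set.range p) := subset_convexHull ℝ _ ⟨x.1.1, rfl⟩
    have e2 : p x.1.2 ∈ convexHull ℝ (Set.range p) := subset_convexHull ℝ _ ⟨x.1.2, rfl⟩
    exact (convex_convexHull ℝ _).segment_subset e1 e2 hx
  · exact subset_convexHull ℝ _ hz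

/-- From a representation whose first obstacle sticks out of the hull to the combinatorial data. -/
theorem exists_rep {V : Type} [Fintype V] (G : SimpleGraph V) (p : V → ℂ) (O₁ O₂ : Set ℂ)
    (h₁ : IsPreconnected O₁) (h₂ : IsPreconnected O₂)
    (hv : ∀ v, p v ∉ O₁ ∪ O₂)
    (hadj : ∀ u v, G.Adj u v → Disjoint (segment ℝ (p u) (p v)) (O₁ ∪ O₂))
    (hnon : ∀ u v, u ≠ v → ¬ G.Adj u v → ¬ Disjoint (segment ℝ (p u) (p v)) (O₁ ∪ O₂))
    (w : ℂ) (hw : w ∈ O₁) (hw' : w ∉ convexHull ℝ (Set.range p)) :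
    ∃ (p' : Option V → ℂ) (tt : V → V → ℝ) (b : V → V → Bool) (zg : V → V → ℂ),
      Rep G p' tt b zg := by
  classical
  obtain ⟨p', N₁, N₂, c1, c2, n1, n2, o1, o2, c3, c4, c5, c6, c7⟩ :=
    perturb G p O₁ O₂ h₁ h₂ hv hadj hnon w hw hw'
  choose! t ht0 ht1 htN using c4
  let e := Fintype.equivFin V
  let tt : V → V → ℝ := fun x y => if e x < e y then t x y else 1 - t y x
  let b : V → V → Bool := fun x y => if e x < e y then decide (p' (some x) + (t x y : ℂ) *
    (p' (some y) - p' (some x)) ∉ N₁) else decide (p' (some y) + (t y x : ℂ) *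
    (p' (some x) - p' (some y)) ∉ N₁)
  have hlt : ∀ x y : V, x ≠ y → e x < e y ∨ e y < e x := fun x y h =>
    lt_or_gt_of_ne (fun h' => h (e.injective h'))
  have hsym : ∀ x y : V, ¬ G.Adj x y → ¬ G.Adj y x := fun x y h h' => h h'.symm
  have key : ∀ x y, x ≠ y → ¬ G.Adj x y → 0 < tt x y ∧ tt x y < 1 ∧
      (b x y = false → zz p' tt x y ∈ N₁) ∧ (b x y = true → zz p' tt x y ∈ N₂) := by
    intro x y hxy hna
    rcases hlt x y hxy with h | h
    · have e1 : tt x y = t x y := by simp only [tt, if_pos h]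
      have e2 : zz p' tt x y = p' (some x) + (t x y : ℂ) * (p' (some y) - p' (some x)) := by
        unfold zz; rw [e1]
      refine ⟨by rw [e1]; exact ht0 x y hxy hna, by rw [e1]; exact ht1 x y hxy hna, ?_, ?_⟩
      · intro hb
        rw [e2]
        simp only [b, if_pos h, decide_eq_false_iff_not, not_not] at hb
        exact hb
      · intro hb
        rw [e2]
        simp only [b, if_pos h, decide_eq_true_eq] at hb
        exact (htN x y hxy hna).resolve_left hb
    · have h' : ¬ e x < e y := not_lt.mpr h.le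
      have e1 : tt x y = 1 - t y x := by simp only [tt, if_neg h']
      have e2 : zz p' tt x y = p' (some y) + (t y x : ℂ) * (p' (some x) - p' (some y)) := by
        unfold zz; rw [e1]; push_cast; ring
      have g0 := ht0 y x hxy.symm (hsym _ _ hna)
      have g1 := ht1 y x hxy.symm (hsym _ _ hna)
      refine ⟨by rw [e1]; linarith, by rw [e1]; linarith, ?_, ?_⟩
      · intro hb
        rw [e2]
        simp only [b, if_neg h', decide_eq_false_iff_not, not_not] at hb
        exact hb
      · intro hb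
        rw [e2]
        simp only [b, if_neg h', decide_eq_true_eq] at hb
        exact (htN y x hxy.symm (hsym _ _ hna)).resolve_left hb
  have hN₁ : ∀ (a : ℂ) (l : List ℂ), (a :: l).getLast (by simp) = a →
      (∀ m ∈ a :: l, m ∈ drawing G (p' ∘ some)) →
      sides (a :: l) ⊆ drawing G (p' ∘ some) → ∀ z ∈ N₁, ths z (a :: l) = 0 := by
    intro a l hcl hm hsub z hz
    have hd : Disjoint N₁ (sides (a :: l)) :=
      (c3.symm.mono (Set.subset_union_left) hsub)
    rw [ths_const n1 hd hcl hz c5]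
    exact ths_far (S := convexHull ℝ (Set.range (p' ∘ some)))
      (Set.Finite.isCompact_convexHull (𝕜 := ℝ) (Set.finite_range _))
      (convex_convexHull ℝ _) c6 (fun m hm' => drawing_subset_hull G _ (hm m hm')) hcl
  have hN₂ : ∀ (a : ℂ) (l : List ℂ), (a :: l).getLast (by simp) = a →
      sides (a :: l) ⊆ drawing G (p' ∘ some) → ∀ z ∈ N₂, ths z (a :: l) = ths (p' none) (a :: l) := by
    intro a l hcl hsub z hz
    have hd : Disjoint N₂ (sides (a :: l)) :=
      (c3.symm.mono (Set.subset_union_right) hsub)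
    rcases c7 with h | h
    · rw [h] at hz; exact absurd hz (Set.notMem_empty _)
    · exact ths_const n2 hd hcl hz h
  have hp'inj : Function.Injective p' := by
    intro u v h
    by_contra hne
    exact c2 u v hne (by rw [h])
  -- generic blocking points
  have hz1 : ∀ x y, x ≠ y → ¬ G.Adj x y → ∃ z : ℂ, (b x y = false → z ∈ N₁) ∧
      (b x y = true → z ∈ N₂) ∧ (∀ u v : Option V, u ≠ v → dt z (p' u) (p' v) ≠ 0) ∧
      (∀ u v : Option V, 0 < dt (zz p' tt x y) (p' u) (p' v) → 0 < dt z (p' u) (p' v)) ∧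
      ∀ u, p' u ≠ z := by
    intro x y hxy hna
    rcases hb : b x y with _ | _
    · obtain ⟨z, z1, z2, z3, z4⟩ := exists_generic_near p' hp'inj _ o1 ((key x y hxy hna).2.2.1 hb)
      exact ⟨z, fun _ => z1, fun h => absurd h (by simp), z2, z3, z4⟩
    · obtain ⟨z, z1, z2, z3, z4⟩ := exists_generic_near p' hp'inj _ o2 ((key x y hxy hna).2.2.2 hb)
      exact ⟨z, fun h => absurd h (by simp), fun _ => z1, z2, z3, z4⟩
  choose! z hz1a hz1b hz2 hz3 hz4 using hz1
  let zg : V → V → ℂ := fun x y => if e x < e y then z x y else z y x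
  have hbs : ∀ x y, b x y = b y x := by
    intro x y
    by_cases hxy : x = y
    · rw [hxy]
    rcases hlt x y hxy with h | h
    · have h' : ¬ e y < e x := not_lt.mpr h.le
      simp only [b, if_pos h, if_neg h']
    · have h' : ¬ e x < e y := not_lt.mpr h.le
      simp only [b, if_pos h, if_neg h']
  have hzzs : ∀ x y, x ≠ y → zz p' tt x y = zz p' tt y x := by
    intro x y hxy
    unfold zz
    have : tt x y + tt y x = 1 := by
      rcases hlt x y hxy with h | h
      · have h' : ¬ e y < e x := not_lt.mpr h.le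
        simp only [tt, if_pos h, if_neg h']; ring
      · have h' : ¬ e x < e y := not_lt.mpr h.le
        simp only [tt, if_pos h, if_neg h']; ring
    have h2 : (tt y x : ℂ) = 1 - (tt x y : ℂ) := by
      have : tt y x = 1 - tt x y := by linarith
      rw [this]; push_cast; ring
    rw [h2]; ring
  have hzg : ∀ x y, x ≠ y → ¬ G.Adj x y → (b x y = false → zg x y ∈ N₁) ∧
      (b x y = true → zg x y ∈ N₂) ∧ (∀ u v : Option V, u ≠ v → dt (zg x y) (p' u) (p' v) ≠ 0) ∧
      (∀ u v : Option V, 0 < dt (zz p' tt x y) (p' u) (p' v) → 0 < dt (zg x y) (p' u) (p' v)) ∧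
      ∀ u, p' u ≠ zg x y := by
    intro x y hxy hna
    rcases hlt x y hxy with h | h
    · simp only [zg, if_pos h]
      exact ⟨hz1a x y hxy hna, hz1b x y hxy hna, hz2 x y hxy hna, hz3 x y hxy hna, hz4 x y hxy hna⟩
    · have h' : ¬ e x < e y := not_lt.mpr h.le
      have hna' := hsym _ _ hna
      simp only [zg, if_neg h']
      rw [hzzs x y hxy, hbs x y]
      exact ⟨hz1a y x hxy.symm hna', hz1b y x hxy.symm hna', hz2 y x hxy.symm hna',
        hz3 y x hxy.symm hna', hz4 y x hxy.symm hna'⟩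
  refine ⟨p', tt, b, zg, ?_⟩
  refine { gen := c1, re_ne := c2, tpos := fun x y h1 h2 => (key x y h1 h2).1,
           tlt := fun x y h1 h2 => (key x y h1 h2).2.1, tsymm := ?_, bsymm := ?_,
           out := ?_, inn := ?_, zmem := ?_, zsymm := ?_,
           zgen := fun x y h1 h2 => (hzg x y h1 h2).2.2.1,
           zne := fun x y h1 h2 => (hzg x y h1 h2).2.2.2.2,
           zpos := fun x y h1 h2 => (hzg x y h1 h2).2.2.2.1, zths := ?_ }
  · intro x y hxy _
    rcases hlt x y hxy with h | h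
    · have h' : ¬ e y < e x := not_lt.mpr h.le
      simp only [tt, if_pos h, if_neg h']; ring
    · have h' : ¬ e x < e y := not_lt.mpr h.le
      simp only [tt, if_pos h, if_neg h']; ring
  · exact hbs
  · intro x y hxy hna hb a l hcl hm hsub
    exact hN₁ a l hcl hm hsub _ ((key x y hxy hna).2.2.1 hb)
  · intro x y hxy hna hb a l hcl _ hsub
    exact hN₂ a l hcl hsub _ ((key x y hxy hna).2.2.2 hb)
  · intro x y hxy hna hcon
    have h1 : zz p' tt x y ∈ N₁ ∪ N₂ := by
      rcases hb : b x y with _ | _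
      · exact Or.inl ((key x y hxy hna).2.2.1 hb)
      · exact Or.inr ((key x y hxy hna).2.2.2 hb)
    exact Set.disjoint_left.mp c3 hcon h1
  · intro x y
    by_cases hxy : x = y
    · rw [hxy]
    rcases hlt x y hxy with h | h
    · have h' : ¬ e y < e x := not_lt.mpr h.le
      simp only [zg, if_pos h, if_neg h']
    · have h' : ¬ e x < e y := not_lt.mpr h.le
      simp only [zg, if_pos h, if_neg h']
  · intro x y hxy hna a l hcl hsub
    rcases hb : b x y with _ | _
    · have hd : Disjoint N₁ (sides (a :: l)) := (c3.symm.mono (Set.subset_union_left) hsub)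
      exact ths_const n1 hd hcl ((hzg x y hxy hna).1 hb) ((key x y hxy hna).2.2.1 hb)
    · have hd : Disjoint N₂ (sides (a :: l)) := (c3.symm.mono (Set.subset_union_right) hsub)
      exact ths_const n2 hd hcl ((hzg x y hxy hna).2.1 hb) ((key x y hxy hna).2.2.2 hb)

end Pool.Agent.Helper12.Obs
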