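import Pool.Agent.Helper12.Obs.Rep

set_option autoImplicit false

namespace Pool.Agent.Helper12.Obs

open Complex Metric

/-- orientation sign -/
noncomputable def sg {A : Type} (p : A → ℂ) (a b c : A) : Bool := decide (0 < dt (p a) (p b) (p c))

section sign
variable {A : Type} (p : A → ℂ)

theorem sg_true {a b c : A} : sg p a b c = true ↔ 0 < dt (p a) (p b) (p c) := by simp [sg]
theorem sg_false {a b c : A} : sg p a b c = false ↔ dt (p a) (p b) (p c) ≤ 0 := by simp [sg]

theorem sg_rot (a b c : A) : sg p b c a = sg p a b c := by unfold sg; rw [dt_rot]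

theorem sg_swap (hgen : ∀ a b c : A, a ≠ b → b ≠ c → a ≠ c → dt (p a) (p b) (p c) ≠ 0)
    {a b c : A} (h1 : a ≠ b) (h2 : b ≠ c) (h3 : a ≠ c) : sg p b a c = !(sg p a b c) := by
  have h := hgen a b c h1 h2 h3
  rcases hs : sg p a b c with _ | _
  · rw [sg_false] at hs
    simp only [Bool.not_false]
    rw [sg_true, dt_swap]
    have := lt_of_le_of_ne hs h
    linarith
  · rw [sg_true] at hs
    simp only [Bool.not_true]
    rw [sg_false, dt_swap]
    linarith

/-- Grassmann-Plücker -/
theorem sg_gp (hgen : ∀ a b c : A, a ≠ b → b ≠ c → a ≠ c → dt (p a) (p b) (p c) ≠ 0)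
    {a b c d e : A} (hab : a ≠ b) (hac : a ≠ c) (had : a ≠ d) (hae : a ≠ e) (hbc : b ≠ c)
    (hbd : b ≠ d) (hbe : b ≠ e) (hcd : c ≠ d) (hce : c ≠ e) (hde : d ≠ e) :
    ¬ (((sg p a b c == sg p a d e) = true) ∧ ((sg p a b d == sg p a c e) = false) ∧
      ((sg p a b e == sg p a c d) = true)) ∧
    ¬ (((sg p a b c == sg p a d e) = false) ∧ ((sg p a b d == sg p a c e) = true) ∧
      ((sg p a b e == sg p a c d) = false)) := by
  have h := dt_gp (p a) (p b) (p c) (p d) (p e)
  have h1 := hgen a b c hab hbc hac
  have h2 := hgen a d e had hde hae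
  have h3 := hgen a b d hab hbd had
  have h4 := hgen a c e hac hce hae
  have h5 := hgen a b e hab hbe hae
  have h6 := hgen a c d hac hcd had
  have key : ∀ x y : ℝ, x ≠ 0 → y ≠ 0 →
      ((decide (0 < x) == decide (0 < y)) = true → 0 < x * y) ∧
      ((decide (0 < x) == decide (0 < y)) = false → x * y < 0) := by
    intro x y hx hy
    rcases lt_or_gt_of_ne hx with hx | hx <;> rcases lt_or_gt_of_ne hy with hy | hy
    · simp [not_lt.mpr hx.le, not_lt.mpr hy.le, mul_pos_of_neg_of_neg hx hy]
    · simp [not_lt.mpr hx.le, hy, mul_neg_of_neg_of_pos hx hy]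
    · simp [not_lt.mpr hy.le, hx, mul_neg_of_pos_of_neg hx hy]
    · simp [hx, hy]
  unfold sg
  constructor
  · rintro ⟨e1, e2, e3⟩
    have := (key _ _ h1 h2).1 e1
    have := (key _ _ h3 h4).2 e2
    have := (key _ _ h5 h6).1 e3
    linarith
  · rintro ⟨e1, e2, e3⟩
    have := (key _ _ h1 h2).2 e1
    have := (key _ _ h3 h4).1 e2
    have := (key _ _ h5 h6).2 e3
    linarith

end sign

theorem sides_append (y : ℂ) (r : List ℂ) : ∀ (a : ℂ) (l : List ℂ),
    sides (a :: (l ++ (y :: r))) = sides (a :: (l ++ [y])) ∪ sides (y :: r)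
  | a, [] => by simp [sides]
  | a, b :: l => by
    simp only [List.cons_append, sides_cons_cons]
    rw [sides_append y r b l, Set.union_assoc]

section rules
variable {V : Type} {G : SimpleGraph V} {p : Option V → ℂ} {tt : V → V → ℝ} {b : V → V → Bool} {zg : V → V → ℂ}

/-- `GCap G p x y E`: there is a drawn cap strictly to the left of `xy`, and `E` holds if it
encloses the point `p none`. -/
def GCap (G : SimpleGraph V) (p : Option V → ℂ) (x y : V) (E : Prop) : Prop :=
  ∃ l : List ℂ, l ≠ [] ∧ (∀ m ∈ l, 0 < dt (p (some x)) (p (some y)) m) ∧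
    sides (p (some x) :: (l ++ [p (some y)])) ⊆ drawing G (p ∘ some) ∧
    (ths (p none) (p (some x) :: (l ++ [p (some y), p (some x)])) = -(2 * Real.pi) → E)

theorem GCap.mono {x y : V} {E E' : Prop} (h : GCap G p x y E) (hE : E → E') :
    GCap G p x y E' := by
  obtain ⟨l, h1, h2, h3, h4⟩ := h
  exact ⟨l, h1, h2, h3, fun h => hE (h4 h)⟩

/-- the main rule -/
theorem cap_rule (R : Rep G p tt b zg) {x y : V} (hxy : x ≠ y) (hna : ¬ G.Adj x y) {E E' : Prop}
    (hc : GCap G p x y E) (hc' : GCap G p y x E') :
    b x y = true ∧ (sg p (some x) (some y) none = true → E) ∧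
      (sg p (some x) (some y) none = false → E') := by
  obtain ⟨l, l0, l1, l2, l3⟩ := hc
  obtain ⟨r, r0, r1, r2, r3⟩ := hc'
  set X := p (some x) with hX
  set Y := p (some y) with hY
  set q := p none with hq
  have hgen0 : dt X Y q ≠ 0 := R.gen (some x) (some y) none (by simpa using hxy) (by simp) (by simp)
  have hXY : X ≠ Y := by
    intro e
    apply R.re_ne (some x) (some y) (by simpa using hxy)
    rw [← hX, ← hY, e]
  have hpi := Real.pi_pos
  have t0 := R.tpos x y hxy hna
  have t1 := R.tlt x y hxy hna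
  set z := zz p tt x y with hz
  have hz1 : z = X + (tt x y : ℂ) * (Y - X) := rfl
  have hz2 : z = Y + ((1 - tt x y : ℝ) : ℂ) * (X - Y) := by rw [hz1]; push_cast; ring
  have a1 : ths z (X :: (l ++ [Y])) = - Real.pi := cap hXY t0 t1 hz1 l0 l1
  have a2 : ths z (Y :: (r ++ [X])) = - Real.pi :=
    cap hXY.symm (by linarith) (by linarith) hz2 r0 r1
  -- the closed polygon
  have hcl : (X :: (l ++ (Y :: (r ++ [X])))).getLast (by simp) = X := by
    simp [List.getLast_cons]
  have hsub : sides (X :: (l ++ (Y :: (r ++ [X])))) ⊆ drawing G (p ∘ some) := by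
    rw [sides_append]; exact Set.union_subset l2 r2
  have hmem : ∀ m ∈ X :: (l ++ (Y :: (r ++ [X]))), m ∈ drawing G (p ∘ some) :=
    fun m hm => hsub (mem_sides_of_mem (by simp; omega) hm)
  have hsum : ths z (X :: (l ++ (Y :: (r ++ [X])))) = -(2 * Real.pi) := by
    rw [ths_append, a1, a2]; ring
  have hb : b x y = true := by
    rcases hb : b x y with _ | _
    · have := R.out x y hxy hna hb X _ hcl hmem hsub
      rw [hsum] at this
      linarith
    · rfl
  have hq' : ths q (X :: (l ++ [Y])) + ths q (Y :: (r ++ [X])) = -(2 * Real.pi) := by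
    rw [← ths_append, ← R.inn x y hxy hna hb X _ hcl hmem hsub, hsum]
  have hnot : q ∉ segment ℝ X Y := by
    apply notMem_segment_of_dt
    rw [dt_rot]; exact (fun h => hgen0 (by rw [← dt_rot] at h; rw [← h, dt_rot]))
  have hsw : th q Y X = - th q X Y := th_swap hnot
  have e1 : ths q (X :: (l ++ [Y, X])) = ths q (X :: (l ++ [Y])) + th q Y X := by
    rw [ths_append]; simp [ths]
  have e2 : ths q (Y :: (r ++ [X, Y])) = ths q (Y :: (r ++ [X])) + th q X Y := by
    rw [ths_append]; simp [ths]
  refine ⟨hb, ?_, ?_⟩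
  · intro hs
    rw [sg_true] at hs
    apply l3
    have h0 : ths q (Y :: (r ++ [X, Y])) = 0 := by
      apply ths_side (x := X) (y := Y) hs
      · intro m hm
        simp only [List.mem_cons, List.mem_append, List.not_mem_nil, or_false] at hm
        rcases hm with rfl | hm | rfl | rfl
        · unfold dt; apply le_of_eq; ring
        · have := r1 m hm
          rw [dt_swap] at this; linarith
        · unfold dt; apply le_of_eq; ring
        · unfold dt; apply le_of_eq; ring
      · simp [List.getLast_cons]
    linarith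
  · intro hs
    rw [sg_false] at hs
    have hs' : 0 < dt Y X q := by
      rw [dt_swap]
      have := lt_of_le_of_ne hs hgen0
      linarith
    apply r3
    have h0 : ths q (X :: (l ++ [Y, X])) = 0 := by
      apply ths_side (x := Y) (y := X) hs'
      · intro m hm
        simp only [List.mem_cons, List.mem_append, List.not_mem_nil, or_false] at hm
        rcases hm with rfl | hm | rfl | rfl
        · unfold dt; apply le_of_eq; ring
        · have := l1 m hm
          rw [dt_swap] at this; linarith
        · unfold dt; apply le_of_eq; ring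
        · unfold dt; apply le_of_eq; ring
      · simp [List.getLast_cons]
    linarith

end rules

end Pool.Agent.Helper12.Obs
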