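import Pool.Agent.Helper12.Obs.Chain
import Pool.Agent.Helper12.Obs.Pl

set_option autoImplicit false

namespace Pool.Agent.Helper12.Obs

open Complex Metric

/-- Boolean Grassmann-Plücker relation for the six signs
`[1][2] - [3][4] + [5][6] = 0`. -/
def gpB (a1 a2 a3 a4 a5 a6 : Bool) : Bool :=
  !(((a1 == a2) && !(a3 == a4) && (a5 == a6)) || (!(a1 == a2) && (a3 == a4) && !(a5 == a6)))

theorem gpB_of {x1 x2 x3 x4 x5 x6 : ℝ} (h1 : x1 ≠ 0) (h2 : x2 ≠ 0) (h3 : x3 ≠ 0) (h4 : x4 ≠ 0)
    (h5 : x5 ≠ 0) (h6 : x6 ≠ 0) (h : x1 * x2 - x3 * x4 + x5 * x6 = 0) :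
    gpB (decide (0 < x1)) (decide (0 < x2)) (decide (0 < x3)) (decide (0 < x4)) (decide (0 < x5))
      (decide (0 < x6)) = true := by
  have key : ∀ x y : ℝ, x ≠ 0 → y ≠ 0 →
      ((decide (0 < x) == decide (0 < y)) = true ∧ 0 < x * y) ∨
      ((decide (0 < x) == decide (0 < y)) = false ∧ x * y < 0) := by
    intro x y hx hy
    rcases lt_or_gt_of_ne hx with hx | hx <;> rcases lt_or_gt_of_ne hy with hy | hy
    · left; simp [not_lt.mpr hx.le, not_lt.mpr hy.le, mul_pos_of_neg_of_neg hx hy]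
    · right; simp [not_lt.mpr hx.le, hy, mul_neg_of_neg_of_pos hx hy]
    · right; simp [not_lt.mpr hy.le, hx, mul_neg_of_pos_of_neg hx hy]
    · left; simp [hx, hy]
  unfold gpB
  rcases key x1 x2 h1 h2 with ⟨e1, g1⟩ | ⟨e1, g1⟩ <;>
  rcases key x3 x4 h3 h4 with ⟨e2, g2⟩ | ⟨e2, g2⟩ <;>
  rcases key x5 x6 h5 h6 with ⟨e3, g3⟩ | ⟨e3, g3⟩ <;> rw [e1, e2, e3] <;>
  first
    | rfl
    | (exfalso; linarith)

/-- The Boolean data of a representation.
`s a b c`: orientation of the points `a b c` (`none` is a point of the second obstacle);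
`b x y`: the non-edge `xy` is blocked by the second obstacle;
`σ x y u v`: orientation of `z u v` for a generic point `z` of the obstacle blocking `xy`,
next to the segment `xy`. -/
structure Sys {V : Type} [DecidableEq V] (G : SimpleGraph V)
    (s : Option V → Option V → Option V → Bool) (b : V → V → Bool)
    (σ : V → V → Option V → Option V → Bool) : Prop where
  rot : ∀ a b c, s b c a = s a b c
  swap : ∀ a b c, a ≠ b → b ≠ c → a ≠ c → s b a c = !(s a b c)
  gp : ∀ a b c d e, a ≠ b → a ≠ c → a ≠ d → a ≠ e → b ≠ c → b ≠ d → b ≠ e → c ≠ d → c ≠ e →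
    d ≠ e → gpB (s a b c) (s a d e) (s a b d) (s a c e) (s a b e) (s a c d) = true
  bsymm : ∀ x y, b x y = b y x
  zsymm : ∀ x y, σ x y = σ y x
  zswap : ∀ x y, x ≠ y → ¬ G.Adj x y → ∀ u v, u ≠ v → σ x y v u = !(σ x y u v)
  /-- `z` is between `x` and `y` -/
  zboth : ∀ x y, x ≠ y → ¬ G.Adj x y → ∀ u v, s (some x) u v = true → s (some y) u v = true →
    σ x y u v = true
  /-- `z` is on the ray from `x` to `y` -/
  zend : ∀ x y, x ≠ y → ¬ G.Adj x y → ∀ v, v ≠ some x → v ≠ some y →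
    σ x y (some x) v = s (some y) (some x) v
  gpz : ∀ x y, x ≠ y → ¬ G.Adj x y → ∀ a c d e, a ≠ c → a ≠ d → a ≠ e → c ≠ d → c ≠ e → d ≠ e →
    gpB (σ x y a c) (σ x y d e) (σ x y a d) (σ x y c e) (σ x y a e) (σ x y c d) = true
  gpz' : ∀ x y, x ≠ y → ¬ G.Adj x y → ∀ a c d e, a ≠ c → a ≠ d → a ≠ e → c ≠ d → c ≠ e → d ≠ e →
    gpB (s a c d) (σ x y a e) (s a c e) (σ x y a d) (σ x y a c) (s a d e) = true
  /-- winding numbers of closed chains of edges -/
  chain : ∀ x y, x ≠ y → ¬ G.Adj x y → ∀ (e₀ : V × V) (l : List (V × V)), G.Adj e₀.1 e₀.2 →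
    (∀ f ∈ l, G.Adj f.1 f.2) → chOK (fun u v w => s (some u) (some v) (some w)) e₀ e₀ l = true →
    chv (fun u v => σ x y (some u) (some v)) e₀ e₀ l =
      if b x y then chv (fun u v => s none (some u) (some v)) e₀ e₀ l else 0

section
variable {V : Type} [DecidableEq V] {G : SimpleGraph V} {p : Option V → ℂ} {tt : V → V → ℝ}
  {b : V → V → Bool} {zg : V → V → ℂ}

theorem genZ_none (R : Rep G p tt b zg) : GenZ p (p none) :=
  ⟨fun u v h => R.gen none (some u) (some v) (by simp) (by simpa using h) (by simp),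
   fun u e => R.re_ne (some u) none (by simp) (by rw [e])⟩

theorem genZ_z (R : Rep G p tt b zg) {x y : V} (hxy : x ≠ y) (hna : ¬ G.Adj x y) :
    GenZ p (zg x y) :=
  ⟨fun u v h => R.zgen x y hxy hna (some u) (some v) (by simpa using h),
   fun u => R.zne x y hxy hna (some u)⟩

theorem chain_rule (R : Rep G p tt b zg) {x y : V} (hxy : x ≠ y) (hna : ¬ G.Adj x y)
    (e₀ : V × V) (l : List (V × V)) (h₀ : G.Adj e₀.1 e₀.2) (hl : ∀ f ∈ l, G.Adj f.1 f.2)
    (hok : chOK (sv p) e₀ e₀ l = true) :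
    chv (sz p (zg x y)) e₀ e₀ l = if b x y then chv (sz p (p none)) e₀ e₀ l else 0 := by
  obtain ⟨L, hL1, hL2, hL3, hL4⟩ := chain_poly (G := G) R.gen e₀ h₀ e₀ l h₀ hl hok
  have hpi := Real.pi_pos
  have hmem : ∀ m ∈ p (some e₀.1) :: L, m ∈ drawing G (p ∘ some) := by
    intro m hm
    apply hL2
    apply mem_sides_of_mem _ hm
    rcases L with _ | ⟨a, L⟩
    · exact absurd rfl hL3
    · simp
  have hz := hL4 _ (genZ_z R hxy hna)
  have hq := hL4 _ (genZ_none R)
  rw [th_self ((genZ_z R hxy hna).2 _), zero_add] at hz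
  rw [th_self ((genZ_none R).2 _), zero_add] at hq
  have e1 := R.zths x y hxy hna _ L hL1 hL2
  have cancel : ∀ a c : ℤ, (a : ℝ) * (2 * Real.pi) = (c : ℝ) * (2 * Real.pi) → a = c := by
    intro a c h
    have := mul_right_cancel₀ (by positivity : (2 * Real.pi : ℝ) ≠ 0) h
    exact_mod_cast this
  rcases hb : b x y with _ | _
  · have e2 := R.out x y hxy hna hb _ L hL1 hmem hL2
    simp only [Bool.false_eq_true, if_false]
    apply cancel
    rw [← hz, e1, e2]; simp
  · have e2 := R.inn x y hxy hna hb _ L hL1 hmem hL2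
    simp only [if_true]
    apply cancel
    rw [← hz, e1, e2, hq]

/-- signs of the generic blocking points -/
noncomputable def sigz (p : Option V → ℂ) (zg : V → V → ℂ) (x y : V) (u v : Option V) : Bool :=
  decide (0 < dt (zg x y) (p u) (p v))

theorem sys_of_rep (R : Rep G p tt b zg) : Sys G (sg p) b (sigz p zg) := by
  have swp : ∀ x : ℝ, x ≠ 0 → decide (0 < -x) = !(decide (0 < x)) := by
    intro x hx
    rcases lt_or_gt_of_ne hx with h | h
    · simp [h, not_lt.mpr h.le]
    · simp [h, not_lt.mpr h.le]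
  have zgen := R.zgen
  refine { rot := fun a b c => sg_rot p a b c, swap := ?_, gp := ?_, bsymm := R.bsymm,
           zsymm := ?_, zswap := ?_, zboth := ?_, zend := ?_, gpz := ?_, gpz' := ?_, chain := ?_ }
  · intro a b c h1 h2 h3
    exact sg_swap p R.gen h1 h2 h3
  · intro a b c d e hab hac had hae hbc hbd hbe hcd hce hde
    exact gpB_of (R.gen _ _ _ hab hbc hac) (R.gen _ _ _ had hde hae) (R.gen _ _ _ hab hbd had)
      (R.gen _ _ _ hac hce hae) (R.gen _ _ _ hab hbe hae) (R.gen _ _ _ hac hcd had)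
      (dt_gp _ _ _ _ _)
  · intro x y
    unfold sigz
    rw [R.zsymm x y]
  · intro x y hxy hna u v huv
    unfold sigz
    rw [dt_swap']
    exact swp _ (zgen x y hxy hna u v huv)
  · intro x y hxy hna u v h1 h2
    rw [sg_true] at h1 h2
    unfold sigz
    rw [decide_eq_true_eq]
    apply R.zpos x y hxy hna
    unfold zz
    rw [dt_lin1]
    have t0 := R.tpos x y hxy hna
    have t1 := R.tlt x y hxy hna
    have := mul_pos t0 h2
    have := mul_pos (by linarith : 0 < 1 - tt x y) h1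
    linarith
  · intro x y hxy hna v hv1 hv2
    have t0 := R.tpos x y hxy hna
    have hxv : (some x : Option V) ≠ v := Ne.symm hv1
    have hyx : (some y : Option V) ≠ some x := by simpa using hxy.symm
    have hyv : (some y : Option V) ≠ v := Ne.symm hv2
    have hne := R.gen (some y) (some x) v hyx hxv hyv
    have e1 : dt (zz p tt x y) (p (some x)) (p v) = tt x y * dt (p (some y)) (p (some x)) (p v) := by
      unfold zz
      rw [dt_lin1, dt_self12]; ring
    have e2 : dt (zz p tt x y) (p v) (p (some x)) = - (tt x y * dt (p (some y)) (p (some x)) (p v)) := by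
      rw [dt_swap', e1]
    rcases lt_or_gt_of_ne hne with h | h
    · have h1 : 0 < dt (zz p tt x y) (p v) (p (some x)) := by
        rw [e2]; have := mul_neg_of_pos_of_neg t0 h; linarith
      have h2 := R.zpos x y hxy hna _ _ h1
      rw [dt_swap'] at h2
      unfold sigz sg
      rw [decide_eq_false (by linarith : ¬ 0 < dt (zg x y) (p (some x)) (p v)),
        decide_eq_false (by linarith : ¬ 0 < dt (p (some y)) (p (some x)) (p v))]
    · have h1 : 0 < dt (zz p tt x y) (p (some x)) (p v) := by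
        rw [e1]; exact mul_pos t0 h
      have h2 := R.zpos x y hxy hna _ _ h1
      unfold sigz sg
      rw [decide_eq_true h2, decide_eq_true h]
  · intro x y hxy hna a c d e hac had hae hcd hce hde
    exact gpB_of (zgen x y hxy hna _ _ hac) (zgen x y hxy hna _ _ hde) (zgen x y hxy hna _ _ had)
      (zgen x y hxy hna _ _ hce) (zgen x y hxy hna _ _ hae) (zgen x y hxy hna _ _ hcd)
      (dt_gp _ _ _ _ _)
  · intro x y hxy hna a c d e hac had hae hcd hce hde
    have h := dt_gp (p a) (p c) (p d) (p e) (zg x y)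
    have r : ∀ u v : Option V, dt (p u) (p v) (zg x y) = dt (zg x y) (p u) (p v) :=
      fun u v => dt_rot _ _ _
    rw [r a e, r a d, r a c] at h
    exact gpB_of (R.gen _ _ _ hac hcd had) (zgen x y hxy hna _ _ hae) (R.gen _ _ _ hac hce hae)
      (zgen x y hxy hna _ _ had) (zgen x y hxy hna _ _ hac) (R.gen _ _ _ had hde hae) h
  · intro x y hxy hna e₀ l h₀ hl hok
    exact chain_rule R hxy hna e₀ l h₀ hl hok

end

/-- Final reduction in Boolean form. -/
theorem final_sys {V : Type} [Fintype V] [Nonempty V] [DecidableEq V] (H : SimpleGraph V)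
    (c : V → ℤ × ℤ) (K : ℤ) (D : GridDrawing H c K)
    (hno : ∀ (s : Option V → Option V → Option V → Bool) (b : V → V → Bool)
      (σ : V → V → Option V → Option V → Bool), ¬ Sys H s b σ) :
    ¬ (∀ (V : Type) [Fintype V] (G : SimpleGraph V),
      (∃ (p : V → ℝ × ℝ) (γ : ∀ u v : V, Path (p u) (p v)),
          Function.Injective p ∧
          (∀ u v : V, G.Adj u v → Function.Injective ⇑(γ u v)) ∧
          (∀ u v w : V, G.Adj u v → p w ∈ Set.range ⇑(γ u v) → w = u ∨ w = v) ∧
          (∀ u v w x : V, G.Adj u v → G.Adj w x → ¬ (w = u ∧ x = v) → ¬ (w = v ∧ x = u) →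
            ∀ z : ℝ × ℝ, z ∈ Set.range ⇑(γ u v) → z ∈ Set.range ⇑(γ w x) →
              z = p u ∨ z = p v)) →
      ∃ (q : V → ℝ × ℝ) (O₁ O₂ : Set (ℝ × ℝ)),
        Function.Injective q ∧ IsPreconnected O₁ ∧ IsPreconnected O₂ ∧
        (∀ v : V, q v ∉ O₁ ∪ O₂) ∧
        (∀ u v : V, u ≠ v → (G.Adj u v ↔ Disjoint (segment ℝ (q u) (q v)) (O₁ ∪ O₂)))) :=
  final H c K D (fun p tt b zg R => hno _ _ _ (sys_of_rep R))

end Pool.Agent.Helper12.Obs
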