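import Mathlib

set_option autoImplicit false

namespace Pool.Agent.Helper12.Obs

open Complex

/-- The angle under which the oriented side `ab` is seen from `z`. -/
noncomputable def th (z a b : ℂ) : ℝ := Complex.arg ((b - z) / (a - z))

/-- Total angle of a polygonal path. -/
noncomputable def ths (z : ℂ) : List ℂ → ℝ
  | [] => 0
  | [_] => 0
  | a :: b :: l => th z a b + ths z (b :: l)

/-- Union of the sides of a polygonal path. -/
def sides : List ℂ → Set ℂ
  | [] => ∅
  | [_] => ∅
  | a :: b :: l => segment ℝ a b ∪ sides (b :: l)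

theorem ths_cons_cons (z a b : ℂ) (l : List ℂ) :
    ths z (a :: b :: l) = th z a b + ths z (b :: l) := rfl

theorem sides_cons_cons (a b : ℂ) (l : List ℂ) :
    sides (a :: b :: l) = segment ℝ a b ∪ sides (b :: l) := rfl

theorem div_mem_slitPlane {z a b : ℂ} (h : z ∉ segment ℝ a b) :
    (b - z) / (a - z) ∈ slitPlane := by
  have ha : a ≠ z := fun e => h (e ▸ left_mem_segment ℝ a b)
  have hb : b ≠ z := fun e => h (e ▸ right_mem_segment ℝ a b)
  have ha' : a - z ≠ 0 := sub_ne_zero.mpr ha
  have hb' : b - z ≠ 0 := sub_ne_zero.mpr hb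
  rw [Complex.mem_slitPlane_iff_not_le_zero]
  intro hle
  apply h
  set w := (b - z) / (a - z) with hw
  have hre : w.re ≤ 0 := (Complex.le_def.mp hle).1
  have him : w.im = 0 := (Complex.le_def.mp hle).2
  have hwr : w = ((w.re : ℝ) : ℂ) := by
    apply Complex.ext <;> simp [him]
  have hbz : b - z = w * (a - z) := by rw [hw]; field_simp
  set t : ℝ := -w.re with ht
  have ht0 : 0 ≤ t := by rw [ht]; linarith
  have h1 : b - z = -(t : ℂ) * (a - z) := by
    rw [hbz, hwr, ht]; push_cast; ring
  have h2 : ((1 + t : ℝ) : ℂ) * z = b + (t : ℂ) * a := by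
    push_cast
    linear_combination (-1 : ℂ) * h1
  have h1t : (0 : ℝ) < 1 + t := by linarith
  rw [segment_eq_image]
  refine ⟨1 / (1 + t), ⟨by positivity, ?_⟩, ?_⟩
  · rw [div_le_one h1t]; linarith
  · simp only [Complex.real_smul]
    have hne : ((1 + t : ℝ) : ℂ) ≠ 0 := by exact_mod_cast h1t.ne'
    apply mul_left_cancel₀ hne
    rw [h2]
    have h3 : ((1 + t : ℝ) : ℂ) * (((1 - 1 / (1 + t) : ℝ)) : ℂ) = (t : ℂ) := by
      rw [← Complex.ofReal_mul]
      congr 1
      field_simp
      ring
    have h4 : ((1 + t : ℝ) : ℂ) * (((1 / (1 + t) : ℝ)) : ℂ) = 1 := by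
      rw [← Complex.ofReal_mul]
      norm_num
      rw [← Complex.ofReal_one, ← Complex.ofReal_add, ← Complex.ofReal_inv, ← Complex.ofReal_mul]
      congr 1
      field_simp
    rw [mul_add, ← mul_assoc, ← mul_assoc, h3, h4]
    ring

theorem th_continuousAt {z a b : ℂ} (h : z ∉ segment ℝ a b) :
    ContinuousAt (fun w => th w a b) z := by
  have ha : a ≠ z := fun e => h (e ▸ left_mem_segment ℝ a b)
  have ha' : a - z ≠ 0 := sub_ne_zero.mpr ha
  have h1 : ContinuousAt (fun w : ℂ => (b - w) / (a - w)) z := by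
    apply ContinuousAt.div
    · fun_prop
    · fun_prop
    · exact ha'
  have h2 := Complex.continuousAt_arg (div_mem_slitPlane h)
  exact ContinuousAt.comp (f := fun w : ℂ => (b - w) / (a - w)) (g := Complex.arg) (x := z) h2 h1

theorem ths_continuousAt {z : ℂ} : ∀ {L : List ℂ}, z ∉ sides L →
    ContinuousAt (fun w => ths w L) z
  | [], _ => continuousAt_const
  | [_], _ => continuousAt_const
  | a :: b :: l, h => by
    rw [sides_cons_cons] at h
    simp only [ths_cons_cons]
    exact (th_continuousAt (fun h' => h (Or.inl h'))).add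
      (ths_continuousAt (fun h' => h (Or.inr h')))

/-- direction of a nonzero complex number -/
noncomputable def dir (w : ℂ) : ℂ := w / (‖w‖ : ℂ)

theorem dir_div {v w : ℂ} (_hv : v ≠ 0) (_hw : w ≠ 0) : dir (v / w) = dir v / dir w := by
  unfold dir
  rw [norm_div]
  push_cast
  field_simp

theorem dir_ne_zero {w : ℂ} (hw : w ≠ 0) : dir w ≠ 0 := by
  unfold dir
  exact div_ne_zero hw (by exact_mod_cast (norm_ne_zero_iff.mpr hw))

theorem exp_arg_eq_dir {w : ℂ} (hw : w ≠ 0) : Complex.exp ((Complex.arg w : ℂ) * I) = dir w := by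
  unfold dir
  rw [eq_div_iff (by exact_mod_cast (norm_ne_zero_iff.mpr hw))]
  rw [mul_comm]
  exact Complex.norm_mul_exp_arg_mul_I w

theorem exp_th {z a b : ℂ} (ha : a ≠ z) (hb : b ≠ z) :
    Complex.exp ((th z a b : ℂ) * I) = dir (b - z) / dir (a - z) := by
  unfold th
  have ha' : a - z ≠ 0 := sub_ne_zero.mpr ha
  have hb' : b - z ≠ 0 := sub_ne_zero.mpr hb
  rw [exp_arg_eq_dir (div_ne_zero hb' ha'), dir_div hb' ha']

/-- telescoping -/
theorem exp_ths {z : ℂ} : ∀ {a : ℂ} {l : List ℂ}, (∀ m ∈ a :: l, m ≠ z) →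
    Complex.exp ((ths z (a :: l) : ℂ) * I) * dir (a - z) = dir ((a :: l).getLast (by simp) - z)
  | a, [], _ => by simp [ths]
  | a, b :: l, h => by
    rw [ths_cons_cons]
    have hz : a ≠ z := h a (by simp)
    have hb : b ≠ z := h b (by simp)
    have hrec := exp_ths (z := z) (a := b) (l := l) (fun m hm => h m (List.mem_cons_of_mem _ hm))
    push_cast
    rw [add_mul, Complex.exp_add, exp_th hz hb]
    have hd : dir (a - z) ≠ 0 := dir_ne_zero (sub_ne_zero.mpr hz)
    have e : dir (b - z) / dir (a - z) * Complex.exp ((ths z (b :: l) : ℂ) * I) * dir (a - z)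
        = Complex.exp ((ths z (b :: l) : ℂ) * I) * dir (b - z) := by
      field_simp
    rw [e, hrec]
    simp [List.getLast_cons]

theorem mem_sides_of_mem : ∀ {L : List ℂ} {m : ℂ}, 2 ≤ L.length → m ∈ L → m ∈ sides L
  | [], _, h, _ => by simp at h
  | [_], _, h, _ => by simp at h
  | a :: b :: l, m, _, hm => by
    rw [sides_cons_cons]
    rcases List.mem_cons.mp hm with h1 | h1
    · left; rw [h1]; exact left_mem_segment ℝ a b
    · rcases l with _ | ⟨c, l⟩
      · simp at h1
        left; rw [h1]; exact right_mem_segment ℝ a b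
      · right
        exact mem_sides_of_mem (by simp) h1

/-- closed polygons have integral winding number -/
theorem ths_closed {z a : ℂ} {l : List ℂ} (hz : z ∉ sides (a :: l))
    (hcl : (a :: l).getLast (by simp) = a) : ∃ k : ℤ, ths z (a :: l) = k * (2 * Real.pi) := by
  rcases l with _ | ⟨b, l⟩
  · exact ⟨0, by simp [ths]⟩
  have hm : ∀ m ∈ a :: b :: l, m ≠ z := by
    intro m hm e
    exact hz (e ▸ mem_sides_of_mem (by simp) hm)
  have h1 := exp_ths (z := z) hm
  rw [hcl] at h1
  have hd : dir (a - z) ≠ 0 := dir_ne_zero (sub_ne_zero.mpr (hm a (by simp)))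
  have h2 : Complex.exp ((ths z (a :: b :: l) : ℂ) * I) = 1 := by
    have h3 : Complex.exp ((ths z (a :: b :: l) : ℂ) * I) * dir (a - z) = 1 * dir (a - z) := by
      rw [h1, one_mul]
    exact mul_right_cancel₀ hd h3
  rw [Complex.exp_eq_one_iff] at h2
  obtain ⟨k, hk⟩ := h2
  refine ⟨k, ?_⟩
  have h4 : ((ths z (a :: b :: l) : ℝ) : ℂ) = ((k * (2 * Real.pi) : ℝ) : ℂ) := by
    have hI : (I : ℂ) ≠ 0 := I_ne_zero
    apply mul_right_cancel₀ hI
    rw [hk]; push_cast; ring
  exact_mod_cast h4

/-- the winding number is constant on connected sets avoiding the polygon -/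
theorem ths_const {S : Set ℂ} (hS : IsPreconnected S) {a : ℂ} {l : List ℂ}
    (hd : Disjoint S (sides (a :: l))) (hcl : (a :: l).getLast (by simp) = a)
    {z w : ℂ} (hz : z ∈ S) (hw : w ∈ S) : ths z (a :: l) = ths w (a :: l) := by
  have hpi : (0 : ℝ) < 2 * Real.pi := by positivity
  let f : ℂ → ℝ := fun z => ths z (a :: l) / (2 * Real.pi)
  have hf : ContinuousOn f S := by
    intro x hx
    have : x ∉ sides (a :: l) := fun h => Set.disjoint_left.mp hd hx h
    exact ((ths_continuousAt this).div_const _).continuousWithinAt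
  have himg : ∀ x ∈ S, f x ∈ Set.range ((↑) : ℤ → ℝ) := by
    intro x hx
    have : x ∉ sides (a :: l) := fun h => Set.disjoint_left.mp hd hx h
    obtain ⟨k, hk⟩ := ths_closed this hcl
    refine ⟨k, ?_⟩
    simp only [f]
    rw [hk, mul_div_assoc, div_self hpi.ne', mul_one]
  have key : f z = f w := by
    have hdisc : IsDiscrete (Set.range ((↑) : ℤ → ℝ)) := by
      rw [isDiscrete_iff_discreteTopology]
      exact Int.isClosedEmbedding_coe_real.isEmbedding.toHomeomorph.symm.isEmbedding.discreteTopology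
    exact hS.constant_of_mapsTo hdisc hf himg hz hw
  simp only [f] at key
  field_simp at key
  linarith

end Pool.Agent.Helper12.Obs
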